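import Pool.Agent.Work.MP_e8003b_pr.Moments

open MeasureTheory ProbabilityTheory Set Filter Topology
open scoped ENNReal

namespace Pool.Agent.Work.MPe8003b

variable {b : ℝ → Finset ℝ → ℝ} {q₀ A : ℝ}

/-- reindexing of histories -/
noncomputable def rho (n : ℕ) (u : (i : Finset.Iic n) → ℝ × ℝ) : Fin (n+1) → ℝ × ℝ :=
  fun k => if k = 0 then (0, 0) else u ⟨k, Finset.mem_Iic.mpr (Nat.lt_succ_iff.mp k.2)⟩

lemma measurable_rho (n : ℕ) : Measurable (rho n) := by
  unfold rho
  apply measurable_pi_lambda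
  intro k
  by_cases hk : k = 0
  · simp only [hk, if_true]; exact measurable_const
  · simp only [hk, if_false]; exact measurable_pi_apply _

/-- transition kernels for Ionescu-Tulcea -/
noncomputable def kap (b : ℝ → Finset ℝ → ℝ) (n : ℕ) :
    Kernel ((i : Finset.Iic n) → (fun _ : ℕ => ℝ × ℝ) i) ((fun _ : ℕ => ℝ × ℝ) (n+1)) :=
  (stepK b n).comap (rho n) (measurable_rho n)

lemma isMarkov_kap (gb : GoodRate b q₀ A) (n : ℕ) : IsMarkovKernel (kap b n) := by
  have h1 : IsMarkovKernel (waitK b n) := gb.isMarkov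
  have h2 : IsMarkovKernel (stepK b n) := by
    unfold stepK
    exact Kernel.IsMarkovKernel.map _ (measurable_shiftMap n)
  unfold kap
  exact Kernel.IsMarkovKernel.comap _ _

/-- Existence of the birth process. -/
theorem exists_process (gb : GoodRate b q₀ A) :
    ∃ (Ω : Type) (_ : MeasurableSpace Ω) (P : Measure Ω) (T Y : ℕ → Ω → ℝ),
      IsBirthProcess b P T Y := by
  have hk : ∀ n, IsMarkovKernel (kap b n) := isMarkov_kap gb
  let x₀ : (i : Finset.Iic 0) → ℝ × ℝ := fun _ => (0, 0)
  let P : Measure (ℕ → ℝ × ℝ) := Kernel.traj (X := fun _ => ℝ × ℝ) (kap b) 0 x₀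
  let T : ℕ → (ℕ → ℝ × ℝ) → ℝ := fun n ω => if n = 0 then 0 else (ω n).1
  let Y : ℕ → (ℕ → ℝ × ℝ) → ℝ := fun n ω => if n = 0 then 0 else (ω n).2
  have hP : IsProbabilityMeasure P := by
    simp only [P]; infer_instance
  refine ⟨ℕ → ℝ × ℝ, inferInstance, P, T, Y, hP, ?_, ?_, ?_, ?_, ?_⟩
  · intro n
    by_cases hn : n = 0
    · simp only [T, hn, if_true]; exact measurable_const
    · simp only [T, hn, if_false]; exact measurable_fst.comp (measurable_pi_apply n)
  · intro n
    by_cases hn : n = 0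
    · simp only [Y, hn, if_true]; exact measurable_const
    · simp only [Y, hn, if_false]; exact measurable_snd.comp (measurable_pi_apply n)
  · intro ω; simp [T]
  · intro ω; simp [Y]
  · intro n G hG
    have hrho : ∀ ω : ℕ → ℝ × ℝ, (fun k : Fin (n+1) => (T k ω, Y k ω)) =
        rho n (Preorder.frestrictLe n ω) := by
      intro ω
      ext k : 1
      simp only [T, Y, rho]
      by_cases hk0 : k = 0
      · simp [hk0]
      · have : (k : ℕ) ≠ 0 := by
          intro h; apply hk0; ext; simpa using h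
        simp [hk0, this]
    have hnext : ∀ ω : ℕ → ℝ × ℝ, (T (n+1) ω, Y (n+1) ω) = ω (n+1) := by
      intro ω
      simp [T, Y]
    have hG' : Measurable (fun p : ((i : Finset.Iic n) → ℝ × ℝ) × (ℝ × ℝ) => G (rho n p.1, p.2)) :=
      hG.comp (((measurable_rho n).comp measurable_fst).prodMk measurable_snd)
    have h1 := Kernel.partialTraj_compProd_eq_map_traj (X := fun _ => ℝ × ℝ) (κ := kap b)
      (Nat.zero_le n) (x₀ := x₀)
    have h2 := Kernel.traj_map_frestrictLe_apply (X := fun _ => ℝ × ℝ) (κ := kap b) 0 n x₀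
    have hm1 : Measurable (fun ω : ℕ → ℝ × ℝ => (Preorder.frestrictLe (π := fun _ => ℝ × ℝ) n ω)) :=
      Preorder.measurable_frestrictLe n
    have hm2 : Measurable (fun ω : ℕ → ℝ × ℝ =>
        (Preorder.frestrictLe (π := fun _ => ℝ × ℝ) n ω, ω (n+1))) :=
      hm1.prodMk (measurable_pi_apply (n+1))
    calc ∫⁻ ω, G (fun k => (T k ω, Y k ω), (T (n + 1) ω, Y (n + 1) ω)) ∂P
        = ∫⁻ ω, (fun p : ((i : Finset.Iic n) → ℝ × ℝ) × (ℝ × ℝ) => G (rho n p.1, p.2))
            (Preorder.frestrictLe (π := fun _ => ℝ × ℝ) n ω, ω (n+1)) ∂P := by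
          apply lintegral_congr
          intro ω
          rw [hrho, hnext]
      _ = ∫⁻ p, (fun p : ((i : Finset.Iic n) → ℝ × ℝ) × (ℝ × ℝ) => G (rho n p.1, p.2)) p
            ∂(P.map (fun ω : ℕ → ℝ × ℝ =>
              (Preorder.frestrictLe (π := fun _ => ℝ × ℝ) n ω, ω (n+1)))) := by
          rw [lintegral_map hG' hm2]
      _ = ∫⁻ ω, ∫⁻ z, G (rho n (Preorder.frestrictLe (π := fun _ => ℝ × ℝ) n ω), z)
            ∂(stepK b n (rho n (Preorder.frestrictLe (π := fun _ => ℝ × ℝ) n ω))) ∂P := by
          have h3 : P.map (fun ω : ℕ → ℝ × ℝ =>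
              (Preorder.frestrictLe (π := fun _ => ℝ × ℝ) n ω, ω (n+1))) =
              (P.map (Preorder.frestrictLe (π := fun _ => ℝ × ℝ) n)) ⊗ₘ (kap b n) := by
            rw [h2, h1]
          rw [h3]
          have hpm : IsProbabilityMeasure (P.map (Preorder.frestrictLe (π := fun _ => ℝ × ℝ) n)) :=
            Measure.isProbabilityMeasure_map hm1.aemeasurable
          rw [Measure.lintegral_compProd hG', lintegral_map _ hm1]
          · rfl
          · exact hG'.lintegral_kernel_prod_right' (κ := kap b n)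
      _ = _ := by
          apply lintegral_congr
          intro ω
          rw [← hrho]
          have h4 := lintegral_stepK gb.meas n (fun k : Fin (n+1) => (T k ω, Y k ω))
            (g := fun z => G (fun k : Fin (n+1) => (T k ω, Y k ω), z))
            (hG.comp measurable_prodMk_left)
          rw [h4]
          simp only [Fin.val_last]
          rfl

end Pool.Agent.Work.MPe8003b
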