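import Pool.Agent.Work.MP_e8003b_pr.Step

open MeasureTheory ProbabilityTheory Set Filter Topology
open scoped ENNReal

namespace Pool.Agent.Work.MPe8003b

variable {b : ℝ → Finset ℝ → ℝ}

lemma conf_neg {n : ℕ} (y : Fin n → ℝ) : conf (fun k => -y k) = (conf y).image (fun z => -z) := by
  unfold conf
  rw [Finset.image_image]
  rfl

lemma confAt_neg {Ω : Type} {Y : ℕ → Ω → ℝ} (n : ℕ) (ω : Ω) :
    confAt (fun n ω => -Y n ω) n ω = (confAt Y n ω).image (fun z => -z) := by
  unfold confAt
  exact conf_neg _

lemma rate_neg (hrefl : ∀ x η, b (-x) (η.image (fun z => -z)) = b x η) (x : ℝ) (η : Finset ℝ) :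
    b x (η.image (fun z => -z)) = b (-x) η := by
  have := hrefl (-x) η
  rw [neg_neg] at this
  exact this

lemma totalRate_neg (hrefl : ∀ x η, b (-x) (η.image (fun z => -z)) = b x η) (η : Finset ℝ) :
    totalRate b (η.image (fun z => -z)) = totalRate b η := by
  unfold totalRate
  simp only [rate_neg hrefl]
  exact integral_neg_eq_self (fun x => b x η) volume

lemma IsBirthProcess.neg {Ω : Type} [MeasurableSpace Ω] {P : Measure Ω} {T Y : ℕ → Ω → ℝ}
    (hP : IsBirthProcess b P T Y) (hrefl : ∀ x η, b (-x) (η.image (fun z => -z)) = b x η) :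
    IsBirthProcess b P T (fun n ω => -Y n ω) := by
  refine ⟨hP.prob, hP.measT, fun n => (hP.measY n).neg, hP.initT, fun ω => by simp [hP.initY ω],
    ?_⟩
  intro n G hG
  have h1 := hP.step n (fun p => G (fun k => ((p.1 k).1, -(p.1 k).2), (p.2.1, -p.2.2)))
    (by
      apply hG.comp
      apply Measurable.prodMk
      · apply measurable_pi_lambda
        intro k
        fun_prop
      · fun_prop)
  simp only at h1
  rw [h1]
  apply lintegral_congr
  intro ω
  apply lintegral_congr
  intro τ
  rw [← lintegral_neg_eq_self]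
  apply lintegral_congr
  intro x
  rw [confAt_neg, totalRate_neg hrefl, rate_neg hrefl, neg_neg]

end Pool.Agent.Work.MPe8003b
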