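import Pool.Agent.Work.MP_e8003b_pr.Expl

open MeasureTheory ProbabilityTheory Set Filter Topology
open scoped ENNReal

namespace Pool.Agent.Work.MPe8003b

variable {b : ℝ → Finset ℝ → ℝ} {q₀ A : ℝ}

/-- Kronecker's lemma -/
lemma kronecker {a A : ℕ → ℝ} (hA0 : ∀ n, 0 < A n) (hmono : Monotone A)
    (hA : Tendsto A atTop atTop) {s : ℝ}
    (h : Tendsto (fun n => ∑ k ∈ Finset.range n, (A k)⁻¹ * a k) atTop (𝓝 s)) :
    Tendsto (fun n => (∑ k ∈ Finset.range n, a k) / A n) atTop (𝓝 0) := by
  set S : ℕ → ℝ := fun n => ∑ k ∈ Finset.range n, (A k)⁻¹ * a k with hS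
  have h1 : ∀ n, ∑ k ∈ Finset.range n, a k =
      A n * (S n - s) + A 0 * s - ∑ k ∈ Finset.range n, (A (k+1) - A k) * (S (k+1) - s) := by
    intro n
    induction n with
    | zero => simp [hS]
    | succ n ih =>
      rw [Finset.sum_range_succ, ih, Finset.sum_range_succ]
      have h2 : S (n+1) = S n + (A n)⁻¹ * a n := by simp [hS, Finset.sum_range_succ]
      rw [h2]
      have := (hA0 n).ne'
      field_simp
      ring
  have h2 : (fun k => (A (k+1) - A k) * (S (k+1) - s)) =o[atTop] (fun k => A (k+1) - A k) := by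
    have h3 : Tendsto (fun k => S (k+1) - s) atTop (𝓝 0) := by
      have := (h.comp (tendsto_add_atTop_nat 1)).sub_const s
      simpa using this
    have h4 : (fun k => S (k+1) - s) =o[atTop] (fun _ => (1:ℝ)) := by
      rw [Asymptotics.isLittleO_one_iff]
      exact h3
    have h5 := (Asymptotics.isBigO_refl (fun k => A (k+1) - A k) atTop).mul_isLittleO h4
    simpa using h5
  have h3 : ∀ n, ∑ k ∈ Finset.range n, (A (k+1) - A k) = A n - A 0 := fun n =>
    Finset.sum_range_sub A n
  have h4 := h2.sum_range (fun k => sub_nonneg.mpr (hmono (Nat.le_succ k))) (by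
    simp only [h3]
    exact tendsto_atTop_add_const_right _ _ hA)
  simp only [h3] at h4
  have h5 : (fun n => A n - A 0) =O[atTop] A := by
    apply Asymptotics.IsBigO.of_bound 1
    filter_upwards with n
    rw [Real.norm_eq_abs, Real.norm_eq_abs, abs_of_nonneg (sub_nonneg.mpr (hmono (Nat.zero_le n))),
      abs_of_pos (hA0 n)]
    linarith [hA0 0]
  have h6 := (h4.trans_isBigO h5).tendsto_div_nhds_zero
  have h7 : Tendsto (fun n => A 0 * s / A n) atTop (𝓝 0) := by
    exact (tendsto_const_nhds).div_atTop hA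
  have h8 : Tendsto (fun n => S n - s) atTop (𝓝 0) := by
    simpa using h.sub_const s
  have h9 := (h8.add h7).sub h6
  simp only [add_zero, sub_zero] at h9
  refine h9.congr fun n => ?_
  rw [h1 n]
  have := (hA0 n).ne'
  field_simp

section
variable {Ω : Type} [mΩ : MeasurableSpace Ω] {P : Measure Ω} {T Y : ℕ → Ω → ℝ}
  (hP : IsBirthProcess b P T Y) (gb : GoodRate b q₀ A) {f : Finset ℝ → ℝ} {C : ℝ}
  (gf : GoodFun b f C)
include hP gb

omit mΩ hP gb in
lemma sum_aG (n : ℕ) (ω : Ω) : ∑ k ∈ Finset.range n, aG b f (hist T Y k ω, inc T Y k ω) =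
    f (confAt Y n ω) - f (confAt Y 0 ω) -
      ∑ k ∈ Finset.range n, (T (k+1) ω - T k ω) * Gen b f (confAt Y k ω) := by
  induction n with
  | zero => simp
  | succ n ih =>
    rw [Finset.sum_range_succ, ih, Finset.sum_range_succ]
    have h1 : aG b f (hist T Y n ω, inc T Y n ω) = f (confAt Y (n+1) ω) - f (confAt Y n ω) -
        (T (n+1) ω - T n ω) * Gen b f (confAt Y n ω) := by
      rw [confAt_succ]
      rfl
    rw [h1]
    ring

include gf in
theorem IsBirthProcess.slln : ∀ᵐ ω ∂P, Tendsto (fun n => (f (confAt Y n ω) -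
      ∑ k ∈ Finset.range n, (T (k+1) ω - T k ω) * Gen b f (confAt Y k ω)) / T n ω)
      atTop (𝓝 0) := by
  have hq := gb.q₀_pos
  set K : ℝ := q₀ / 4 with hKdef
  have hK : 0 < K := by positivity
  filter_upwards [hP.Z_converges gb gf hK (by rw [hKdef]; linarith), hP.T_tendsto gb,
    hP.ae_lt gb.meas, hP.ae_nonneg gb.meas] with ω h1 h2 h3 h4
  obtain ⟨s, hs⟩ := h1
  have hmono : Monotone (fun n => T n ω) := monotone_nat_of_le_succ fun n => (h3 n).le
  have hAt : Tendsto (fun n => 1 + K * T n ω) atTop atTop :=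
    tendsto_atTop_add_const_left _ _ (h2.const_mul_atTop hK)
  have h5 := kronecker (a := fun k => aG b f (hist T Y k ω, inc T Y k ω))
    (A := fun n => 1 + K * T n ω) (fun n => by have := h4 n; positivity)
    (fun i j hij => by have := hmono hij; simp only; nlinarith) hAt (s := s) (by
      refine hs.congr fun n => ?_
      unfold Z
      apply Finset.sum_congr rfl
      intro k _
      unfold wa wt
      have e1 : ((hist T Y k ω, inc T Y k ω).1 (Fin.last k)).1 = T k ω := by simp [hist]
      rw [e1, abs_of_nonneg (h4 k)])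
  have h6 : Tendsto (fun n => (1 + K * T n ω) / T n ω) atTop (𝓝 K) := by
    have h7 : Tendsto (fun n => 1 / T n ω + K) atTop (𝓝 (0 + K)) :=
      (tendsto_const_nhds.div_atTop h2).add_const K
    rw [zero_add] at h7
    refine h7.congr' ?_
    filter_upwards [h2.eventually_gt_atTop 0] with n hn
    field_simp
  have h8 := h5.mul h6
  rw [zero_mul] at h8
  have h9 : Tendsto (fun n => f (confAt Y 0 ω) / T n ω) atTop (𝓝 0) :=
    tendsto_const_nhds.div_atTop h2
  have h10 := h8.add h9
  rw [add_zero] at h10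
  refine h10.congr' ?_
  filter_upwards [h2.eventually_gt_atTop 0] with n hn
  rw [sum_aG]
  have h11 : 0 < 1 + K * T n ω := by have := h4 n; positivity
  field_simp
  ring

end

end Pool.Agent.Work.MPe8003b
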