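import Pool.Agent.Work.MP_e8003b_pr.ShapeDet
import Pool.Agent.Work.MP_e8003b_pr.Refl
import Pool.Agent.Work.MP_e8003b_pr.Slln

open MeasureTheory ProbabilityTheory Set Filter Topology
open scoped ENNReal

namespace Pool.Agent.Work.MPe8003b

variable {b : ℝ → Finset ℝ → ℝ} {ϱ : ℝ}

section
variable {Ω : Type} [mΩ : MeasurableSpace Ω] {P : Measure Ω} {T Y : ℕ → Ω → ℝ}

lemma ae_jump (hP : IsBirthProcess b P T Y) (hb : Nice b ϱ) :
    ∀ᵐ ω ∂P, ∀ n, mx (confAt Y (n+1) ω) ≤ mx (confAt Y n ω) + 2 * ϱ := by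
  have h1 : ∀ᵐ ω ∂P, ∀ n, ∃ k : Fin (n+1), |Y (n+1) ω - Y k ω| ≤ 2 * ϱ := by
    rw [ae_all_iff]
    intro n
    have h2 := hP.ae_inc (n := n) hb.meas
      (p := fun x => ∃ k : Fin (n+1), |x.2.2 - (x.1 k).2| ≤ 2 * ϱ) ?_ (ae_of_all _ fun ω => ?_)
    · filter_upwards [h2] with ω hω
      exact hω
    · have e1 : {x : (Fin (n+1) → ℝ × ℝ) × (ℝ × ℝ) |
          ∃ k : Fin (n+1), |x.2.2 - (x.1 k).2| ≤ 2 * ϱ} =
          (⋃ k : Fin (n+1), {x | |x.2.2 - (x.1 k).2| ≤ 2 * ϱ}) := by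
        ext x
        simp
      rw [e1]
      have m1 : ∀ k : Fin (n+1), Measurable
          (fun x : (Fin (n+1) → ℝ × ℝ) × (ℝ × ℝ) => (x.1 k).2) := fun k => by fun_prop
      have m2 : Measurable (fun x : (Fin (n+1) → ℝ × ℝ) × (ℝ × ℝ) => x.2.2) := by fun_prop
      exact MeasurableSet.iUnion fun k =>
        measurableSet_le (continuous_abs.measurable.comp (m2.sub (m1 k))) measurable_const
    · apply ae_waitK_snd hb.meas (hist T Y n ω)
        (p := fun x => ∃ k : Fin (n+1), |x - (hist T Y n ω k).2| ≤ 2 * ϱ)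
      filter_upwards with x hne
      obtain ⟨y, hy, hxy⟩ := hb.jump x _ hne
      simp only [conf, Finset.mem_image, Finset.mem_univ, true_and] at hy
      obtain ⟨k, rfl⟩ := hy
      exact ⟨k, hxy⟩
  filter_upwards [h1] with ω hω n
  have ht := top_mx (confAt_nonempty (Y := Y) (ω := ω) n)
  have hϱ := hb.one_le
  rw [confAt_succ]
  rcases le_total (Y (n+1) ω) (mx (confAt Y n ω)) with h2 | h2
  · rw [(ht.insert_le h2).mx_eq]
    linarith
  · rw [(ht.insert_ge h2).mx_eq]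
    obtain ⟨k, hk⟩ := hω n
    have h3 : Y k ω ≤ mx (confAt Y n ω) := ht.le _ (by simp [confAt, conf])
    rw [abs_le] at hk
    linarith

/-- law of large numbers for the rightmost particle -/
lemma ae_front (hP : IsBirthProcess b P T Y) (hb : Nice b ϱ) {κ s : ℝ} (hκ : |κ| ≤ 1)
    (hgen : ∀ η : Finset ℝ, η.Nonempty → Gen b (fk κ) η = s) :
    ∀ᵐ ω ∂P, Tendsto (fun n => mx (confAt Y n ω) / T n ω) atTop (𝓝 s) := by
  filter_upwards [hP.slln hb.good (hb.goodFun hκ), hP.T_tendsto hb.good] with ω h1 h2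
  have h3 : ∀ n, ∑ k ∈ Finset.range n, (T (k+1) ω - T k ω) * Gen b (fk κ) (confAt Y k ω) =
      s * T n ω := by
    intro n
    have h4 : ∀ k ∈ Finset.range n, (T (k+1) ω - T k ω) * Gen b (fk κ) (confAt Y k ω) =
        s * (T (k+1) ω - T k ω) := by
      intro k _
      rw [hgen _ (confAt_nonempty k)]
      ring
    rw [Finset.sum_congr rfl h4, ← Finset.mul_sum, Finset.sum_range_sub (fun k => T k ω),
      hP.initT, sub_zero]
  simp only [h3] at h1
  have h5 : Tendsto (fun n => |κ| / T n ω) atTop (𝓝 0) := tendsto_const_nhds.div_atTop h2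
  have h6 : Tendsto (fun n => κ * cl (confAt Y n ω) / T n ω) atTop (𝓝 0) := by
    apply squeeze_zero_norm' _ h5
    filter_upwards [h2.eventually_gt_atTop 0] with n hn
    rw [norm_div, Real.norm_eq_abs, Real.norm_eq_abs, abs_of_pos hn]
    apply div_le_div_of_nonneg_right _ hn.le
    rw [abs_mul, abs_of_nonneg (cl_nonneg _)]
    have := cl_le_one (confAt Y n ω)
    have := abs_nonneg κ
    nlinarith
  have h7 := (h1.sub h6).add_const s
  rw [sub_zero, zero_add] at h7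
  refine h7.congr' ?_
  filter_upwards [h2.eventually_gt_atTop 0] with n hn
  unfold fk
  field_simp
  ring

lemma ae_halfShape (hP : IsBirthProcess b P T Y) (hb : Nice b ϱ) {κ s : ℝ} (hκ : |κ| ≤ 1)
    (hs : 0 < s) (hgen : ∀ η : Finset ℝ, η.Nonempty → Gen b (fk κ) η = s) {r : ℝ} (hr : 0 < r) :
    ∀ᵐ ω ∂P, HalfShape r s T Y ω := by
  set ρ := min (r / 2) 1 with hρdef
  have hρ : 0 < ρ := lt_min (by positivity) one_pos
  have hρ1 : ρ ≤ 1 := min_le_right _ _
  have hρr : 2 * ρ ≤ r := by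
    have : ρ ≤ r / 2 := min_le_left _ _
    linarith
  have hϱ := hb.one_le
  have hfill : ∀ᵐ ω ∂P, ∀ m : ℕ, ∃ C : ℝ, ∀ j n : ℕ, V ϱ ρ (j * ρ) T Y n ω ≤
      C + 1 / ((m:ℝ) + 1) * j := by
    rw [ae_all_iff]
    intro m
    exact hP.fill_bound hb hρ hρ1 (by positivity)
  filter_upwards [ae_jump hP hb, ae_front hP hb hκ hgen, hP.T_tendsto hb.good,
    hP.ae_lt hb.meas, hfill] with ω h1 h2 h3 h4 h5
  exact halfShape_of hs hr hρ hρr (by linarith) h3 h4 (hP.initT ω) (hP.initY ω) h1 h2 h5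

lemma shape_of_halves {r s : ℝ} (hs : 0 < s) (hr : 0 < r) {ω : Ω} (h1 : HalfShape r s T Y ω)
    (h2 : HalfShape r s T (fun n ω => -Y n ω) ω) : Shape r s T Y ω := by
  intro ε hε hε1
  obtain ⟨t₁, ht₁⟩ := h1 ε hε hε1
  obtain ⟨t₂, ht₂⟩ := h2 ε hε hε1
  refine ⟨max t₁ t₂, fun t ht n hn1 hn2 => ?_⟩
  obtain ⟨a1, a2⟩ := ht₁ t ((le_max_left _ _).trans ht) n hn1 hn2
  obtain ⟨b1, b2⟩ := ht₂ t ((le_max_right _ _).trans ht) n hn1 hn2
  rw [confAt_neg] at b1 b2
  constructor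
  · intro z hz
    rcases le_total 0 z with h0 | h0
    · rw [abs_of_nonneg h0] at hz
      exact a1 z h0 hz
    · rw [abs_of_nonpos h0] at hz
      obtain ⟨x, hx, hx2⟩ := b1 (-z) (by linarith) hz
      obtain ⟨y, hy, rfl⟩ := Finset.mem_image.mp hx
      refine ⟨y, hy, ?_⟩
      rw [show -z - -y = -(z - y) by ring, abs_neg] at hx2
      exact hx2
  · rintro z ⟨x, hx, hxz⟩
    have c1 := a2 x hx
    have c2 := b2 (-x) (Finset.mem_image_of_mem _ hx)
    rw [abs_le] at hxz ⊢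
    constructor <;> linarith

lemma ae_shape (hP : IsBirthProcess b P T Y) (hb : Nice b ϱ)
    (hrefl : ∀ x η, b (-x) (η.image (fun z => -z)) = b x η) {κ s : ℝ} (hκ : |κ| ≤ 1)
    (hs : 0 < s) (hgen : ∀ η : Finset ℝ, η.Nonempty → Gen b (fk κ) η = s) {r : ℝ} (hr : 0 < r) :
    ∀ᵐ ω ∂P, Shape r s T Y ω := by
  filter_upwards [ae_halfShape hP hb hκ hs hgen hr,
    ae_halfShape (hP.neg hrefl) hb hκ hs hgen hr] with ω h1 h2
  exact shape_of_halves hs hr h1 h2

end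

section det
variable {Ω : Type} {T Y : ℕ → Ω → ℝ} {ω : Ω}

lemma tendsto_mx_of_shape {r s : ℝ} (hr : 0 < r) (hs : 0 < s) (hshape : Shape r s T Y ω)
    (hT : Tendsto (fun n => T n ω) atTop atTop) (hlt : ∀ n, T n ω < T (n+1) ω) :
    Tendsto (fun n => mx (confAt Y n ω) / T n ω) atTop (𝓝 s) := by
  rw [Metric.tendsto_atTop]
  intro e he
  set ε := min (1/2) (e / (4 * s)) with hε
  have hε0 : 0 < ε := lt_min (by norm_num) (by positivity)
  have hε1 : ε < 1 := lt_of_le_of_lt (min_le_left _ _) (by norm_num)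
  have hε2 : ε * s ≤ e / 4 := by
    have h1 : ε ≤ e / (4 * s) := min_le_right _ _
    calc ε * s ≤ e / (4 * s) * s := by gcongr
      _ = e / 4 := by field_simp
  obtain ⟨t₀, ht₀⟩ := hshape ε hε0 hε1
  have h1 := (hT.eventually_ge_atTop (max t₀ (max 1 (4 * r / e)))).exists_forall_of_atTop
  obtain ⟨N, hN⟩ := h1
  refine ⟨N, fun n hn => ?_⟩
  have h2 := hN n hn
  have h3 : t₀ ≤ T n ω := (le_max_left _ _).trans h2
  have h4 : 1 ≤ T n ω := (le_max_left _ _).trans ((le_max_right _ _).trans h2)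
  have h5 : 4 * r / e ≤ T n ω := (le_max_right _ _).trans ((le_max_right _ _).trans h2)
  have hTp : 0 < T n ω := by linarith
  obtain ⟨h6, h7⟩ := ht₀ (T n ω) h3 n le_rfl (hlt n)
  have ht := top_mx (confAt_nonempty (Y := Y) (ω := ω) n)
  have h8 : mx (confAt Y n ω) ≤ (1 + ε) * s * T n ω := by
    have := h7 (mx (confAt Y n ω)) ⟨mx (confAt Y n ω), ht.mem, by simp [hr.le]⟩
    exact (le_abs_self _).trans this
  have h9 : (1 - ε) * s * T n ω - r ≤ mx (confAt Y n ω) := by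
    have h10 : 0 ≤ (1 - ε) * s * T n ω := by
      have : 0 < 1 - ε := by linarith
      positivity
    obtain ⟨x, hx, hx2⟩ := h6 ((1 - ε) * s * T n ω) (by rw [abs_of_nonneg h10])
    have := ht.le x hx
    rw [abs_le] at hx2
    linarith
  rw [Real.dist_eq, abs_lt]
  have h11 : r ≤ e / 4 * T n ω := by
    rw [div_le_iff₀ he] at h5
    linarith
  constructor
  · rw [lt_sub_iff_add_lt, lt_div_iff₀ hTp]
    nlinarith
  · rw [sub_lt_iff_lt_add, div_lt_iff₀ hTp]
    nlinarith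

end det

end Pool.Agent.Work.MPe8003b
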