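import Pool.Agent.Work.MP_e8003b_pr.GenC
import Pool.Agent.Work.MP_e8003b_pr.ShapeThm
import Pool.Agent.Work.MP_e8003b_pr.Exist

open MeasureTheory ProbabilityTheory Set Filter Topology
open scoped ENNReal

namespace Pool.Agent.Work.MPe8003b

variable {b : ℝ → Finset ℝ → ℝ} {ϱ : ℝ}

lemma Nice.admissible (hb : Nice b ϱ) (mono : ∀ x η ζ, η ⊆ ζ → b x η ≤ b x ζ)
    (transl : ∀ x y η, b (x + y) (η.image (fun z => z + y)) = b x η)
    (refl : ∀ x η, b (-x) (η.image (fun z => -z)) = b x η) : Admissible b := by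
  have hϱ := hb.one_le
  refine ⟨hb.nonneg, hb.meas, ?_, mono, transl, refl, 1, ϱ, by norm_num, by linarith,
    hb.low⟩
  refine ⟨(Icc (-3) 3).indicator (fun _ : ℝ => (2:ℝ)), 1, one_pos,
    measurable_const.indicator measurableSet_Icc, fun x => indicator_nonneg (fun _ _ => by norm_num) _,
    ?_, ?_⟩
  · have h1 : (fun x : ℝ => Real.exp (1 * |x|) * (Icc (-3) 3).indicator (fun _ : ℝ => (2:ℝ)) x) =
        (Icc (-3) 3).indicator (fun x : ℝ => Real.exp (1 * |x|) * 2) := by
      ext x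
      by_cases hx : x ∈ Icc (-3 : ℝ) 3
      · rw [indicator_of_mem hx, indicator_of_mem hx]
      · rw [indicator_of_notMem hx, indicator_of_notMem hx, mul_zero]
    rw [h1, integrable_indicator_iff measurableSet_Icc]
    apply Continuous.integrableOn_Icc
    fun_prop
  · intro x η
    refine (hb.le_sum x η).trans (le_of_eq ?_)
    apply Finset.sum_congr rfl
    intro y _
    by_cases hx : x ∈ Icc (y - 3) (y + 3)
    · have hx' : x - y ∈ Icc (-3 : ℝ) 3 := ⟨by linarith [hx.1], by linarith [hx.2]⟩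
      rw [indicator_of_mem hx, indicator_of_mem hx']
    · have hx' : x - y ∉ Icc (-3 : ℝ) 3 := by
        intro h; exact hx ⟨by linarith [h.1], by linarith [h.2]⟩
      rw [indicator_of_notMem hx, indicator_of_notMem hx']

/-- the speed is determined by the generator of the front observable -/
lemma Nice.isSpeed_iff (hb : Nice b ϱ)
    (hrefl : ∀ x η, b (-x) (η.image (fun z => -z)) = b x η) {κ s : ℝ} (hκ : |κ| ≤ 1)
    (hs : 0 < s) (hgen : ∀ η : Finset ℝ, η.Nonempty → Gen b (fk κ) η = s) (s' : ℝ) :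
    IsSpeed b s' ↔ s' = s := by
  constructor
  · rintro ⟨hs', ⟨Ω, mΩ, P, T, Y, hP⟩, h⟩
    have := hP.prob
    have hϱ := hb.one_le
    have h1 := h 1 ϱ one_pos (by linarith) hb.low Ω P T Y hP
    have hae : ∀ᵐ ω ∂P, s' = s := by
      filter_upwards [h1, ae_front hP hb hκ hgen, hP.T_tendsto hb.good,
        hP.ae_lt hb.meas] with ω a1 a2 a3 a4
      exact tendsto_nhds_unique (tendsto_mx_of_shape (by linarith) hs' a1 a3 a4) a2
    exact hae.exists.choose_spec
  · rintro rfl
    refine ⟨hs, exists_process hb.good, ?_⟩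
    intro c r _ hr _ Ω _ P T Y hP
    exact ae_shape hP hb hrefl hκ hs hgen hr

lemma P1_transl (ρ x y : ℝ) (η : Finset ℝ) :
    P1 ρ (x + y) (η.image (fun z => z + y)) ↔ P1 ρ x η := by
  unfold P1
  simp only [Finset.mem_image, exists_exists_and_eq_and, add_sub_add_right_eq_sub]

lemma P2_transl (x y : ℝ) (η : Finset ℝ) :
    P2 (x + y) (η.image (fun z => z + y)) ↔ P2 x η := by
  unfold P2
  simp only [Finset.mem_image, exists_exists_and_eq_and, add_sub_add_right_eq_sub, ne_eq,
    add_left_inj]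

lemma abs_neg_sub_neg' (x y : ℝ) : |-x - -y| = |x - y| := by
  rw [show -x - -y = -(x - y) by ring, abs_neg]

lemma P1_refl (ρ x : ℝ) (η : Finset ℝ) :
    P1 ρ (-x) (η.image (fun z => -z)) ↔ P1 ρ x η := by
  unfold P1
  simp only [Finset.mem_image, exists_exists_and_eq_and, abs_neg_sub_neg']

lemma P2_refl (x : ℝ) (η : Finset ℝ) :
    P2 (-x) (η.image (fun z => -z)) ↔ P2 x η := by
  unfold P2
  simp only [Finset.mem_image, exists_exists_and_eq_and, abs_neg_sub_neg', ne_eq, neg_inj]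

lemma rateA_mono (x : ℝ) (η ζ : Finset ℝ) (h : η ⊆ ζ) : rateA x η ≤ rateA x ζ := by
  by_cases h1 : P1 1 x η ∨ P2 x η
  · rw [rateA_one h1, rateA_one (h1.imp (fun h2 => h2.mono le_rfl h) (fun h2 => h2.mono h))]
  · rw [rateA_zero h1]
    exact rateA_nonneg _ _

lemma rateB_mono (x : ℝ) (η ζ : Finset ℝ) (h : η ⊆ ζ) : rateB x η ≤ rateB x ζ := by
  by_cases h1 : P1 3 x η
  · rw [rateB_one h1, rateB_one (h1.mono le_rfl h)]
  · rw [rateB_zero h1]
    exact rateB_nonneg _ _

lemma rateA_congr {x x' : ℝ} {η η' : Finset ℝ} (h2 : P2 x η ↔ P2 x' η')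
    (h1 : P1 1 x η ↔ P1 1 x' η') : rateA x η = rateA x' η' := by
  by_cases c : P1 1 x η ∨ P2 x η
  · rw [rateA_one c, rateA_one (c.imp h1.mp h2.mp)]
  · rw [rateA_zero c, rateA_zero (fun h => c (h.imp h1.mpr h2.mpr))]

lemma rateB_congr {x x' : ℝ} {η η' : Finset ℝ} (h1 : P1 3 x η ↔ P1 3 x' η') :
    rateB x η = rateB x' η' := by
  by_cases c1 : P1 3 x η
  · rw [rateB_one c1, rateB_one (h1.mp c1)]
  · rw [rateB_zero c1, rateB_zero (fun h => c1 (h1.mpr h))]

lemma rateA_transl (x y : ℝ) (η : Finset ℝ) :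
    rateA (x + y) (η.image (fun z => z + y)) = rateA x η :=
  rateA_congr (P2_transl x y η) (P1_transl 1 x y η)

lemma rateB_transl (x y : ℝ) (η : Finset ℝ) :
    rateB (x + y) (η.image (fun z => z + y)) = rateB x η := rateB_congr (P1_transl 3 x y η)

lemma rateA_refl (x : ℝ) (η : Finset ℝ) : rateA (-x) (η.image (fun z => -z)) = rateA x η :=
  rateA_congr (P2_refl x η) (P1_refl 1 x η)

lemma rateB_refl (x : ℝ) (η : Finset ℝ) : rateB (-x) (η.image (fun z => -z)) = rateB x η :=
  rateB_congr (P1_refl 3 x η)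

lemma rateAB_refl (x : ℝ) (η : Finset ℝ) : rateAB (-x) (η.image (fun z => -z)) = rateAB x η := by
  unfold rateAB
  rw [rateA_refl, rateB_refl]

lemma admissible_A : Admissible rateA := niceA.admissible rateA_mono rateA_transl rateA_refl

lemma admissible_B : Admissible rateB := niceB.admissible rateB_mono rateB_transl rateB_refl

lemma admissible_AB : Admissible rateAB := by
  apply niceAB.admissible
  · intro x η ζ h
    exact add_le_add (rateA_mono x η ζ h) (rateB_mono x η ζ h)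
  · intro x y η
    unfold rateAB
    rw [rateA_transl, rateB_transl]
  · exact rateAB_refl

lemma speed_A (s : ℝ) : IsSpeed rateA s ↔ s = 3 / 2 :=
  niceA.isSpeed_iff rateA_refl (κ := 1 / 2) (by rw [abs_of_pos] <;> norm_num) (by norm_num)
    (fun _ h => gen_A h) s

lemma speed_B (s : ℝ) : IsSpeed rateB s ↔ s = 9 / 2 :=
  niceB.isSpeed_iff rateB_refl (κ := 0) (by simp) (by norm_num) (fun _ h => gen_B h) s

lemma speed_AB (s : ℝ) : IsSpeed rateAB s ↔ s = 41 / 7 :=
  niceAB.isSpeed_iff rateAB_refl (κ := 3 / 14) (by rw [abs_of_pos] <;> norm_num) (by norm_num)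
    (fun _ h => gen_AB h) s

end Pool.Agent.Work.MPe8003b
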