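import Pool.Agent.Work.MP_e8003b_pr.Moments

open MeasureTheory ProbabilityTheory Set Filter Topology
open scoped ENNReal

namespace Pool.Agent.Work.MPe8003b

variable {b : ℝ → Finset ℝ → ℝ} {q₀ A : ℝ}

/-- increment of `f` when adding a particle at `x` -/
noncomputable def D (f : Finset ℝ → ℝ) (η : Finset ℝ) (x : ℝ) : ℝ := f (insert x η) - f η

/-- generator -/
noncomputable def Gen (b : ℝ → Finset ℝ → ℝ) (f : Finset ℝ → ℝ) (η : Finset ℝ) : ℝ :=
  ∫ x, D f η x * b x η

/-- observables with uniformly bounded second moment of jumps -/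
structure GoodFun (b : ℝ → Finset ℝ → ℝ) (f : Finset ℝ → ℝ) (C : ℝ) : Prop where
  meas : MeasConf f
  integ : ∀ η : Finset ℝ, η.Nonempty → Integrable (fun x => (D f η x) ^ 2 * b x η)
  le : ∀ η : Finset ℝ, η.Nonempty → ∫ x, (D f η x) ^ 2 * b x η ≤ C

lemma conf_snoc {n : ℕ} (y : Fin n → ℝ) (x : ℝ) :
    conf (Fin.snoc y x : Fin (n+1) → ℝ) = insert x (conf y) := by
  ext z
  simp only [conf, Finset.mem_image, Finset.mem_univ, true_and, Finset.mem_insert]
  rw [Fin.exists_fin_succ']
  simp only [Fin.snoc_castSucc, Fin.snoc_last]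
  tauto

lemma confAt_succ {Ω : Type} {Y : ℕ → Ω → ℝ} (n : ℕ) (ω : Ω) :
    confAt Y (n+1) ω = insert (Y (n+1) ω) (confAt Y n ω) := by
  unfold confAt
  rw [← conf_snoc]
  congr 1
  ext k
  refine Fin.lastCases ?_ (fun i => ?_) k
  · simp
  · simp

lemma measurable_snoc {n : ℕ} :
    Measurable (fun p : (Fin n → ℝ) × ℝ => (Fin.snoc p.1 p.2 : Fin (n+1) → ℝ)) := by
  apply measurable_pi_lambda
  intro k
  refine Fin.lastCases ?_ (fun i => ?_) k
  · simp only [Fin.snoc_last]; exact measurable_snd
  · simp only [Fin.snoc_castSucc]; fun_prop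

lemma measurable_D {f : Finset ℝ → ℝ} (hf : MeasConf f) (n : ℕ) :
    Measurable (fun p : (Fin n → ℝ) × ℝ => D f (conf p.1) p.2) := by
  unfold D
  apply Measurable.sub
  · have h := (hf (n+1)).comp (measurable_snoc (n := n))
    have h2 : (fun p : (Fin n → ℝ) × ℝ => f (insert p.2 (conf p.1))) =
        (fun y : Fin (n+1) → ℝ => f (conf y)) ∘
          (fun p : (Fin n → ℝ) × ℝ => (Fin.snoc p.1 p.2 : Fin (n+1) → ℝ)) := by
      ext p
      simp only [Function.comp_apply]
      rw [conf_snoc]
    rw [h2]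
    exact h
  · exact (hf n).comp measurable_fst

lemma measConf_Gen (hb : MeasRate b) {f : Finset ℝ → ℝ} (hf : MeasConf f) : MeasConf (Gen b f) := by
  intro n
  have h1 : Measurable (fun p : (Fin n → ℝ) × ℝ => D f (conf p.1) p.2 * b p.2 (conf p.1)) :=
    (measurable_D hf n).mul ((hb n).comp (measurable_snd.prodMk measurable_fst))
  exact (h1.stronglyMeasurable.integral_prod_right (ν := volume)).measurable

/-- the compensated jump -/
noncomputable def aG (b : ℝ → Finset ℝ → ℝ) (f : Finset ℝ → ℝ) {n : ℕ}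
    (p : (Fin (n+1) → ℝ × ℝ) × (ℝ × ℝ)) : ℝ :=
  D f (conf (pos p.1)) p.2.2 - p.2.1 * Gen b f (conf (pos p.1))

lemma measurable_aG (hb : MeasRate b) {f : Finset ℝ → ℝ} (hf : MeasConf f) (n : ℕ) :
    Measurable (aG b f (n := n)) := by
  unfold aG
  apply Measurable.sub
  · exact (measurable_D hf _).comp
      ((measurable_pos.comp measurable_fst).prodMk (measurable_snd.comp measurable_snd))
  · apply Measurable.mul
    · exact measurable_fst.comp measurable_snd
    · exact (measConf_Gen hb hf _).comp (measurable_pos.comp measurable_fst)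

section wait
variable (gb : GoodRate b q₀ A) {f : Finset ℝ → ℝ} {C : ℝ} (gf : GoodFun b f C)
include gb

omit gb in
lemma GoodFun.aestrongly (gf : GoodFun b f C) (hb : MeasRate b) {n : ℕ} (y : Fin n → ℝ) :
    AEStronglyMeasurable (fun x => D f (conf y) x * b x (conf y)) volume := by
  apply Measurable.aestronglyMeasurable
  apply Measurable.mul
  · exact (measurable_D gf.meas n).comp measurable_prodMk_left
  · exact (hb n).comp (measurable_id.prodMk measurable_const)

include gf in
lemma GoodRate.integrable_D {n : ℕ} (y : Fin (n+1) → ℝ) :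
    Integrable (fun x => D f (conf y) x * b x (conf y)) := by
  have h1 := (gf.integ _ (conf_nonempty y)).add (gb.integ (conf y))
  refine h1.mono' (gf.aestrongly gb.meas y) ?_
  filter_upwards with x
  simp only [Pi.add_apply]
  rw [norm_mul, Real.norm_eq_abs, Real.norm_eq_abs, abs_of_nonneg (gb.nonneg x _)]
  have h2 : |D f (conf y) x| ≤ (D f (conf y) x) ^ 2 + 1 := by
    rw [← sq_abs]
    nlinarith [sq_nonneg (|D f (conf y) x| - 1), abs_nonneg (D f (conf y) x)]
  nlinarith [gb.nonneg x (conf y)]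

variable {n : ℕ} (h : Fin (n+1) → ℝ × ℝ)

lemma GoodRate.integral_fst : ∫ z, z.1 ∂(waitK b n h) = 1 / totalRate b (conf (pos h)) := by
  have hq := gb.q_pos (conf_nonempty (pos h))
  have h1 := gb.integral_waitK_mul h (fun τ => τ) (fun _ => 1)
  simp only [mul_one, one_mul] at h1
  rw [h1, intexp1 hq]
  change 1 / totalRate b (conf (pos h)) ^ 2 * totalRate b (conf (pos h)) = _
  field_simp

lemma GoodRate.integral_fst_sq :
    ∫ z, z.1 ^ 2 ∂(waitK b n h) = 2 / totalRate b (conf (pos h)) ^ 2 := by
  have hq := gb.q_pos (conf_nonempty (pos h))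
  have h1 := gb.integral_waitK_mul h (fun τ => τ ^ 2) (fun _ => 1)
  simp only [mul_one, one_mul] at h1
  rw [h1, intexp2 hq]
  change 2 / totalRate b (conf (pos h)) ^ 3 * totalRate b (conf (pos h)) = _
  field_simp

lemma GoodRate.integrable_fst_pow (k : ℕ) : Integrable (fun z => z.1 ^ k) (waitK b n h) := by
  have hq := gb.q_pos (conf_nonempty (pos h))
  have h1 := gb.integrable_waitK_mul h (ψ := fun τ => τ ^ k) (φ := fun _ => 1) (iexpn hq k)
    (by simpa using gb.integ (conf (pos h)))
  simpa using h1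

lemma GoodRate.integrable_fst : Integrable (fun z => z.1) (waitK b n h) := by
  simpa using gb.integrable_fst_pow h 1

lemma GoodRate.integral_snd (φ : ℝ → ℝ) : ∫ z, φ z.2 ∂(waitK b n h) =
    (∫ x, φ x * b x (conf (pos h))) / totalRate b (conf (pos h)) := by
  have hq := gb.q_pos (conf_nonempty (pos h))
  have h1 := gb.integral_waitK_mul h (fun _ => 1) φ
  simp only [one_mul] at h1
  rw [h1, intexp0 hq]
  ring

lemma GoodRate.integrable_snd {φ : ℝ → ℝ} (hφ : Integrable (fun x => φ x * b x (conf (pos h)))) :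
    Integrable (fun z => φ z.2) (waitK b n h) := by
  have hq := gb.q_pos (conf_nonempty (pos h))
  have h1 := gb.integrable_waitK_mul h (ψ := fun _ => 1) (φ := φ) (iexp0 hq) hφ
  simpa using h1

include gf

lemma GoodRate.integral_aG : ∫ z, aG b f (h, z) ∂(waitK b n h) = 0 := by
  have hq := gb.q_pos (conf_nonempty (pos h))
  unfold aG
  simp only
  rw [integral_sub, gb.integral_snd h (fun x => D f (conf (pos h)) x), integral_mul_const,
    gb.integral_fst h]
  · unfold Gen
    ring
  · exact gb.integrable_snd h (gb.integrable_D gf (pos h))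
  · exact (gb.integrable_fst h).mul_const _

lemma GoodRate.integrable_aG : Integrable (fun z => aG b f (h, z)) (waitK b n h) := by
  have h1 : Integrable (fun z : ℝ × ℝ => z.1 * Gen b f (conf (pos h))) (waitK b n h) :=
    (gb.integrable_fst h).mul_const _
  exact (gb.integrable_snd h (gb.integrable_D gf (pos h))).sub h1

omit gb gf in
lemma aG_sq_eq : (fun z => (aG b f (h, z)) ^ 2) = fun z =>
    (D f (conf (pos h)) z.2) ^ 2 - 2 * Gen b f (conf (pos h)) * (z.1 * D f (conf (pos h)) z.2)
      + (Gen b f (conf (pos h))) ^ 2 * z.1 ^ 2 := by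
  ext z
  unfold aG
  ring

lemma GoodRate.integrable_aG_sq : Integrable (fun z => (aG b f (h, z)) ^ 2) (waitK b n h) := by
  have hq := gb.q_pos (conf_nonempty (pos h))
  rw [aG_sq_eq h]
  refine Integrable.add (Integrable.sub ?_ ?_) ?_
  · exact gb.integrable_snd h (φ := fun x => (D f (conf (pos h)) x) ^ 2)
      (gf.integ _ (conf_nonempty _))
  · apply Integrable.const_mul
    exact gb.integrable_waitK_mul h (ψ := fun τ => τ) (φ := fun x => D f (conf (pos h)) x)
      (by simpa using iexpn hq 1) (gb.integrable_D gf (pos h))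
  · exact (gb.integrable_fst_pow h 2).const_mul _

lemma GoodRate.integral_aG_sq : ∫ z, (aG b f (h, z)) ^ 2 ∂(waitK b n h) ≤
    C / totalRate b (conf (pos h)) := by
  have hq := gb.q_pos (conf_nonempty (pos h))
  have i1 : Integrable (fun z : ℝ × ℝ => (D f (conf (pos h)) z.2) ^ 2) (waitK b n h) :=
    gb.integrable_snd h (φ := fun x => (D f (conf (pos h)) x) ^ 2) (gf.integ _ (conf_nonempty _))
  have i2 : Integrable (fun z : ℝ × ℝ => 2 * Gen b f (conf (pos h)) *
      (z.1 * D f (conf (pos h)) z.2)) (waitK b n h) := by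
    apply Integrable.const_mul
    exact gb.integrable_waitK_mul h (ψ := fun τ => τ) (φ := fun x => D f (conf (pos h)) x)
      (by simpa using iexpn hq 1) (gb.integrable_D gf (pos h))
  have i3 : Integrable (fun z : ℝ × ℝ => (Gen b f (conf (pos h))) ^ 2 * z.1 ^ 2) (waitK b n h) :=
    (gb.integrable_fst_pow h 2).const_mul _
  have e1 := integral_add (f := fun z : ℝ × ℝ => (D f (conf (pos h)) z.2) ^ 2 -
    2 * Gen b f (conf (pos h)) * (z.1 * D f (conf (pos h)) z.2)) (i1.sub i2) i3
  rw [aG_sq_eq h, e1, integral_sub i1 i2,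
    gb.integral_snd h (fun x => (D f (conf (pos h)) x) ^ 2), integral_const_mul,
    gb.integral_waitK_mul h (fun τ => τ) (fun x => D f (conf (pos h)) x), integral_const_mul,
    gb.integral_fst_sq h, intexp1 hq]
  have h3 : ∫ x, D f (conf (pos h)) x * b x (conf (pos h)) = Gen b f (conf (pos h)) := rfl
  rw [h3]
  have h4 := gf.le _ (conf_nonempty (pos h))
  have h5 : (∫ x, (D f (conf (pos h)) x) ^ 2 * b x (conf (pos h))) / totalRate b (conf (pos h)) ≤
      C / totalRate b (conf (pos h)) := by
    gcongr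
  refine le_trans (le_of_eq ?_) h5
  ring

end wait

end Pool.Agent.Work.MPe8003b
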