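import Mathlib

/-!
# MP_e8003b_pr: definitions

Birth processes on finite subsets of `ℝ = ℝ^1` (dimension `d = 1`).
-/

open MeasureTheory Set Filter Topology
open scoped ENNReal

namespace Pool.Agent.Work.MPe8003b

/-- The finite configuration consisting of the points `y 0, …, y (n-1)`. -/
noncomputable def conf {n : ℕ} (y : Fin n → ℝ) : Finset ℝ := Finset.univ.image y

/-- `b x η ≥ c` whenever some particle of `η` is within distance `r` of `x`. -/
def LowerBound (b : ℝ → Finset ℝ → ℝ) (c r : ℝ) : Prop :=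
  ∀ x η, (∃ y ∈ η, |x - y| ≤ r) → c ≤ b x η

/-- Admissible birth rates on `ℝ` (conditions (A1)-(A4) of the problem, `d = 1`). Measurability of
`b` on `ℝ × Γ₀` means that `(x, y₁, …, yₙ) ↦ b x {y₁, …, yₙ}` is Borel for every `n`. Besides
translations (and the trivial group `SO(1)`) we even require invariance under the reflection. -/
structure Admissible (b : ℝ → Finset ℝ → ℝ) : Prop where
  nonneg : ∀ x η, 0 ≤ b x η
  meas : ∀ n, Measurable (fun p : ℝ × (Fin n → ℝ) => b p.1 (conf p.2))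
  bound : ∃ a : ℝ → ℝ, ∃ θ : ℝ, 0 < θ ∧ Measurable a ∧ (∀ x, 0 ≤ a x) ∧
    Integrable (fun x => Real.exp (θ * |x|) * a x) ∧ ∀ x η, b x η ≤ ∑ y ∈ η, a (x - y)
  mono : ∀ x η ζ, η ⊆ ζ → b x η ≤ b x ζ
  transl : ∀ x y η, b (x + y) (η.image (fun z => z + y)) = b x η
  refl : ∀ x η, b (-x) (η.image (fun z => -z)) = b x η
  lower : ∃ c r : ℝ, 0 < c ∧ 0 < r ∧ LowerBound b c r

/-- Total birth rate from the configuration `η`. -/
noncomputable def totalRate (b : ℝ → Finset ℝ → ℝ) (η : Finset ℝ) : ℝ := ∫ x, b x η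

/-- The configuration after `n` births: `Y 0` is the initial particle, `Y k` the `k`-th one born. -/
noncomputable def confAt {Ω : Type} (Y : ℕ → Ω → ℝ) (n : ℕ) (ω : Ω) : Finset ℝ :=
  conf (fun k : Fin (n + 1) => Y k ω)

/-- The birth process with rate `b` started from `{0}`, given by its birth times
`0 = T 0 < T 1 < …` and birth places `Y 1, Y 2, …` (`Y 0 = 0` is the initial particle).
Given the history up to the `n`-th birth, the pair (waiting time, birth place) of the next birth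
has density `exp (-q τ) b x η` on `(0,∞) × ℝ`, where `η` is the present configuration and
`q = ∫ b x η dx` (exponential waiting time of rate `q`, independent birth place with density
`b x η / q`). -/
structure IsBirthProcess (b : ℝ → Finset ℝ → ℝ) {Ω : Type} [MeasurableSpace Ω] (P : Measure Ω)
    (T Y : ℕ → Ω → ℝ) : Prop where
  prob : IsProbabilityMeasure P
  measT : ∀ n, Measurable (T n)
  measY : ∀ n, Measurable (Y n)
  initT : ∀ ω, T 0 ω = 0
  initY : ∀ ω, Y 0 ω = 0
  step : ∀ n, ∀ G : (Fin (n + 1) → ℝ × ℝ) × (ℝ × ℝ) → ℝ≥0∞, Measurable G →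
    ∫⁻ ω, G (fun k => (T k ω, Y k ω), (T (n + 1) ω, Y (n + 1) ω)) ∂P =
    ∫⁻ ω, (∫⁻ τ in Ioi (0 : ℝ), ∫⁻ x : ℝ, G (fun k => (T k ω, Y k ω), (T n ω + τ, x)) *
      ENNReal.ofReal (Real.exp (-totalRate b (confAt Y n ω) * τ) * b x (confAt Y n ω))) ∂P

/-- The conclusion of the shape theorem with limiting interval `[-s, s]`, for the union `ξ_t` of
the closed balls of radius `r` around the particles alive at time `t`:
`(1-ε)[-s,s] ⊆ ξ_t / t ⊆ (1+ε)[-s,s]` for all large `t`. -/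
def Shape (r s : ℝ) {Ω : Type} (T Y : ℕ → Ω → ℝ) (ω : Ω) : Prop :=
  ∀ ε : ℝ, 0 < ε → ε < 1 → ∃ t₀ : ℝ, ∀ t : ℝ, t₀ ≤ t → ∀ n : ℕ, T n ω ≤ t → t < T (n + 1) ω →
    (∀ z : ℝ, |z| ≤ (1 - ε) * s * t → ∃ x ∈ confAt Y n ω, |z - x| ≤ r) ∧
    (∀ z : ℝ, (∃ x ∈ confAt Y n ω, |z - x| ≤ r) → |z| ≤ (1 + ε) * s * t)

/-- `s` is the speed of propagation of the birth rate `b`: birth processes with rate `b` exist, and
for each of them, and each radius `r` as in condition (A4), the shape theorem holds almost surely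
with `[-s, s]`. -/
def IsSpeed (b : ℝ → Finset ℝ → ℝ) (s : ℝ) : Prop :=
  0 < s ∧
  (∃ (Ω : Type) (_ : MeasurableSpace Ω) (P : Measure Ω) (T Y : ℕ → Ω → ℝ),
    IsBirthProcess b P T Y) ∧
  ∀ c r : ℝ, 0 < c → 0 < r → LowerBound b c r →
    ∀ (Ω : Type) [MeasurableSpace Ω] (P : Measure Ω) (T Y : ℕ → Ω → ℝ),
      IsBirthProcess b P T Y → ∀ᵐ ω ∂P, Shape r s T Y ω

end Pool.Agent.Work.MPe8003b
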