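import Pool.Agent.Work.MP_e8003b_pr.Mart3

open MeasureTheory ProbabilityTheory Set Filter Topology
open scoped ENNReal

namespace Pool.Agent.Work.MPe8003b

variable {b : ℝ → Finset ℝ → ℝ} {q₀ A : ℝ}

lemma tendsto_zero_of_rec {u : ℕ → ℝ} {c : ℝ} (hc : 0 < c) (hu : ∀ n, 0 ≤ u n)
    (h : ∀ n : ℕ, u (n+1) ≤ (1 - c / (n+1)) * u n) : Tendsto u atTop (𝓝 0) := by
  have hanti : Antitone u := by
    apply antitone_nat_of_succ_le
    intro n
    have h1 := h n
    have h2 : 0 ≤ c / (n+1) * u n := mul_nonneg (by positivity) (hu n)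
    nlinarith
  have hbdd : BddBelow (range u) := ⟨0, by rintro _ ⟨n, rfl⟩; exact hu n⟩
  have ht := tendsto_atTop_ciInf hanti hbdd
  set L := ⨅ i, u i with hL
  have hLle : ∀ n, L ≤ u n := fun n => ciInf_le hbdd n
  have hL0 : 0 ≤ L := le_ciInf hu
  rcases hL0.eq_or_lt with h0 | h0
  · rw [← h0] at ht; exact ht
  · exfalso
    have h3 : ∀ n : ℕ, u n ≤ u 0 - c * L * ∑ i ∈ Finset.range n, (1 / ((i:ℝ) + 1)) := by
      intro n
      induction n with
      | zero => simp
      | succ n ih =>
        rw [Finset.sum_range_succ]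
        have h1 := h n
        have h4 : c / (n+1) * L ≤ c / (n+1) * u n :=
          mul_le_mul_of_nonneg_left (hLle n) (by positivity)
        have h5 : c / ((n:ℝ)+1) * L = c * L * (1 / ((n:ℝ)+1)) := by ring
        nlinarith
    have h6 := Real.tendsto_sum_range_one_div_nat_succ_atTop
    have h7 := (h6.eventually_gt_atTop (u 0 / (c * L))).exists
    obtain ⟨n, hn⟩ := h7
    have h8 := h3 n
    have h9 := hu n
    rw [div_lt_iff₀ (by positivity)] at hn
    nlinarith

section
variable {Ω : Type} [mΩ : MeasurableSpace Ω] {P : Measure Ω} {T Y : ℕ → Ω → ℝ}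
  (hP : IsBirthProcess b P T Y) (gb : GoodRate b q₀ A)
include hP gb

omit mΩ hP gb in
lemma card_conf_le {n : ℕ} (y : Fin n → ℝ) : (conf y).card ≤ n := by
  unfold conf
  exact Finset.card_image_le.trans (by simp)

omit hP in
lemma GoodRate.q_le (hA : 0 ≤ A) {n : ℕ} (y : Fin n → ℝ) : totalRate b (conf y) ≤ A * n := by
  refine (gb.hi _).trans ?_
  have : ((conf y).card : ℝ) ≤ n := by exact_mod_cast card_conf_le y
  gcongr

omit hP in
lemma GoodRate.A_pos : 0 < A := by
  have h1 := gb.lo {0} (by simp)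
  have h2 := gb.hi {0}
  have h3 := gb.q₀_pos
  simp at h2
  linarith

omit hP in
lemma GoodRate.integral_exp_neg {n : ℕ} (h : Fin (n+1) → ℝ × ℝ) :
    ∫ z, Real.exp (-z.1) ∂(waitK b n h) =
      totalRate b (conf (pos h)) / (totalRate b (conf (pos h)) + 1) := by
  have hq := gb.q_pos (conf_nonempty (pos h))
  have h1 := gb.integral_waitK_mul h (fun τ => Real.exp (-τ)) (fun _ => 1)
  simp only [mul_one, one_mul] at h1
  rw [h1]
  have h2 := intexp0 (q := totalRate b (conf (pos h)) + 1) (by linarith)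
  have h3 : ∀ τ : ℝ, Real.exp (-totalRate b (conf (pos h)) * τ) * Real.exp (-τ) =
      Real.exp (-(totalRate b (conf (pos h)) + 1) * τ) * 1 := by
    intro τ
    rw [mul_one, ← Real.exp_add]
    ring_nf
  simp only [h3]
  rw [h2]
  change 1 / (totalRate b (conf (pos h)) + 1) * totalRate b (conf (pos h)) = _
  ring

omit gb in
lemma IsBirthProcess.integrable_exp_T (hb : MeasRate b) (n : ℕ) :
    Integrable (fun ω => Real.exp (-T n ω)) P := by
  have := hP.prob
  refine Integrable.of_bound (Real.measurable_exp.comp (hP.measT n).neg).aestronglyMeasurable 1 ?_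
  filter_upwards [hP.ae_nonneg hb] with ω hω
  rw [Real.norm_eq_abs, abs_of_pos (Real.exp_pos _)]
  apply Real.exp_le_one_iff.mpr
  linarith [hω n]

lemma IsBirthProcess.exp_T_step (n : ℕ) :
    ∫ ω, Real.exp (-T (n+1) ω) ∂P ≤ (1 - (1 / (A+1)) / (n+1)) * ∫ ω, Real.exp (-T n ω) ∂P := by
  have := hP.prob
  have hA := gb.A_pos
  let G : (Fin (n+1) → ℝ × ℝ) × (ℝ × ℝ) → ℝ := fun p =>
    Real.exp (-(p.1 (Fin.last n)).1) * Real.exp (-p.2.1)
  have hG : Measurable G := by
    apply Measurable.mul
    · apply Real.measurable_exp.comp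
      fun_prop
    · apply Real.measurable_exp.comp
      fun_prop
  have e1 : ∀ ω, Real.exp (-T (n+1) ω) = G (hist T Y n ω, inc T Y n ω) := by
    intro ω
    simp only [G, hist, inc, Fin.val_last]
    rw [← Real.exp_add]
    ring_nf
  have hint : Integrable (fun ω => G (hist T Y n ω, inc T Y n ω)) P := by
    simp only [← e1]
    exact hP.integrable_exp_T gb.meas (n+1)
  simp only [e1]
  rw [hP.integral_inc gb.meas hG hint, ← integral_const_mul]
  apply integral_mono (hP.integrable_inner gb hG hint)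
    ((hP.integrable_exp_T gb.meas n).const_mul _)
  intro ω
  simp only [G]
  rw [integral_const_mul, gb.integral_exp_neg]
  have e2 : (hist T Y n ω (Fin.last n)).1 = T n ω := by simp [hist]
  rw [e2, mul_comm]
  apply mul_le_mul_of_nonneg_right _ (Real.exp_pos _).le
  have hq := gb.q_pos (conf_nonempty (pos (hist T Y n ω)))
  have hq2 := gb.q_le hA.le (pos (hist T Y n ω))
  set q := totalRate b (conf (pos (hist T Y n ω)))
  push_cast at hq2
  have hn : (0:ℝ) ≤ n := Nat.cast_nonneg n
  have e3 : q / (q + 1) = 1 - 1 / (q + 1) := by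
    field_simp
    ring
  rw [e3]
  have h4 : 1 / (A + 1) / (n + 1) ≤ 1 / (q + 1) := by
    rw [div_div]
    apply one_div_le_one_div_of_le (by linarith)
    nlinarith
  linarith

lemma IsBirthProcess.exp_T_tendsto :
    Tendsto (fun n => ∫ ω, Real.exp (-T n ω) ∂P) atTop (𝓝 0) := by
  have hA := gb.A_pos
  apply tendsto_zero_of_rec (c := 1 / (A+1)) (by positivity)
  · intro n
    exact integral_nonneg fun ω => (Real.exp_pos _).le
  · exact hP.exp_T_step gb

lemma IsBirthProcess.T_tendsto : ∀ᵐ ω ∂P, Tendsto (fun n => T n ω) atTop atTop := by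
  have := hP.prob
  have h1 : ∀ m : ℕ, ∀ᵐ ω ∂P, ¬ (∀ n, T n ω ≤ m) := by
    intro m
    have h2 : P.real {ω | ∀ n, T n ω ≤ m} = 0 := by
      have h3 : ∀ n, Real.exp (-m) * P.real {ω | ∀ n, T n ω ≤ m} ≤
          ∫ ω, Real.exp (-T n ω) ∂P := by
        intro n
        have h4 := mul_meas_ge_le_integral_of_nonneg (μ := P)
          (f := fun ω => Real.exp (-T n ω)) (ae_of_all _ fun ω => (Real.exp_pos _).le)
          (hP.integrable_exp_T gb.meas n) (Real.exp (-m))
        refine le_trans ?_ h4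
        apply mul_le_mul_of_nonneg_left _ (Real.exp_pos _).le
        apply measureReal_mono _ (measure_ne_top _ _)
        intro ω hω
        have hω' : ∀ n, T n ω ≤ m := hω
        change Real.exp (-m) ≤ Real.exp (-T n ω)
        apply Real.exp_le_exp.mpr
        linarith [hω' n]
      have h5 := ge_of_tendsto' (hP.exp_T_tendsto gb) h3
      have h6 : 0 ≤ P.real {ω | ∀ n, T n ω ≤ m} := measureReal_nonneg
      have h7 := Real.exp_pos (-(m:ℝ))
      nlinarith
    have h8 : P {ω | ∀ n, T n ω ≤ m} = 0 := by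
      rw [measureReal_eq_zero_iff] at h2
      exact h2
    exact measure_eq_zero_iff_ae_notMem.mp h8
  rw [← ae_all_iff] at h1
  filter_upwards [h1, hP.ae_lt gb.meas] with ω h2 h3
  have hmono : Monotone (fun n => T n ω) := monotone_nat_of_le_succ fun n => (h3 n).le
  rcases tendsto_atTop_of_monotone hmono with h4 | ⟨l, h4⟩
  · exact h4
  · exfalso
    obtain ⟨m, hm⟩ := exists_nat_ge l
    exact h2 m fun n => (hmono.ge_of_tendsto h4 n).trans hm

end

end Pool.Agent.Work.MPe8003b
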