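import Pool.Agent.Work.MP_e8003b_pr.Cond

open MeasureTheory ProbabilityTheory Set Filter Topology
open scoped ENNReal

namespace Pool.Agent.Work.MPe8003b

variable {b : ℝ → Finset ℝ → ℝ} {q₀ A : ℝ}

section
variable {Ω : Type} [mΩ : MeasurableSpace Ω] {P : Measure Ω} {T Y : ℕ → Ω → ℝ}

/-- the filtration generated by the births -/
def Fil (hP : IsBirthProcess b P T Y) : Filtration ℕ mΩ where
  seq n := MeasurableSpace.comap (hist T Y n) inferInstance
  mono' := by
    intro i j hij
    have h1 : hist T Y i = (fun h : Fin (j+1) → ℝ × ℝ => fun k : Fin (i+1) =>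
        h (Fin.castLE (by omega) k)) ∘ hist T Y j := rfl
    have h2 : Measurable (fun h : Fin (j+1) → ℝ × ℝ => fun k : Fin (i+1) =>
        h (Fin.castLE (by omega) k)) := by fun_prop
    simp only
    rw [h1, ← MeasurableSpace.comap_comp]
    exact MeasurableSpace.comap_mono h2.comap_le
  le' := fun n => (hP.measurable_hist n).comap_le

variable (hP : IsBirthProcess b P T Y)

lemma measurable_hist_Fil {i j : ℕ} (hij : i ≤ j) : Measurable[Fil hP j] (hist T Y i) := by
  have h1 : Measurable[Fil hP i] (hist T Y i) := comap_measurable _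
  exact h1.mono ((Fil hP).mono hij) le_rfl

lemma measurable_T_Fil {i j : ℕ} (hij : i ≤ j) : Measurable[Fil hP j] (T i) := by
  have h1 : T i = (fun h : Fin (i+1) → ℝ × ℝ => (h (Fin.last i)).1) ∘ hist T Y i := by
    ext ω; simp [hist]
  have h2 : Measurable (fun h : Fin (i+1) → ℝ × ℝ => (h (Fin.last i)).1) := by fun_prop
  rw [h1]
  exact h2.comp (measurable_hist_Fil hP hij)

lemma measurable_Y_Fil {i j : ℕ} (hij : i ≤ j) : Measurable[Fil hP j] (Y i) := by
  have h1 : Y i = (fun h : Fin (i+1) → ℝ × ℝ => (h (Fin.last i)).2) ∘ hist T Y i := by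
    ext ω; simp [hist]
  have h2 : Measurable (fun h : Fin (i+1) → ℝ × ℝ => (h (Fin.last i)).2) := by fun_prop
  rw [h1]
  exact h2.comp (measurable_hist_Fil hP hij)

lemma measurable_inc_Fil {i j : ℕ} (hij : i < j) : Measurable[Fil hP j] (inc T Y i) := by
  unfold inc
  exact ((measurable_T_Fil hP hij).sub (measurable_T_Fil hP hij.le)).prodMk
    (measurable_Y_Fil hP hij)

lemma measurable_histinc_Fil {i j : ℕ} (hij : i < j) :
    Measurable[Fil hP j] (fun ω => (hist T Y i ω, inc T Y i ω)) :=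
  (measurable_hist_Fil hP hij.le).prodMk (measurable_inc_Fil hP hij)

include hP

lemma IsBirthProcess.measurable_histinc (n : ℕ) :
    Measurable (fun ω => (hist T Y n ω, inc T Y n ω)) :=
  (hP.measurable_hist n).prodMk (hP.measurable_inc n)

section cond
variable {n : ℕ} {G : (Fin (n+1) → ℝ × ℝ) × (ℝ × ℝ) → ℝ}

lemma IsBirthProcess.integral_inc (hb : MeasRate b) (hG : Measurable G)
    (hint : Integrable (fun ω => G (hist T Y n ω, inc T Y n ω)) P) :
    ∫ ω, G (hist T Y n ω, inc T Y n ω) ∂P =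
      ∫ ω, ∫ z, G (hist T Y n ω, z) ∂(waitK b n (hist T Y n ω)) ∂P := by
  have := hP.prob
  have hm := hP.measurable_histinc n
  have h1 : Integrable G (P.map (fun ω => (hist T Y n ω, inc T Y n ω))) :=
    (integrable_map_measure hG.aestronglyMeasurable hm.aemeasurable).mpr hint
  have h2 := integral_map hm.aemeasurable (f := G) hG.aestronglyMeasurable (μ := P)
  have h3 : IsProbabilityMeasure (P.map (hist T Y n)) :=
    Measure.isProbabilityMeasure_map (hP.measurable_hist n).aemeasurable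
  rw [← h2]
  rw [hP.map_inc hb n] at h1 ⊢
  rw [Measure.integral_compProd h1]
  rw [integral_map (hP.measurable_hist n).aemeasurable]
  exact (hG.stronglyMeasurable.integral_kernel_prod_right'
    (κ := waitK b n)).aestronglyMeasurable

lemma IsBirthProcess.condExp_inc (gb : GoodRate b q₀ A) (hG : Measurable G)
    (hint : Integrable (fun ω => G (hist T Y n ω, inc T Y n ω)) P) :
    P[fun ω => G (hist T Y n ω, inc T Y n ω) | Fil hP n] =ᵐ[P]
      fun ω => ∫ z, G (hist T Y n ω, z) ∂(waitK b n (hist T Y n ω)) := by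
  have := hP.prob
  have : IsMarkovKernel (waitK b n) := gb.isMarkov
  have h1 := condExp_prod_ae_eq_integral_condDistrib (μ := P) (hP.measurable_hist n)
    (hP.measurable_inc n).aemeasurable (f := G) hG.stronglyMeasurable hint
  have h2 := condDistrib_ae_eq_of_measure_eq_compProd_of_measurable (μ := P)
    (hP.measurable_hist n) (hP.measurable_inc n) (κ := waitK b n) (hP.map_inc gb.meas n)
  refine h1.trans ?_
  have h3 := ae_of_ae_map (hP.measurable_hist n).aemeasurable h2
  filter_upwards [h3] with ω hω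
  rw [hω]

lemma IsBirthProcess.integrable_inner (gb : GoodRate b q₀ A) (hG : Measurable G)
    (hint : Integrable (fun ω => G (hist T Y n ω, inc T Y n ω)) P) :
    Integrable (fun ω => ∫ z, G (hist T Y n ω, z) ∂(waitK b n (hist T Y n ω))) P :=
  integrable_condExp.congr (hP.condExp_inc gb hG hint)

lemma IsBirthProcess.ae_inc (hb : MeasRate b) {p : (Fin (n+1) → ℝ × ℝ) × (ℝ × ℝ) → Prop}
    (hp : MeasurableSet {x | p x})
    (h : ∀ᵐ ω ∂P, ∀ᵐ z ∂(waitK b n (hist T Y n ω)), p (hist T Y n ω, z)) :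
    ∀ᵐ ω ∂P, p (hist T Y n ω, inc T Y n ω) := by
  have := hP.prob
  have hm := hP.measurable_histinc n
  have h3 : IsProbabilityMeasure (P.map (hist T Y n)) :=
    Measure.isProbabilityMeasure_map (hP.measurable_hist n).aemeasurable
  have h4 : ∀ᵐ x ∂(P.map (fun ω => (hist T Y n ω, inc T Y n ω))), p x := by
    rw [hP.map_inc hb n, Measure.ae_compProd_iff hp]
    have h5 : MeasurableSet {h : Fin (n+1) → ℝ × ℝ | ∀ᵐ z ∂(waitK b n h), p (h, z)} := by
      have h6 : {h : Fin (n+1) → ℝ × ℝ | ∀ᵐ z ∂(waitK b n h), p (h, z)} =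
          {h | (waitK b n h) (Prod.mk h ⁻¹' {x | p x}ᶜ) = 0} := by
        ext h
        rfl
      rw [h6]
      exact (Kernel.measurable_kernel_prodMk_left hp.compl) (measurableSet_singleton 0)
    rw [ae_map_iff (hP.measurable_hist n).aemeasurable h5]
    exact h
  exact ae_of_ae_map hm.aemeasurable h4

end cond

end

lemma ae_waitK_iff (hb : MeasRate b) {n : ℕ} (h : Fin (n+1) → ℝ × ℝ) {p : ℝ × ℝ → Prop} :
    (∀ᵐ z ∂(waitK b n h), p z) ↔ ∀ᵐ z ∂base, dens b h z ≠ 0 → p z := by
  unfold waitK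
  rw [Kernel.withDensity_apply _ (measurable_dens hb _),
    ae_withDensity_iff (measurable_dens_right hb h)]
  rfl

lemma ae_base_fst : ∀ᵐ z ∂base, 0 < z.1 := by
  unfold base
  have h1 : ∀ᵐ τ ∂(volume.restrict (Ioi (0:ℝ))), 0 < τ := ae_restrict_mem measurableSet_Ioi
  exact Measure.quasiMeasurePreserving_fst.ae h1

lemma ae_base_snd {p : ℝ → Prop} (hp : ∀ᵐ x ∂(volume : Measure ℝ), p x) :
    ∀ᵐ z ∂base, p z.2 := by
  unfold base
  exact Measure.quasiMeasurePreserving_snd.ae hp

lemma ae_waitK_pos (hb : MeasRate b) {n : ℕ} (h : Fin (n+1) → ℝ × ℝ) :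
    ∀ᵐ z ∂(waitK b n h), 0 < z.1 := by
  rw [ae_waitK_iff hb]
  filter_upwards [ae_base_fst] with z hz _
  exact hz

lemma ae_waitK_snd (hb : MeasRate b) {n : ℕ} (h : Fin (n+1) → ℝ × ℝ) {p : ℝ → Prop}
    (hp : ∀ᵐ x ∂(volume : Measure ℝ), b x (conf (pos h)) ≠ 0 → p x) :
    ∀ᵐ z ∂(waitK b n h), p z.2 := by
  rw [ae_waitK_iff hb]
  filter_upwards [ae_base_snd hp] with z hz h1
  apply hz
  intro h2
  apply h1
  unfold dens
  rw [h2]
  simp

section
variable {Ω : Type} [mΩ : MeasurableSpace Ω] {P : Measure Ω} {T Y : ℕ → Ω → ℝ}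
  (hP : IsBirthProcess b P T Y)
include hP

lemma IsBirthProcess.ae_lt (hb : MeasRate b) : ∀ᵐ ω ∂P, ∀ n, T n ω < T (n+1) ω := by
  rw [ae_all_iff]
  intro n
  have h := hP.ae_inc (n := n) hb (p := fun x => 0 < x.2.1)
    (measurableSet_lt measurable_const (measurable_fst.comp measurable_snd))
    (ae_of_all _ fun ω => ae_waitK_pos hb _)
  filter_upwards [h] with ω hω
  simpa [inc] using hω

lemma IsBirthProcess.ae_nonneg (hb : MeasRate b) : ∀ᵐ ω ∂P, ∀ n, 0 ≤ T n ω := by
  filter_upwards [hP.ae_lt hb] with ω hω n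
  induction n with
  | zero => rw [hP.initT]
  | succ n ih => exact ih.trans (hω n).le

end

end Pool.Agent.Work.MPe8003b
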