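import Pool.Agent.Work.MP_e8003b_pr.NiceRate
import Pool.Agent.Work.MP_e8003b_pr.Mart1

open MeasureTheory ProbabilityTheory Set Filter Topology
open scoped ENNReal

namespace Pool.Agent.Work.MPe8003b

variable {b : ℝ → Finset ℝ → ℝ} {ϱ ρ : ℝ}

open Classical in
/-- indicator: `z` has a particle within `ϱ` but none within `ρ` -/
noncomputable def badI (ϱ ρ z : ℝ) (η : Finset ℝ) : ℝ := if P1 ϱ z η ∧ ¬ P1 ρ z η then 1 else 0

open Classical in
/-- indicator: `z` has no particle within `ρ` -/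
noncomputable def unI (ρ z : ℝ) (η : Finset ℝ) : ℝ := if P1 ρ z η then 0 else 1

lemma badI_nonneg (ϱ ρ z : ℝ) (η : Finset ℝ) : 0 ≤ badI ϱ ρ z η := by
  unfold badI; split_ifs <;> norm_num

lemma unI_nonneg (ρ z : ℝ) (η : Finset ℝ) : 0 ≤ unI ρ z η := by
  unfold unI; split_ifs <;> norm_num

lemma unI_le_one (ρ z : ℝ) (η : Finset ℝ) : unI ρ z η ≤ 1 := by
  unfold unI; split_ifs <;> norm_num

lemma unI_anti (ρ z : ℝ) {η ζ : Finset ℝ} (h : η ⊆ ζ) : unI ρ z ζ ≤ unI ρ z η := by
  unfold unI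
  by_cases h1 : P1 ρ z η
  · rw [if_pos h1, if_pos (h1.mono le_rfl h)]
  · rw [if_neg h1]; split_ifs <;> norm_num

lemma measurableSet_P1_left (ρ z : ℝ) (n : ℕ) :
    MeasurableSet {y : Fin n → ℝ | P1 ρ z (conf y)} :=
  (measurable_prodMk_left (x := z)) (measurableSet_P1 ρ n)

lemma measConf_badI (ϱ ρ z : ℝ) : MeasConf (badI ϱ ρ z) := by
  intro n
  unfold badI
  exact Measurable.ite ((measurableSet_P1_left ϱ z n).inter (measurableSet_P1_left ρ z n).compl)
    measurable_const measurable_const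

lemma measConf_unI (ρ z : ℝ) : MeasConf (unI ρ z) := by
  intro n
  unfold unI
  exact Measurable.ite (measurableSet_P1_left ρ z n) measurable_const measurable_const

lemma measurable_insert_of {f : Finset ℝ → ℝ} (hf : MeasConf f) (n : ℕ) :
    Measurable (fun p : (Fin n → ℝ) × ℝ => f (insert p.2 (conf p.1))) := by
  have h := (hf (n+1)).comp (measurable_snoc (n := n))
  have h2 : (fun p : (Fin n → ℝ) × ℝ => f (insert p.2 (conf p.1))) =
      (fun y : Fin (n+1) → ℝ => f (conf y)) ∘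
        (fun p : (Fin n → ℝ) × ℝ => (Fin.snoc p.1 p.2 : Fin (n+1) → ℝ)) := by
    ext p
    simp only [Function.comp_apply]
    rw [conf_snoc]
  rw [h2]
  exact h

lemma MeasConf.comp_hist {f : Finset ℝ → ℝ} (hf : MeasConf f) (n : ℕ) :
    Measurable (fun p : (Fin n → ℝ × ℝ) × (ℝ × ℝ) => f (conf (pos p.1))) := by
  have h1 : Measurable (fun p : (Fin n → ℝ × ℝ) × (ℝ × ℝ) => pos p.1) :=
    measurable_pos.comp measurable_fst
  exact Measurable.comp (g := fun y : Fin n → ℝ => f (conf y))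
    (f := fun p : (Fin n → ℝ × ℝ) × (ℝ × ℝ) => pos p.1) (hf n) h1

lemma MeasConf.insert_hist {f : Finset ℝ → ℝ} (hf : MeasConf f) (n : ℕ) :
    Measurable (fun p : (Fin n → ℝ × ℝ) × (ℝ × ℝ) => f (insert p.2.2 (conf (pos p.1)))) := by
  have h1 : Measurable (fun p : (Fin n → ℝ × ℝ) × (ℝ × ℝ) => (pos p.1, p.2.2)) :=
    (measurable_pos.comp measurable_fst).prodMk (measurable_snd.comp measurable_snd)
  exact Measurable.comp (g := fun p : (Fin n → ℝ) × ℝ => f (insert p.2 (conf p.1)))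
    (f := fun p : (Fin n → ℝ × ℝ) × (ℝ × ℝ) => (pos p.1, p.2.2)) (measurable_insert_of hf n) h1

section kernel
variable (hb : Nice b ϱ) (hρ : 0 < ρ) (hρ1 : ρ ≤ 1) (z : ℝ) {n : ℕ} (h : Fin (n+1) → ℝ × ℝ)
include hb hρ hρ1

omit hρ1 in
lemma Nice.half_interval (η : Finset ℝ) (h1 : P1 ϱ z η) (h2 : ¬ P1 ρ z η) :
    ∃ s : ℝ, z - ρ ≤ s ∧ s + ρ ≤ z + ρ ∧ ∀ x ∈ Icc s (s + ρ), 1 ≤ b x η := by
  obtain ⟨y, hy, hzy⟩ := h1
  have h3 : ρ < |z - y| := by
    by_contra h4
    exact h2 ⟨y, hy, by linarith⟩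
  rw [abs_le] at hzy
  have hϱ := hb.one_le
  rcases le_total y z with h5 | h5
  · rw [abs_of_nonneg (by linarith)] at h3
    refine ⟨z - ρ, le_rfl, by linarith, fun x hx => hb.low x η ⟨y, hy, ?_⟩⟩
    have := hx.1; have := hx.2
    rw [abs_le]; constructor <;> linarith
  · rw [abs_of_nonpos (by linarith)] at h3
    refine ⟨z, by linarith, le_rfl, fun x hx => hb.low x η ⟨y, hy, ?_⟩⟩
    have := hx.1; have := hx.2
    rw [abs_le]; constructor <;> linarith

lemma Nice.kernel_bad (hbad : P1 ϱ z (conf (pos h)) ∧ ¬ P1 ρ z (conf (pos h))) :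
    ∫⁻ w, ENNReal.ofReal (Real.exp (ρ / 2 * w.1) * (1 + unI ρ z (insert w.2 (conf (pos h)))))
      ∂(waitK b n h) ≤ ENNReal.ofReal 2 := by
  have gb := hb.good
  set η := conf (pos h) with hη
  have hq := gb.lo η (conf_nonempty _)
  set q := totalRate b η with hqdef
  obtain ⟨s, hs1, hs2, hs3⟩ := hb.half_interval hρ z η hbad.1 hbad.2
  have hφ : ∀ x, 1 + unI ρ z (insert x η) =
      2 - (Icc (z - ρ) (z + ρ)).indicator (fun _ : ℝ => (1:ℝ)) x := by
    intro x
    unfold unI
    by_cases hx : x ∈ Icc (z - ρ) (z + ρ)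
    · rw [indicator_of_mem hx, if_pos]
      · norm_num
      · rw [P1_insert]; left
        rw [abs_le]; constructor <;> linarith [hx.1, hx.2]
    · rw [indicator_of_notMem hx, if_neg]
      · norm_num
      · rw [P1_insert]
        rintro (h1 | h1)
        · rw [abs_le] at h1
          exact hx ⟨by linarith, by linarith⟩
        · exact hbad.2 h1
  have hexp : ∀ τ : ℝ, Real.exp (-q * τ) * Real.exp (ρ / 2 * τ) =
      Real.exp (-(q - ρ / 2) * τ) * 1 := by
    intro τ
    rw [mul_one, ← Real.exp_add]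
    ring_nf
  have i1 : IntegrableOn (fun τ : ℝ => Real.exp (-q * τ) * Real.exp (ρ / 2 * τ)) (Ioi 0) := by
    simp only [hexp]
    exact iexp0 (by linarith)
  have i2 : Integrable (fun x => (1 + unI ρ z (insert x η)) * b x η) := by
    simp only [hφ]
    refine ((hb.integrable η).const_mul 2).mono' ?_ ?_
    · apply Measurable.aestronglyMeasurable
      exact ((measurable_const.indicator measurableSet_Icc).const_sub 2).mul
        (hb.meas.measurable_left η)
    · filter_upwards with x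
      have h1 : 0 ≤ (Icc (z - ρ) (z + ρ)).indicator (fun _ : ℝ => (1:ℝ)) x :=
        indicator_nonneg (fun _ _ => by norm_num) _
      have h2 : (Icc (z - ρ) (z + ρ)).indicator (fun _ : ℝ => (1:ℝ)) x ≤ 1 :=
        indicator_le_self' (fun _ _ => by norm_num) _
      rw [Real.norm_eq_abs, abs_mul, abs_of_nonneg (hb.nonneg x η), abs_of_nonneg (by linarith)]
      have := hb.nonneg x η
      nlinarith
  have i3 := gb.integrable_waitK_mul h i1 i2
  rw [← ofReal_integral_eq_lintegral_ofReal i3 (ae_of_all _ fun w => mul_nonneg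
    (Real.exp_pos _).le (by linarith [unI_nonneg ρ z (insert w.2 η)]))]
  apply ENNReal.ofReal_le_ofReal
  rw [gb.integral_waitK_mul h (fun τ => Real.exp (ρ / 2 * τ))
    (fun x => 1 + unI ρ z (insert x η))]
  rw [← hη, ← hqdef]
  simp only [hexp]
  rw [intexp0 (by linarith)]
  have hpt : ∀ x, (1 + unI ρ z (insert x η)) * b x η ≤
      2 * b x η - (Icc s (s + ρ)).indicator (fun _ : ℝ => (1:ℝ)) x := by
    intro x
    rw [hφ]
    by_cases hx : x ∈ Icc s (s + ρ)
    · have hx2 : x ∈ Icc (z - ρ) (z + ρ) := ⟨by linarith [hx.1], by linarith [hx.2]⟩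
      rw [indicator_of_mem hx, indicator_of_mem hx2]
      have := hs3 x hx
      linarith
    · rw [indicator_of_notMem hx]
      have h1 : 0 ≤ (Icc (z - ρ) (z + ρ)).indicator (fun _ : ℝ => (1:ℝ)) x :=
        indicator_nonneg (fun _ _ => by norm_num) _
      have := hb.nonneg x η
      nlinarith
  have h4 : ∫ x, (1 + unI ρ z (insert x η)) * b x η ≤
      ∫ x, (2 * b x η - (Icc s (s + ρ)).indicator (fun _ : ℝ => (1:ℝ)) x) :=
    integral_mono i2 (((hb.integrable η).const_mul 2).sub (integrable_ind _ _ _)) hpt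
  rw [integral_sub ((hb.integrable η).const_mul 2) (integrable_ind _ _ _), integral_const_mul,
    integral_ind (by linarith)] at h4
  have h5 : ∫ x, b x η = q := rfl
  rw [h5] at h4
  have h6 : 0 < q - ρ / 2 := by linarith
  rw [one_div, inv_mul_le_iff₀ h6]
  linarith

lemma Nice.kernel_step :
    ∫⁻ w, ENNReal.ofReal (Real.exp (ρ / 2 * (w.1 * badI ϱ ρ z (conf (pos h)))) *
      (1 + unI ρ z (insert w.2 (conf (pos h))))) ∂(waitK b n h) ≤
      ENNReal.ofReal (1 + unI ρ z (conf (pos h))) := by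
  have hmark : IsMarkovKernel (waitK b n) := hb.good.isMarkov
  by_cases hbad : P1 ϱ z (conf (pos h)) ∧ ¬ P1 ρ z (conf (pos h))
  · have h1 : badI ϱ ρ z (conf (pos h)) = 1 := by unfold badI; rw [if_pos hbad]
    have h2 : unI ρ z (conf (pos h)) = 1 := by unfold unI; rw [if_neg hbad.2]
    rw [h1, h2]
    simp only [mul_one]
    refine (hb.kernel_bad hρ hρ1 z h hbad).trans (le_of_eq ?_)
    norm_num
  · have h1 : badI ϱ ρ z (conf (pos h)) = 0 := by unfold badI; rw [if_neg hbad]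
    rw [h1]
    simp only [mul_zero, Real.exp_zero, one_mul]
    calc _ ≤ ∫⁻ _w, ENNReal.ofReal (1 + unI ρ z (conf (pos h))) ∂(waitK b n h) := by
          apply lintegral_mono
          intro w
          apply ENNReal.ofReal_le_ofReal
          linarith [unI_anti ρ z (Finset.subset_insert w.2 (conf (pos h)))]
      _ = _ := by simp

end kernel

section process
variable {Ω : Type} [mΩ : MeasurableSpace Ω] {P : Measure Ω} {T Y : ℕ → Ω → ℝ}

/-- total time before the `n`-th birth during which `z` is exposed but not filled -/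
noncomputable def V (ϱ ρ z : ℝ) (T Y : ℕ → Ω → ℝ) (n : ℕ) (ω : Ω) : ℝ :=
  ∑ k ∈ Finset.range n, (T (k+1) ω - T k ω) * badI ϱ ρ z (confAt Y k ω)

lemma measurable_V_Fil (hP : IsBirthProcess b P T Y) (ϱ ρ z : ℝ) (n : ℕ) :
    Measurable[Fil hP n] (V ϱ ρ z T Y n) := by
  unfold V
  apply Finset.measurable_fun_sum
  intro k hk
  have hk' := Finset.mem_range.mp hk
  apply Measurable.mul
  · exact (measurable_T_Fil hP hk').sub (measurable_T_Fil hP hk'.le)
  · exact ((measConf_badI ϱ ρ z (k+1)).comp measurable_pos).comp (measurable_hist_Fil hP hk'.le)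

lemma measurable_V (hP : IsBirthProcess b P T Y) (ϱ ρ z : ℝ) (n : ℕ) :
    Measurable (V ϱ ρ z T Y n) := (measurable_V_Fil hP ϱ ρ z n).mono ((Fil hP).le n) le_rfl

variable (hP : IsBirthProcess b P T Y) (hb : Nice b ϱ) (hρ : 0 < ρ) (hρ1 : ρ ≤ 1)
include hP hb hρ hρ1

lemma IsBirthProcess.W_step (z : ℝ) (n : ℕ) :
    ∫⁻ ω, ENNReal.ofReal (Real.exp (ρ / 2 * V ϱ ρ z T Y (n+1) ω) *
      (1 + unI ρ z (confAt Y (n+1) ω))) ∂P ≤
    ∫⁻ ω, ENNReal.ofReal (Real.exp (ρ / 2 * V ϱ ρ z T Y n ω) *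
      (1 + unI ρ z (confAt Y n ω))) ∂P := by
  obtain ⟨v, hv, hv2⟩ := (measurable_V_Fil hP ϱ ρ z n).exists_eq_measurable_comp
  have hv3 : ∀ ω, V ϱ ρ z T Y n ω = v (hist T Y n ω) := fun ω => congrFun hv2 ω
  have h1 := hP.lintegral_inc hb.meas n (G := fun p => ENNReal.ofReal
    (Real.exp (ρ / 2 * (v p.1 + p.2.1 * badI ϱ ρ z (conf (pos p.1)))) *
      (1 + unI ρ z (insert p.2.2 (conf (pos p.1))))))
    (by
      apply Measurable.ennreal_ofReal
      apply Measurable.mul
      · apply Real.measurable_exp.comp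
        apply Measurable.const_mul
        apply Measurable.add (hv.comp measurable_fst)
        apply Measurable.mul
        · exact measurable_fst.comp measurable_snd
        · exact (measConf_badI ϱ ρ z).comp_hist (n+1)
      · apply Measurable.const_add
        exact (measConf_unI ρ z).insert_hist (n+1))
  have e1 : ∀ ω, ENNReal.ofReal (Real.exp (ρ / 2 * V ϱ ρ z T Y (n+1) ω) *
      (1 + unI ρ z (confAt Y (n+1) ω))) = ENNReal.ofReal
      (Real.exp (ρ / 2 * (v (hist T Y n ω) + (inc T Y n ω).1 *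
        badI ϱ ρ z (conf (pos (hist T Y n ω))))) *
      (1 + unI ρ z (insert (inc T Y n ω).2 (conf (pos (hist T Y n ω)))))) := by
    intro ω
    have e0 : V ϱ ρ z T Y (n+1) ω = V ϱ ρ z T Y n ω + (inc T Y n ω).1 *
        badI ϱ ρ z (conf (pos (hist T Y n ω))) := by
      unfold V
      rw [Finset.sum_range_succ]
      rfl
    rw [confAt_succ, ← hv3, e0]
    rfl
  rw [lintegral_congr e1, h1]
  apply lintegral_mono
  intro ω
  simp only
  have e2 : ∀ w : ℝ × ℝ, ENNReal.ofReal (Real.exp (ρ / 2 * (v (hist T Y n ω) + w.1 *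
        badI ϱ ρ z (conf (pos (hist T Y n ω))))) *
      (1 + unI ρ z (insert w.2 (conf (pos (hist T Y n ω)))))) =
      ENNReal.ofReal (Real.exp (ρ / 2 * v (hist T Y n ω))) *
      ENNReal.ofReal (Real.exp (ρ / 2 * (w.1 * badI ϱ ρ z (conf (pos (hist T Y n ω))))) *
      (1 + unI ρ z (insert w.2 (conf (pos (hist T Y n ω)))))) := by
    intro w
    rw [← ENNReal.ofReal_mul (Real.exp_pos _).le, ← mul_assoc, ← Real.exp_add, ← mul_add]
  rw [lintegral_congr e2, lintegral_const_mul' _ _ ENNReal.ofReal_ne_top]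
  rw [hv3, ENNReal.ofReal_mul (Real.exp_pos _).le]
  exact mul_le_mul_right (hb.kernel_step hρ hρ1 z (hist T Y n ω)) _

lemma IsBirthProcess.W_le (z : ℝ) (n : ℕ) :
    ∫⁻ ω, ENNReal.ofReal (Real.exp (ρ / 2 * V ϱ ρ z T Y n ω) *
      (1 + unI ρ z (confAt Y n ω))) ∂P ≤ 2 := by
  have := hP.prob
  induction n with
  | zero =>
    calc _ ≤ ∫⁻ _ω, (2 : ℝ≥0∞) ∂P := by
          apply lintegral_mono
          intro ω
          have h1 : V ϱ ρ z T Y 0 ω = 0 := by simp [V]
          simp only [h1, mul_zero, Real.exp_zero, one_mul]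
          calc _ ≤ ENNReal.ofReal 2 := by
                apply ENNReal.ofReal_le_ofReal
                linarith [unI_le_one ρ z (confAt Y 0 ω)]
            _ = 2 := by norm_num
      _ = 2 := by simp
  | succ n ih => exact (hP.W_step hb hρ hρ1 z n).trans ih

lemma IsBirthProcess.exp_V_le (z : ℝ) :
    ∫⁻ ω, ⨆ n, ENNReal.ofReal (Real.exp (ρ / 2 * V ϱ ρ z T Y n ω)) ∂P ≤ 2 := by
  rw [lintegral_iSup']
  · apply iSup_le
    intro n
    refine le_trans ?_ (hP.W_le hb hρ hρ1 z n)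
    apply lintegral_mono
    intro ω
    apply ENNReal.ofReal_le_ofReal
    have h1 := unI_nonneg ρ z (confAt Y n ω)
    have h2 := Real.exp_pos (ρ / 2 * V ϱ ρ z T Y n ω)
    nlinarith
  · intro n
    apply Measurable.aemeasurable
    apply Measurable.ennreal_ofReal
    apply Real.measurable_exp.comp
    exact (measurable_V hP ϱ ρ z n).const_mul _
  · filter_upwards [hP.ae_lt hb.meas] with ω hω
    apply monotone_nat_of_le_succ
    intro n
    apply ENNReal.ofReal_le_ofReal
    apply Real.exp_le_exp.mpr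
    apply mul_le_mul_of_nonneg_left _ (by positivity)
    unfold V
    rw [Finset.sum_range_succ]
    have := mul_nonneg (sub_nonneg.mpr (hω n).le) (badI_nonneg ϱ ρ z (confAt Y n ω))
    linarith

/-- the exposed but unfilled time at the `j`-th grid point grows at most linearly with an
arbitrarily small slope -/
lemma IsBirthProcess.fill_bound {c : ℝ} (hc : 0 < c) :
    ∀ᵐ ω ∂P, ∃ C : ℝ, ∀ j n : ℕ, V ϱ ρ (j * ρ) T Y n ω ≤ C + c * j := by
  have hlam : 0 < ρ / 2 := by positivity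
  let F : ℕ → Ω → ℝ≥0∞ := fun j ω => ENNReal.ofReal (Real.exp (-(ρ / 2 * c) * j)) *
    ⨆ n, ENNReal.ofReal (Real.exp (ρ / 2 * V ϱ ρ (j * ρ) T Y n ω))
  have hFm : ∀ j, Measurable (F j) := by
    intro j
    apply Measurable.const_mul
    apply Measurable.iSup
    intro n
    apply Measurable.ennreal_ofReal
    apply Real.measurable_exp.comp
    exact (measurable_V hP ϱ ρ (j * ρ) n).const_mul _
  have hsum : Summable (fun j : ℕ => Real.exp (-(ρ / 2 * c) * j)) := by
    have h1 : (fun j : ℕ => Real.exp (-(ρ / 2 * c) * j)) =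
        fun j : ℕ => (Real.exp (-(ρ / 2 * c))) ^ j := by
      ext j
      rw [← Real.exp_nat_mul]
      ring_nf
    rw [h1]
    apply summable_geometric_of_lt_one (Real.exp_pos _).le
    rw [Real.exp_lt_one_iff]
    have : 0 < ρ / 2 * c := by positivity
    linarith
  have hint : ∫⁻ ω, ∑' j, F j ω ∂P ≠ ∞ := by
    rw [lintegral_tsum fun j => (hFm j).aemeasurable]
    have h1 : ∑' j, ∫⁻ ω, F j ω ∂P ≤ ∑' j : ℕ, ENNReal.ofReal (Real.exp (-(ρ / 2 * c) * j)) * 2 := by
      apply ENNReal.tsum_le_tsum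
      intro j
      simp only [F]
      rw [lintegral_const_mul' _ _ ENNReal.ofReal_ne_top]
      exact mul_le_mul_right (hP.exp_V_le hb hρ hρ1 (j * ρ)) _
    refine ne_top_of_le_ne_top ?_ h1
    rw [ENNReal.tsum_mul_right]
    exact ENNReal.mul_ne_top hsum.tsum_ofReal_ne_top (by norm_num)
  have hae := ae_lt_top (Measurable.tsum hFm) hint
  filter_upwards [hae] with ω hω
  refine ⟨(∑' j, F j ω).toReal / (ρ / 2), fun j n => ?_⟩
  have h1 : ENNReal.ofReal (Real.exp (-(ρ / 2 * c) * j)) *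
      ENNReal.ofReal (Real.exp (ρ / 2 * V ϱ ρ (j * ρ) T Y n ω)) ≤ ∑' j, F j ω := by
    refine le_trans ?_ (ENNReal.le_tsum j)
    simp only [F]
    exact mul_le_mul_right (le_iSup (fun n => ENNReal.ofReal (Real.exp (ρ / 2 *
      V ϱ ρ (j * ρ) T Y n ω))) n) _
  rw [← ENNReal.ofReal_mul (Real.exp_pos _).le, ← Real.exp_add] at h1
  have h2 : Real.exp (-(ρ / 2 * c) * j + ρ / 2 * V ϱ ρ (j * ρ) T Y n ω) ≤
      (∑' j, F j ω).toReal := (ENNReal.ofReal_le_iff_le_toReal hω.ne).mp h1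
  have h3 := Real.add_one_le_exp (-(ρ / 2 * c) * j + ρ / 2 * V ϱ ρ (j * ρ) T Y n ω)
  rw [← sub_le_iff_le_add, le_div_iff₀ hlam]
  linarith

end process

end Pool.Agent.Work.MPe8003b
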