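import Pool.Agent.Work.MP_e8003b_pr.NiceRate

open MeasureTheory ProbabilityTheory Set Filter Topology
open scoped ENNReal

namespace Pool.Agent.Work.MPe8003b

variable {b : ℝ → Finset ℝ → ℝ} {ϱ : ℝ}

/-- the rightmost particle -/
noncomputable def mx (η : Finset ℝ) : ℝ := if h : η.Nonempty then η.max' h else 0

/-- `m` is the rightmost particle -/
structure Top (η : Finset ℝ) (m : ℝ) : Prop where
  mem : m ∈ η
  le : ∀ y ∈ η, y ≤ m

variable {η : Finset ℝ} {m x : ℝ}

lemma top_mx (h : η.Nonempty) : Top η (mx η) := by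
  have hm : mx η = η.max' h := by simp [mx, h]
  refine ⟨?_, ?_⟩
  · rw [hm]; exact η.max'_mem h
  · intro y hy; rw [hm]; exact η.le_max' y hy

lemma Top.mx_eq (h : Top η m) : mx η = m := by
  have h' := top_mx ⟨m, h.mem⟩
  exact le_antisymm (h.le _ h'.mem) (h'.le _ h.mem)

lemma Top.insert_ge (h : Top η m) (hx : m ≤ x) : Top (insert x η) x := by
  refine ⟨Finset.mem_insert_self _ _, ?_⟩
  intro y hy
  rcases Finset.mem_insert.mp hy with rfl | hy
  · exact le_rfl
  · linarith [h.le y hy]

lemma Top.insert_le (h : Top η m) (hx : x ≤ m) : Top (insert x η) m := by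
  refine ⟨Finset.mem_insert_of_mem h.mem, ?_⟩
  intro y hy
  rcases Finset.mem_insert.mp hy with rfl | hy
  · exact hx
  · exact h.le y hy

/-- the second particle from the right is within distance `1` of the rightmost one -/
def Close (η : Finset ℝ) : Prop := ∃ y ∈ η, y < mx η ∧ mx η - y ≤ 1

open Classical in
/-- indicator of `Close` -/
noncomputable def cl (η : Finset ℝ) : ℝ := if Close η then 1 else 0

lemma Top.close_insert_gt (h : Top η m) (hx : m < x) : Close (insert x η) ↔ x - m ≤ 1 := by
  unfold Close
  rw [(h.insert_ge hx.le).mx_eq]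
  constructor
  · rintro ⟨y, hy, hy1, hy2⟩
    rcases Finset.mem_insert.mp hy with rfl | hy
    · exact absurd hy1 (lt_irrefl _)
    · linarith [h.le y hy]
  · intro h1
    exact ⟨m, Finset.mem_insert_of_mem h.mem, hx, h1⟩

lemma Top.close_insert_lt (h : Top η m) (hx : x < m) :
    Close (insert x η) ↔ m - x ≤ 1 ∨ Close η := by
  unfold Close
  rw [(h.insert_le hx.le).mx_eq, h.mx_eq]
  constructor
  · rintro ⟨y, hy, hy1, hy2⟩
    rcases Finset.mem_insert.mp hy with rfl | hy
    · exact Or.inl hy2
    · exact Or.inr ⟨y, hy, hy1, hy2⟩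
  · rintro (h1 | ⟨y, hy, hy1, hy2⟩)
    · exact ⟨x, Finset.mem_insert_self _ _, hx, h1⟩
    · exact ⟨y, Finset.mem_insert_of_mem hy, hy1, hy2⟩

lemma cl_of (h : Close η) : cl η = 1 := by unfold cl; rw [if_pos h]

lemma cl_of_not (h : ¬ Close η) : cl η = 0 := by unfold cl; rw [if_neg h]

lemma cl_nonneg (η : Finset ℝ) : 0 ≤ cl η := by unfold cl; split_ifs <;> norm_num

lemma cl_le_one (η : Finset ℝ) : cl η ≤ 1 := by unfold cl; split_ifs <;> norm_num

/-- the observables -/
noncomputable def fk (κ : ℝ) (η : Finset ℝ) : ℝ := mx η + κ * cl η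

lemma D_fk (κ : ℝ) (η : Finset ℝ) (x : ℝ) : D (fk κ) η x = D mx η x + κ * D cl η x := by
  unfold D fk
  ring

lemma Top.D_mx (h : Top η m) (x : ℝ) : D mx η x = max (x - m) 0 := by
  unfold D
  rw [h.mx_eq]
  rcases le_total x m with h1 | h1
  · rw [(h.insert_le h1).mx_eq, max_eq_right (by linarith), sub_self]
  · rw [(h.insert_ge h1).mx_eq, max_eq_left (by linarith)]

lemma abs_D_cl_le (η : Finset ℝ) (x : ℝ) : |D cl η x| ≤ 1 := by
  unfold D
  rw [abs_le]
  constructor <;> linarith [cl_nonneg η, cl_le_one η, cl_nonneg (insert x η),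
    cl_le_one (insert x η)]

/-- increments of the observables to the right of the front, at distance at most `1` -/
lemma Top.D_fk_near (h : Top η m) (κ : ℝ) (hx : m < x) (hx1 : x - m ≤ 1) :
    D (fk κ) η x = (x - m) + κ * (1 - cl η) := by
  rw [D_fk, h.D_mx, max_eq_left (by linarith)]
  unfold D
  rw [cl_of ((h.close_insert_gt hx).mpr hx1)]

/-- increments of the observables to the right of the front, at distance more than `1` -/
lemma Top.D_fk_far (h : Top η m) (κ : ℝ) (hx : 1 < x - m) :
    D (fk κ) η x = (x - m) + κ * (0 - cl η) := by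
  rw [D_fk, h.D_mx, max_eq_left (by linarith)]
  unfold D
  rw [cl_of_not (fun h1 => by
    have := (h.close_insert_gt (by linarith)).mp h1
    linarith)]

/-- increments of the observables just to the left of the front -/
lemma Top.D_fk_left (h : Top η m) (κ : ℝ) (hx : x < m) (hx1 : m - x ≤ 1) :
    D (fk κ) η x = κ * (1 - cl η) := by
  rw [D_fk, h.D_mx, max_eq_right (by linarith)]
  unfold D
  rw [cl_of ((h.close_insert_lt hx).mpr (Or.inl hx1))]
  ring

/-- no increment far to the left of the front -/
lemma Top.D_fk_zero (h : Top η m) (κ : ℝ) (hx : 1 < m - x) : D (fk κ) η x = 0 := by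
  have h1 : cl (insert x η) = cl η := by
    by_cases hc : Close η
    · rw [cl_of hc, cl_of ((h.close_insert_lt (by linarith)).mpr (Or.inr hc))]
    · rw [cl_of_not hc, cl_of_not]
      intro h2
      rcases (h.close_insert_lt (by linarith)).mp h2 with h3 | h3
      · linarith
      · exact hc h3
  rw [D_fk, h.D_mx, max_eq_right (by linarith)]
  unfold D
  rw [h1]
  ring

lemma measConf_mx : MeasConf mx := by
  intro n
  cases n with
  | zero =>
    have : (fun y : Fin 0 → ℝ => mx (conf y)) = fun _ => 0 := by
      ext y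
      simp [mx, conf]
    rw [this]
    exact measurable_const
  | succ n =>
    have : (fun y : Fin (n+1) → ℝ => mx (conf y)) =
        fun y => Finset.univ.sup' Finset.univ_nonempty (fun i => y i) := by
      ext y
      have h : (conf y).Nonempty := conf_nonempty y
      simp only [mx, h, dif_pos]
      rw [Finset.max'_eq_sup']
      unfold conf
      rw [Finset.sup'_image]
      rfl
    rw [this]
    have h2 := Finset.measurable_sup' (s := (Finset.univ : Finset (Fin (n+1))))
      Finset.univ_nonempty (f := fun i (y : Fin (n+1) → ℝ) => y i)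
      (fun i _ => measurable_pi_apply i)
    convert h2 using 1
    ext y
    simp [Finset.sup'_apply]

lemma measConf_cl : MeasConf cl := by
  intro n
  unfold cl
  refine Measurable.ite ?_ measurable_const measurable_const
  have h1 : {y : Fin n → ℝ | Close (conf y)} = ⋃ i : Fin n,
      ({y : Fin n → ℝ | y i < mx (conf y)} ∩ {y : Fin n → ℝ | mx (conf y) - y i ≤ 1}) := by
    ext y
    simp [Close, conf]
  rw [h1]
  apply MeasurableSet.iUnion
  intro i
  exact (measurableSet_lt (measurable_pi_apply i) (measConf_mx n)).inter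
    (measurableSet_le ((measConf_mx n).sub (measurable_pi_apply i)) measurable_const)

lemma measConf_fk (κ : ℝ) : MeasConf (fk κ) := by
  intro n
  unfold fk
  exact (measConf_mx n).add ((measConf_cl n).const_mul κ)

lemma Nice.zero_of_gt (hb : Nice b ϱ) (h : Top η m) (hx : m + 3 < x) : b x η = 0 := by
  by_contra hne
  obtain ⟨y, hy, hxy⟩ := hb.supp x η hne
  have := h.le y hy
  rw [abs_le] at hxy
  linarith

lemma Nice.goodFun (hb : Nice b ϱ) {κ : ℝ} (hκ : |κ| ≤ 1) : GoodFun b (fk κ) 128 := by
  have key : ∀ η : Finset ℝ, η.Nonempty → ∀ x, (D (fk κ) η x) ^ 2 * b x η ≤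
      (Icc (mx η - 1) (mx η + 3)).indicator (fun _ : ℝ => (32:ℝ)) x := by
    intro η hη x
    have ht := top_mx hη
    by_cases h1 : x < mx η - 1
    · rw [ht.D_fk_zero κ (by linarith)]
      simp only [ne_eq, OfNat.ofNat_ne_zero, not_false_eq_true, zero_pow, zero_mul]
      exact indicator_nonneg (fun _ _ => by norm_num) _
    · by_cases h2 : mx η + 3 < x
      · rw [hb.zero_of_gt ht h2, mul_zero]
        exact indicator_nonneg (fun _ _ => by norm_num) _
      · push Not at h1 h2
        have hmem : x ∈ Icc (mx η - 1) (mx η + 3) := ⟨h1, h2⟩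
        rw [indicator_of_mem hmem, D_fk, ht.D_mx]
        have h3 := abs_D_cl_le η x
        have h4 : |max (x - mx η) 0| ≤ 3 := by
          rw [abs_of_nonneg (le_max_right _ _)]
          exact max_le (by linarith) (by norm_num)
        have h5 : |max (x - mx η) 0 + κ * D cl η x| ≤ 4 := by
          refine (abs_add_le _ _).trans ?_
          rw [abs_mul]
          have : |κ| * |D cl η x| ≤ 1 * 1 := by
            apply mul_le_mul hκ h3 (abs_nonneg _) (by norm_num)
          linarith
        have h6 : (max (x - mx η) 0 + κ * D cl η x) ^ 2 ≤ 16 := by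
          rw [← sq_abs]
          nlinarith [abs_nonneg (max (x - mx η) 0 + κ * D cl η x)]
        have h7 := hb.le_two x η
        have h8 := hb.nonneg x η
        have h9 := sq_nonneg (max (x - mx η) 0 + κ * D cl η x)
        nlinarith
  have hint : ∀ η : Finset ℝ, η.Nonempty →
      Integrable (fun x => (D (fk κ) η x) ^ 2 * b x η) := by
    intro η hη
    refine (integrable_ind (mx η - 1) (mx η + 3) 32).mono' ?_ ?_
    · obtain ⟨y, hy⟩ := exists_conf η
      apply Measurable.aestronglyMeasurable
      apply Measurable.mul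
      · apply Measurable.pow_const
        have h1 := (measurable_D (measConf_fk κ) η.card).comp
          (measurable_prodMk_left (x := y))
        rw [← hy]
        simpa [Function.comp_def, hy] using h1
      · exact hb.meas.measurable_left η
    · filter_upwards with x
      rw [Real.norm_eq_abs, abs_of_nonneg (mul_nonneg (sq_nonneg _) (hb.nonneg _ _))]
      exact key η hη x
  refine ⟨measConf_fk κ, hint, ?_⟩
  intro η hη
  have h1 : ∫ x, (D (fk κ) η x) ^ 2 * b x η ≤
      ∫ x, (Icc (mx η - 1) (mx η + 3)).indicator (fun _ : ℝ => (32:ℝ)) x := by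
    apply integral_mono (hint η hη) (integrable_ind _ _ _)
    intro x
    exact key η hη x
  rw [integral_ind (by linarith)] at h1
  linarith

lemma Nice.integrable_D (hb : Nice b ϱ) {κ : ℝ} (hκ : |κ| ≤ 1) {η : Finset ℝ} (hη : η.Nonempty) :
    Integrable (fun x => D (fk κ) η x * b x η) := by
  obtain ⟨n, y, hy⟩ := exists_conf_succ hη
  rw [← hy]
  exact hb.good.integrable_D (hb.goodFun hκ) y

end Pool.Agent.Work.MPe8003b
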