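import Pool.Agent.Work.MP_e8003b_pr.Front

open MeasureTheory ProbabilityTheory Set Filter Topology
open scoped ENNReal

namespace Pool.Agent.Work.MPe8003b

/-- `x` is within distance `2` of a particle that has another particle within distance `1` -/
def P2 (x : ℝ) (η : Finset ℝ) : Prop := ∃ y ∈ η, |x - y| ≤ 2 ∧ ∃ z ∈ η, z ≠ y ∧ |y - z| ≤ 1

open Classical in
/-- first rate: `1` within distance `1` of a particle or within distance `2` of a particle that
has another particle within distance `1` -/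
noncomputable def rateA (x : ℝ) (η : Finset ℝ) : ℝ := if P1 1 x η ∨ P2 x η then 1 else 0

open Classical in
/-- second rate: `1` within distance `3` of a particle -/
noncomputable def rateB (x : ℝ) (η : Finset ℝ) : ℝ := if P1 3 x η then 1 else 0

lemma P2.P1 {x : ℝ} {η : Finset ℝ} (h : P2 x η) : P1 2 x η := by
  obtain ⟨y, hy, h1, _⟩ := h
  exact ⟨y, hy, h1⟩

lemma P2.mono {x : ℝ} {η ζ : Finset ℝ} (hη : η ⊆ ζ) (h : P2 x η) : P2 x ζ := by
  obtain ⟨y, hy, h1, z, hz, h2⟩ := h
  exact ⟨y, hη hy, h1, z, hη hz, h2⟩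

lemma measurableSet_P2 (n : ℕ) :
    MeasurableSet {p : ℝ × (Fin n → ℝ) | P2 p.1 (conf p.2)} := by
  have h1 : {p : ℝ × (Fin n → ℝ) | P2 p.1 (conf p.2)} =
      ⋃ i : Fin n, ({p : ℝ × (Fin n → ℝ) | |p.1 - p.2 i| ≤ 2} ∩
        ⋃ j : Fin n, ({p : ℝ × (Fin n → ℝ) | p.2 j = p.2 i}ᶜ ∩
          {p : ℝ × (Fin n → ℝ) | |p.2 i - p.2 j| ≤ 1})) := by
    ext p
    simp [P2, conf]
  rw [h1]
  have m1 : ∀ i : Fin n, Measurable (fun p : ℝ × (Fin n → ℝ) => p.2 i) := fun i =>
    (measurable_pi_apply i).comp measurable_snd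
  apply MeasurableSet.iUnion
  intro i
  refine MeasurableSet.inter ?_ (MeasurableSet.iUnion fun j => MeasurableSet.inter
    (MeasurableSet.compl ?_) ?_)
  · exact measurableSet_le (continuous_abs.measurable.comp (measurable_fst.sub (m1 i)))
      measurable_const
  · exact measurableSet_eq_fun (m1 j) (m1 i)
  · exact measurableSet_le (continuous_abs.measurable.comp ((m1 i).sub (m1 j))) measurable_const

lemma measRate_A : MeasRate rateA := by
  intro n
  unfold rateA
  exact Measurable.ite ((measurableSet_P1 1 n).union (measurableSet_P2 n)) measurable_const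
    measurable_const

lemma measRate_B : MeasRate rateB := by
  intro n
  unfold rateB
  exact Measurable.ite (measurableSet_P1 3 n) measurable_const measurable_const

lemma rateA_nonneg (x : ℝ) (η : Finset ℝ) : 0 ≤ rateA x η := by
  unfold rateA; split_ifs <;> norm_num

lemma rateA_le (x : ℝ) (η : Finset ℝ) : rateA x η ≤ 1 := by
  unfold rateA; split_ifs <;> norm_num

lemma rateB_nonneg (x : ℝ) (η : Finset ℝ) : 0 ≤ rateB x η := by
  unfold rateB; split_ifs <;> norm_num

lemma rateB_le (x : ℝ) (η : Finset ℝ) : rateB x η ≤ 1 := by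
  unfold rateB; split_ifs <;> norm_num

lemma rateA_one {x : ℝ} {η : Finset ℝ} (h : P1 1 x η ∨ P2 x η) : rateA x η = 1 := by
  unfold rateA; rw [if_pos h]

lemma rateA_zero {x : ℝ} {η : Finset ℝ} (h : ¬ (P1 1 x η ∨ P2 x η)) : rateA x η = 0 := by
  unfold rateA; rw [if_neg h]

lemma rateB_one {x : ℝ} {η : Finset ℝ} (h : P1 3 x η) : rateB x η = 1 := by
  unfold rateB; rw [if_pos h]

lemma rateB_zero {x : ℝ} {η : Finset ℝ} (h : ¬ P1 3 x η) : rateB x η = 0 := by
  unfold rateB; rw [if_neg h]

lemma rateA_supp {x : ℝ} {η : Finset ℝ} (h : rateA x η ≠ 0) : P1 2 x η := by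
  by_contra hc
  apply h
  apply rateA_zero
  rintro (h1 | h1)
  · exact hc (h1.mono (by norm_num) (Finset.Subset.refl _))
  · exact hc h1.P1

lemma rateB_supp {x : ℝ} {η : Finset ℝ} (h : rateB x η ≠ 0) : P1 3 x η := by
  by_contra hc
  exact h (rateB_zero hc)

lemma niceA : Nice rateA 1 := by
  refine ⟨measRate_A, rateA_nonneg, fun x η => (rateA_le x η).trans (by norm_num), le_rfl,
    ?_, ?_, ?_⟩
  · intro x η h
    exact (rateA_supp h).mono (by norm_num) (Finset.Subset.refl _)
  · intro x η h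
    exact (rateA_supp h).mono (by norm_num) (Finset.Subset.refl _)
  · intro x η h
    rw [rateA_one (Or.inl h)]

lemma niceB : Nice rateB 3 := by
  refine ⟨measRate_B, rateB_nonneg, fun x η => (rateB_le x η).trans (by norm_num),
    by norm_num, ?_, ?_, ?_⟩
  · intro x η h
    exact rateB_supp h
  · intro x η h
    exact (rateB_supp h).mono (by norm_num) (Finset.Subset.refl _)
  · intro x η h
    rw [rateB_one h]

/-- the sum of the two rates -/
noncomputable def rateAB (x : ℝ) (η : Finset ℝ) : ℝ := rateA x η + rateB x η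

lemma rateAB_supp {x : ℝ} {η : Finset ℝ} (h : rateAB x η ≠ 0) : P1 3 x η := by
  unfold rateAB at h
  by_cases h1 : rateA x η = 0
  · rw [h1, zero_add] at h
    exact rateB_supp h
  · exact (rateA_supp h1).mono (by norm_num) (Finset.Subset.refl _)

lemma niceAB : Nice rateAB 3 := by
  refine ⟨fun n => (measRate_A n).add (measRate_B n),
    fun x η => add_nonneg (rateA_nonneg x η) (rateB_nonneg x η),
    fun x η => by have := rateA_le x η; have := rateB_le x η; unfold rateAB; linarith,
    by norm_num, ?_, ?_, ?_⟩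
  · intro x η h
    exact rateAB_supp h
  · intro x η h
    exact (rateAB_supp h).mono (by norm_num) (Finset.Subset.refl _)
  · intro x η h
    have := rateA_nonneg x η
    unfold rateAB
    rw [rateB_one h]
    linarith

section gen
variable {b : ℝ → Finset ℝ → ℝ} {η : Finset ℝ} {m κ bm b₀ b₁ b₂ : ℝ}

lemma Top.gen_formula (ht : Top η m)
    (hm : ∀ x, m - 1 < x → x < m → b x η = bm)
    (h₀ : ∀ x, m < x → x ≤ m + 1 → b x η = b₀)
    (h₁ : ∀ x, m + 1 < x → x ≤ m + 2 → b x η = b₁)
    (h₂ : ∀ x, m + 2 < x → x ≤ m + 3 → b x η = b₂)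
    (h₃ : ∀ x, m + 3 < x → b x η = 0) :
    Gen b (fk κ) η = bm * (κ * (1 - cl η)) + b₀ * (1 / 2 + κ * (1 - cl η)) +
      b₁ * (3 / 2 - κ * cl η) + b₂ * (5 / 2 - κ * cl η) := by
  set c := cl η with hc
  have i1 := integrable_env m (-1) 0 0 (bm * (κ * (1 - c)))
  have i2 := integrable_env m 0 1 b₀ (b₀ * (κ * (1 - c)))
  have i3 := integrable_env m 1 2 b₁ (b₁ * (κ * (0 - c)))
  have i4 := integrable_env m 2 3 b₂ (b₂ * (κ * (0 - c)))
  have e1 := integral_env m (-1) 0 0 (bm * (κ * (1 - c))) (by norm_num)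
  have e2 := integral_env m 0 1 b₀ (b₀ * (κ * (1 - c))) (by norm_num)
  have e3 := integral_env m 1 2 b₁ (b₁ * (κ * (0 - c))) (by norm_num)
  have e4 := integral_env m 2 3 b₂ (b₂ * (κ * (0 - c))) (by norm_num)
  set g1 : ℝ → ℝ := (Ioc (m + -1) (m + 0)).indicator
    (fun x : ℝ => 0 * (x - m) + bm * (κ * (1 - c))) with hg1
  set g2 : ℝ → ℝ := (Ioc (m + 0) (m + 1)).indicator
    (fun x : ℝ => b₀ * (x - m) + b₀ * (κ * (1 - c))) with hg2
  set g3 : ℝ → ℝ := (Ioc (m + 1) (m + 2)).indicator
    (fun x : ℝ => b₁ * (x - m) + b₁ * (κ * (0 - c))) with hg3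
  set g4 : ℝ → ℝ := (Ioc (m + 2) (m + 3)).indicator
    (fun x : ℝ => b₂ * (x - m) + b₂ * (κ * (0 - c))) with hg4
  have eE : ∫ x, (g1 x + g2 x + g3 x + g4 x) =
      (∫ x, g1 x) + (∫ x, g2 x) + (∫ x, g3 x) + (∫ x, g4 x) := by
    rw [integral_add (f := fun x => g1 x + g2 x + g3 x) ((i1.add i2).add i3) i4,
      integral_add (f := fun x => g1 x + g2 x) (i1.add i2) i3, integral_add i1 i2]
  have hne : ∀ a : ℝ, ∀ᵐ x ∂(volume : Measure ℝ), x ≠ a := by
    intro a
    exact (measure_eq_zero_iff_ae_notMem.mp (measure_singleton a)).mono fun x hx => by simpa using hx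
  have hpt : ∀ᵐ x ∂(volume : Measure ℝ), D (fk κ) η x * b x η = g1 x + g2 x + g3 x + g4 x := by
    filter_upwards [hne m, hne (m - 1)] with x hx1 hx2
    rcases le_or_gt x (m - 1) with c1 | c1
    · have c1' : x < m - 1 := lt_of_le_of_ne c1 hx2
      have z1 : g1 x = 0 := indicator_of_notMem (by intro h; linarith [h.1]) _
      have z2 : g2 x = 0 := indicator_of_notMem (by intro h; linarith [h.1]) _
      have z3 : g3 x = 0 := indicator_of_notMem (by intro h; linarith [h.1]) _
      have z4 : g4 x = 0 := indicator_of_notMem (by intro h; linarith [h.1]) _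
      rw [ht.D_fk_zero κ (by linarith), z1, z2, z3, z4]
      ring
    rcases le_or_gt x m with c2 | c2
    · have c2' : x < m := lt_of_le_of_ne c2 hx1
      have z1 : g1 x = 0 * (x - m) + bm * (κ * (1 - c)) :=
        indicator_of_mem (show x ∈ Ioc _ _ from ⟨by linarith, by linarith⟩) _
      have z2 : g2 x = 0 := indicator_of_notMem (by intro h; linarith [h.1]) _
      have z3 : g3 x = 0 := indicator_of_notMem (by intro h; linarith [h.1]) _
      have z4 : g4 x = 0 := indicator_of_notMem (by intro h; linarith [h.1]) _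
      rw [ht.D_fk_left κ c2' (by linarith), z1, z2, z3, z4, hm x c1 c2']
      ring
    rcases le_or_gt x (m + 1) with c3 | c3
    · have z1 : g1 x = 0 := indicator_of_notMem (by intro h; linarith [h.2]) _
      have z2 : g2 x = b₀ * (x - m) + b₀ * (κ * (1 - c)) :=
        indicator_of_mem (show x ∈ Ioc _ _ from ⟨by linarith, by linarith⟩) _
      have z3 : g3 x = 0 := indicator_of_notMem (by intro h; linarith [h.1]) _
      have z4 : g4 x = 0 := indicator_of_notMem (by intro h; linarith [h.1]) _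
      rw [ht.D_fk_near κ c2 (by linarith), z1, z2, z3, z4, h₀ x c2 c3]
      ring
    have hfar := ht.D_fk_far κ (x := x) (by linarith)
    rcases le_or_gt x (m + 2) with c4 | c4
    · have z1 : g1 x = 0 := indicator_of_notMem (by intro h; linarith [h.2]) _
      have z2 : g2 x = 0 := indicator_of_notMem (by intro h; linarith [h.2]) _
      have z3 : g3 x = b₁ * (x - m) + b₁ * (κ * (0 - c)) :=
        indicator_of_mem (show x ∈ Ioc _ _ from ⟨by linarith, by linarith⟩) _
      have z4 : g4 x = 0 := indicator_of_notMem (by intro h; linarith [h.1]) _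
      rw [hfar, z1, z2, z3, z4, h₁ x c3 c4]
      ring
    rcases le_or_gt x (m + 3) with c5 | c5
    · have z1 : g1 x = 0 := indicator_of_notMem (by intro h; linarith [h.2]) _
      have z2 : g2 x = 0 := indicator_of_notMem (by intro h; linarith [h.2]) _
      have z3 : g3 x = 0 := indicator_of_notMem (by intro h; linarith [h.2]) _
      have z4 : g4 x = b₂ * (x - m) + b₂ * (κ * (0 - c)) :=
        indicator_of_mem (show x ∈ Ioc _ _ from ⟨by linarith, by linarith⟩) _
      rw [hfar, z1, z2, z3, z4, h₂ x c4 c5]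
      ring
    · have z1 : g1 x = 0 := indicator_of_notMem (by intro h; linarith [h.2]) _
      have z2 : g2 x = 0 := indicator_of_notMem (by intro h; linarith [h.2]) _
      have z3 : g3 x = 0 := indicator_of_notMem (by intro h; linarith [h.2]) _
      have z4 : g4 x = 0 := indicator_of_notMem (by intro h; linarith [h.2]) _
      rw [z1, z2, z3, z4, h₃ x c5]
      ring
  unfold Gen
  rw [integral_congr_ae hpt, eE, e1, e2, e3, e4]
  ring

end gen

section vals
variable {η : Finset ℝ} {m x : ℝ}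

lemma Top.not_P1 (ht : Top η m) {ρ : ℝ} (hx : m + ρ < x) : ¬ P1 ρ x η := by
  rintro ⟨y, hy, hxy⟩
  have := ht.le y hy
  rw [abs_le] at hxy
  linarith

lemma Top.P1_left (ht : Top η m) (h1 : m - 1 < x) (h2 : x < m) : P1 1 x η :=
  ⟨m, ht.mem, by rw [abs_le]; constructor <;> linarith⟩

lemma Top.P1_right (ht : Top η m) {ρ : ℝ} (h1 : m < x) (h2 : x ≤ m + ρ) : P1 ρ x η :=
  ⟨m, ht.mem, by rw [abs_le]; constructor <;> linarith⟩

lemma Top.P2_of_close (ht : Top η m) (hc : Close η) (h1 : m < x) (h2 : x ≤ m + 2) : P2 x η := by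
  obtain ⟨z, hz, hz1, hz2⟩ := hc
  rw [ht.mx_eq] at hz1 hz2
  refine ⟨m, ht.mem, by rw [abs_le]; constructor <;> linarith, z, hz, hz1.ne, ?_⟩
  rw [abs_le]; constructor <;> linarith

lemma Top.not_P2 (ht : Top η m) (hc : ¬ Close η) (h1 : m + 1 < x) : ¬ P2 x η := by
  rintro ⟨y, hy, hxy, z, hz, hzy, hyz⟩
  apply hc
  unfold Close
  rw [ht.mx_eq]
  rw [abs_le] at hxy hyz
  rcases lt_or_eq_of_le (ht.le y hy) with h3 | h3
  · exact ⟨y, hy, h3, by linarith⟩
  · refine ⟨z, hz, lt_of_le_of_ne (ht.le z hz) (by rw [← h3]; exact hzy), by linarith⟩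

lemma rateA_mid (ht : Top η m) (h1 : m + 1 < x) (h2 : x ≤ m + 2) : rateA x η = cl η := by
  by_cases hc : Close η
  · rw [cl_of hc, rateA_one (Or.inr (ht.P2_of_close hc (by linarith) h2))]
  · rw [cl_of_not hc, rateA_zero]
    rintro (h3 | h3)
    · exact ht.not_P1 h1 h3
    · exact ht.not_P2 hc h1 h3

lemma rateA_far (ht : Top η m) (h1 : m + 2 < x) : rateA x η = 0 := by
  by_contra h
  exact ht.not_P1 h1 (rateA_supp h)

/-- the generator of the first process -/
lemma gen_A (hη : η.Nonempty) : Gen rateA (fk (1 / 2)) η = 3 / 2 := by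
  have ht := top_mx hη
  rw [ht.gen_formula (bm := 1) (b₀ := 1) (b₁ := cl η) (b₂ := 0)
    (fun x h1 h2 => rateA_one (Or.inl (ht.P1_left h1 h2)))
    (fun x h1 h2 => rateA_one (Or.inl (ht.P1_right h1 h2)))
    (fun x h1 h2 => rateA_mid ht h1 h2)
    (fun x h1 h2 => rateA_far ht h1)
    (fun x h1 => rateA_far ht (by linarith))]
  by_cases hc : Close η
  · rw [cl_of hc]; norm_num
  · rw [cl_of_not hc]; norm_num

/-- the generator of the second process -/
lemma gen_B (hη : η.Nonempty) : Gen rateB (fk 0) η = 9 / 2 := by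
  have ht := top_mx hη
  rw [ht.gen_formula (bm := 1) (b₀ := 1) (b₁ := 1) (b₂ := 1)
    (fun x h1 h2 => rateB_one ((ht.P1_left h1 h2).mono (by norm_num) (Finset.Subset.refl _)))
    (fun x h1 h2 => rateB_one (ht.P1_right h1 (by linarith)))
    (fun x h1 h2 => rateB_one (ht.P1_right (by linarith) (by linarith)))
    (fun x h1 h2 => rateB_one (ht.P1_right (by linarith) (by linarith)))
    (fun x h1 => rateB_zero (ht.not_P1 h1))]
  norm_num

/-- the generator of the third process -/
lemma gen_AB (hη : η.Nonempty) : Gen rateAB (fk (3 / 14)) η = 41 / 7 := by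
  have ht := top_mx hη
  rw [ht.gen_formula (bm := 2) (b₀ := 2) (b₁ := cl η + 1) (b₂ := 1)
    (fun x h1 h2 => by
      unfold rateAB
      rw [rateA_one (Or.inl (ht.P1_left h1 h2)),
        rateB_one ((ht.P1_left h1 h2).mono (by norm_num) (Finset.Subset.refl _))]
      norm_num)
    (fun x h1 h2 => by
      unfold rateAB
      rw [rateA_one (Or.inl (ht.P1_right h1 h2)), rateB_one (ht.P1_right h1 (by linarith))]
      norm_num)
    (fun x h1 h2 => by
      unfold rateAB
      rw [rateA_mid ht h1 h2, rateB_one (ht.P1_right (by linarith) (by linarith))])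
    (fun x h1 h2 => by
      unfold rateAB
      rw [rateA_far ht h1, rateB_one (ht.P1_right (by linarith) (by linarith)), zero_add])
    (fun x h1 => by
      unfold rateAB
      rw [rateA_far ht (by linarith), rateB_zero (ht.not_P1 h1), zero_add])]
  by_cases hc : Close η
  · rw [cl_of hc]; norm_num
  · rw [cl_of_not hc]; norm_num

end vals

end Pool.Agent.Work.MPe8003b
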