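import Pool.Agent.Work.MP_e8003b_pr.Defs

open MeasureTheory ProbabilityTheory Set Filter Topology
open scoped ENNReal

namespace Pool.Agent.Work.MPe8003b

variable {b : ℝ → Finset ℝ → ℝ}

/-- positions in a history -/
def pos {n : ℕ} (h : Fin n → ℝ × ℝ) : Fin n → ℝ := fun k => (h k).2

lemma measurable_pos {n : ℕ} : Measurable (pos (n := n)) := by
  unfold pos; fun_prop

/-- measurability of rates on configurations -/
def MeasRate (b : ℝ → Finset ℝ → ℝ) : Prop :=
  ∀ n, Measurable (fun p : ℝ × (Fin n → ℝ) => b p.1 (conf p.2))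

/-- measurability of functions on configurations -/
def MeasConf (f : Finset ℝ → ℝ) : Prop := ∀ n, Measurable (fun y : Fin n → ℝ => f (conf y))

lemma measConf_totalRate (hb : MeasRate b) : MeasConf (totalRate b) := by
  intro n
  have h1 : StronglyMeasurable (fun p : (Fin n → ℝ) × ℝ => b p.2 (conf p.1)) := by
    have h2 : Measurable (fun p : (Fin n → ℝ) × ℝ => b p.2 (conf p.1)) :=
      (hb n).comp (measurable_snd.prodMk measurable_fst)
    exact h2.stronglyMeasurable
  exact (h1.integral_prod_right (ν := volume)).measurable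

/-- base measure for (waiting time, place) -/
noncomputable def base : Measure (ℝ × ℝ) := (volume.restrict (Ioi (0:ℝ))).prod volume

instance : SFinite base := by unfold base; infer_instance

/-- density of (waiting time, place) -/
noncomputable def dens (b : ℝ → Finset ℝ → ℝ) {n : ℕ} (h : Fin n → ℝ × ℝ) (z : ℝ × ℝ) : ℝ≥0∞ :=
  ENNReal.ofReal (Real.exp (-totalRate b (conf (pos h)) * z.1) * b z.2 (conf (pos h)))

lemma measurable_dens (hb : MeasRate b) (n : ℕ) :
    Measurable (Function.uncurry (dens b (n := n))) := by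
  unfold dens Function.uncurry
  apply Measurable.ennreal_ofReal
  apply Measurable.mul
  · apply Real.measurable_exp.comp
    apply Measurable.mul
    · apply Measurable.neg
      exact ((measConf_totalRate hb n).comp measurable_pos).comp measurable_fst
    · exact measurable_fst.comp measurable_snd
  · exact (hb n).comp ((measurable_snd.comp measurable_snd).prodMk
      (measurable_pos.comp measurable_fst))

lemma measurable_dens_right (hb : MeasRate b) {n : ℕ} (h : Fin n → ℝ × ℝ) :
    Measurable (dens b h) := (measurable_dens hb n).of_uncurry_left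

/-- law of (waiting time, place) given the history -/
noncomputable def waitK (b : ℝ → Finset ℝ → ℝ) (n : ℕ) : Kernel (Fin (n+1) → ℝ × ℝ) (ℝ × ℝ) :=
  Kernel.withDensity (Kernel.const _ base) (dens b)

instance (n : ℕ) : IsSFiniteKernel (waitK b n) := by
  unfold waitK
  by_cases h : Measurable (Function.uncurry (dens b (n := n+1)))
  · apply Kernel.IsSFiniteKernel.withDensity
    intro a z
    unfold dens
    exact ENNReal.ofReal_ne_top
  · rw [Kernel.withDensity_of_not_measurable _ h]
    infer_instance

/-- map (history, (waiting time, place)) ↦ (birth time, place) -/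
def shiftMap (n : ℕ) (p : (Fin (n+1) → ℝ × ℝ) × (ℝ × ℝ)) : ℝ × ℝ :=
  ((p.1 (Fin.last n)).1 + p.2.1, p.2.2)

lemma measurable_shiftMap (n : ℕ) : Measurable (shiftMap n) := by
  unfold shiftMap; fun_prop

/-- law of (birth time, place) given the history -/
noncomputable def stepK (b : ℝ → Finset ℝ → ℝ) (n : ℕ) : Kernel (Fin (n+1) → ℝ × ℝ) (ℝ × ℝ) :=
  (Kernel.id ×ₖ waitK b n).map (shiftMap n)

instance (n : ℕ) : IsSFiniteKernel (stepK b n) := by
  unfold stepK; infer_instance

lemma lintegral_waitK (hb : MeasRate b) (n : ℕ) (h : Fin (n+1) → ℝ × ℝ) {g : ℝ × ℝ → ℝ≥0∞}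
    (hg : Measurable g) :
    ∫⁻ z, g z ∂(waitK b n h) = ∫⁻ τ in Ioi (0:ℝ), ∫⁻ x : ℝ, g (τ, x) * dens b h (τ, x) := by
  unfold waitK
  rw [Kernel.lintegral_withDensity _ (measurable_dens hb _) _ hg, Kernel.const_apply]
  unfold base
  rw [lintegral_prod]
  · simp only [mul_comm]
  · apply Measurable.aemeasurable
    exact (measurable_dens_right hb h).mul hg

lemma lintegral_stepK (hb : MeasRate b) (n : ℕ) (h : Fin (n+1) → ℝ × ℝ) {g : ℝ × ℝ → ℝ≥0∞}
    (hg : Measurable g) :
    ∫⁻ z, g z ∂(stepK b n h) =
      ∫⁻ τ in Ioi (0:ℝ), ∫⁻ x : ℝ, g ((h (Fin.last n)).1 + τ, x) * dens b h (τ, x) := by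
  unfold stepK
  rw [Kernel.map_apply _ (measurable_shiftMap n), lintegral_map hg (measurable_shiftMap n)]
  have h3 : Measurable (fun z => g (shiftMap n z)) := hg.comp (measurable_shiftMap n)
  rw [Kernel.prod_apply, lintegral_prod _ h3.aemeasurable]
  rw [Kernel.id_apply, lintegral_dirac']
  · have h4 : Measurable (fun z : ℝ × ℝ => g ((h (Fin.last n)).1 + z.1, z.2)) := by
      apply hg.comp
      fun_prop
    exact lintegral_waitK hb n h h4
  · exact h3.lintegral_prod_right'

end Pool.Agent.Work.MPe8003b
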