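import Pool.Agent.Work.MP_e8003b_pr.Mart1

open MeasureTheory ProbabilityTheory Set Filter Topology
open scoped ENNReal

namespace Pool.Agent.Work.MPe8003b

variable {b : ℝ → Finset ℝ → ℝ} {q₀ A : ℝ}

/-- weights -/
noncomputable def wt (K t : ℝ) : ℝ := (1 + K * |t|)⁻¹

lemma wt_pos {K : ℝ} (hK : 0 < K) (t : ℝ) : 0 < wt K t := by
  unfold wt; positivity

lemma wt_le_one {K : ℝ} (hK : 0 < K) (t : ℝ) : wt K t ≤ 1 := by
  unfold wt
  apply inv_le_one_of_one_le₀
  have : 0 ≤ K * |t| := by positivity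
  linarith

lemma measurable_wt (K : ℝ) : Measurable (wt K) := by
  unfold wt
  apply Measurable.inv
  apply Measurable.const_add
  apply Measurable.const_mul
  exact continuous_abs.measurable

lemma wt_sub_ge {K t τ : ℝ} (hK : 0 < K) (ht : 0 ≤ t) (hτ : 0 < τ) :
    (wt K t) ^ 2 * (K * τ - K ^ 2 * τ ^ 2) ≤ wt K t - wt K (t + τ) := by
  unfold wt
  rw [abs_of_nonneg ht, abs_of_nonneg (by linarith)]
  have hu : 1 ≤ 1 + K * t := by nlinarith [mul_nonneg hK.le ht]
  have hv : 0 < K * τ := mul_pos hK hτ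
  set u := 1 + K * t with hu'
  set v := K * τ with hv'
  have e1 : 1 + K * (t + τ) = u + v := by rw [hu', hv']; ring
  have e2 : K * τ - K ^ 2 * τ ^ 2 = v - v ^ 2 := by rw [hv']; ring
  rw [e1, show K ^ 2 * τ ^ 2 = v ^ 2 by rw [hv']; ring]
  have hu0 : 0 < u := by linarith
  have huv : 0 < u + v := by linarith
  have e3 : u⁻¹ - (u + v)⁻¹ = v / (u * (u + v)) := by
    field_simp
    ring
  have e4 : u⁻¹ ^ 2 * (v - v ^ 2) = (v - v ^ 2) / u ^ 2 := by
    field_simp
  rw [e3, e4, div_le_div_iff₀ (by positivity) (by positivity)]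
  have : 0 ≤ v * (u + v - 1) := mul_nonneg hv.le (by linarith)
  nlinarith [mul_nonneg (mul_nonneg hv.le hu0.le) this, mul_nonneg hu0.le this,
    mul_nonneg hv.le this]

/-- weighted compensated jump -/
noncomputable def wa (K : ℝ) (b : ℝ → Finset ℝ → ℝ) (f : Finset ℝ → ℝ) {n : ℕ}
    (p : (Fin (n+1) → ℝ × ℝ) × (ℝ × ℝ)) : ℝ :=
  wt K (p.1 (Fin.last n)).1 * aG b f p

lemma measurable_wa (K : ℝ) (hb : MeasRate b) {f : Finset ℝ → ℝ} (hf : MeasConf f) (n : ℕ) :
    Measurable (wa K b f (n := n)) := by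
  unfold wa
  apply Measurable.mul
  · apply (measurable_wt K).comp
    fun_prop
  · exact measurable_aG hb hf n

/-- the martingale -/
noncomputable def Z (K : ℝ) (b : ℝ → Finset ℝ → ℝ) (f : Finset ℝ → ℝ) {Ω : Type}
    (T Y : ℕ → Ω → ℝ) (n : ℕ) (ω : Ω) : ℝ :=
  ∑ k ∈ Finset.range n, wa K b f (hist T Y k ω, inc T Y k ω)

section
variable {Ω : Type} [mΩ : MeasurableSpace Ω] {P : Measure Ω} {T Y : ℕ → Ω → ℝ}
  (hP : IsBirthProcess b P T Y) (gb : GoodRate b q₀ A) {f : Finset ℝ → ℝ} {C : ℝ}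
  (gf : GoodFun b f C)
include hP gb

lemma IsBirthProcess.integrable_of_nonneg {n : ℕ} {G : (Fin (n+1) → ℝ × ℝ) × (ℝ × ℝ) → ℝ}
    (hG : Measurable G) (h0 : ∀ p, 0 ≤ G p)
    (h1 : ∀ h, Integrable (fun z => G (h, z)) (waitK b n h)) {c : ℝ}
    (h2 : ∀ h, ∫ z, G (h, z) ∂(waitK b n h) ≤ c) :
    Integrable (fun ω => G (hist T Y n ω, inc T Y n ω)) P := by
  have := hP.prob
  have hm := hP.measurable_histinc n
  refine ⟨(hG.comp hm).aestronglyMeasurable, ?_⟩
  rw [hasFiniteIntegral_iff_ofReal (ae_of_all _ fun ω => h0 _)]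
  have h3 := hP.lintegral_inc gb.meas n (G := fun p => ENNReal.ofReal (G p)) hG.ennreal_ofReal
  rw [h3]
  have h4 : ∀ ω, ∫⁻ z, ENNReal.ofReal (G (hist T Y n ω, z)) ∂(waitK b n (hist T Y n ω)) ≤
      ENNReal.ofReal c := by
    intro ω
    rw [← ofReal_integral_eq_lintegral_ofReal (h1 _) (ae_of_all _ fun z => h0 _)]
    exact ENNReal.ofReal_le_ofReal (h2 _)
  calc _ ≤ ∫⁻ _ω, ENNReal.ofReal c ∂P := lintegral_mono h4
    _ = ENNReal.ofReal c := by simp
    _ < ∞ := ENNReal.ofReal_lt_top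

include gf

omit hP in
lemma C_nonneg : 0 ≤ C := by
  refine le_trans ?_ (gf.le {0} (by simp))
  exact integral_nonneg fun x => mul_nonneg (sq_nonneg _) (gb.nonneg _ _)

lemma IsBirthProcess.integrable_aG_sq (n : ℕ) :
    Integrable (fun ω => (aG b f (hist T Y n ω, inc T Y n ω)) ^ 2) P := by
  apply hP.integrable_of_nonneg gb (G := fun p => (aG b f p) ^ 2)
    ((measurable_aG gb.meas gf.meas n).pow_const 2) (fun p => sq_nonneg _)
    (fun h => gb.integrable_aG_sq gf h) (c := C / q₀)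
  intro h
  refine (gb.integral_aG_sq gf h).trans ?_
  have h1 := gb.lo _ (conf_nonempty (pos h))
  have := C_nonneg gb gf
  have := gb.q₀_pos
  gcongr

lemma IsBirthProcess.integrable_wa_sq {K : ℝ} (hK : 0 < K) (n : ℕ) :
    Integrable (fun ω => (wa K b f (hist T Y n ω, inc T Y n ω)) ^ 2) P := by
  refine (hP.integrable_aG_sq gb gf n).mono'
    (((measurable_wa K gb.meas gf.meas n).comp
      (hP.measurable_histinc n)).pow_const 2).aestronglyMeasurable ?_
  filter_upwards with ω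
  rw [Real.norm_eq_abs, abs_of_nonneg (sq_nonneg _)]
  unfold wa
  rw [mul_pow]
  have h1 := wt_pos hK (hist T Y n ω (Fin.last n)).1
  have h2 := wt_le_one hK (hist T Y n ω (Fin.last n)).1
  have h3 : (wt K (hist T Y n ω (Fin.last n)).1) ^ 2 ≤ 1 := by nlinarith
  calc _ ≤ 1 * aG b f (hist T Y n ω, inc T Y n ω) ^ 2 :=
        mul_le_mul_of_nonneg_right h3 (sq_nonneg _)
    _ = _ := one_mul _

lemma IsBirthProcess.memLp_wa {K : ℝ} (hK : 0 < K) (n : ℕ) :
    MemLp (fun ω => wa K b f (hist T Y n ω, inc T Y n ω)) 2 P := by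
  rw [memLp_two_iff_integrable_sq]
  · exact hP.integrable_wa_sq gb gf hK n
  · exact ((measurable_wa K gb.meas gf.meas n).comp
      (hP.measurable_histinc n)).aestronglyMeasurable

lemma IsBirthProcess.memLp_Z {K : ℝ} (hK : 0 < K) (n : ℕ) : MemLp (Z K b f T Y n) 2 P := by
  unfold Z
  exact memLp_finsetSum _ fun k _ => hP.memLp_wa gb gf hK k

lemma IsBirthProcess.integrable_wa {K : ℝ} (hK : 0 < K) (n : ℕ) :
    Integrable (fun ω => wa K b f (hist T Y n ω, inc T Y n ω)) P := by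
  have := hP.prob
  exact (hP.memLp_wa gb gf hK n).integrable (by norm_num)

lemma IsBirthProcess.integrable_Z {K : ℝ} (hK : 0 < K) (n : ℕ) :
    Integrable (Z K b f T Y n) P := by
  have := hP.prob
  exact (hP.memLp_Z gb gf hK n).integrable (by norm_num)

lemma IsBirthProcess.measurable_Z (K : ℝ) (n : ℕ) : Measurable[Fil hP n] (Z K b f T Y n) := by
  unfold Z
  apply Finset.measurable_fun_sum
  intro k hk
  exact (measurable_wa K gb.meas gf.meas k).comp
    (measurable_histinc_Fil hP (Finset.mem_range.mp hk))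

lemma IsBirthProcess.condExp_wa {K : ℝ} (hK : 0 < K) (n : ℕ) :
    P[fun ω => wa K b f (hist T Y n ω, inc T Y n ω) | Fil hP n] =ᵐ[P] 0 := by
  refine (hP.condExp_inc gb (measurable_wa K gb.meas gf.meas n)
    (hP.integrable_wa gb gf hK n)).trans ?_
  filter_upwards with ω
  unfold wa
  simp only
  rw [integral_const_mul, gb.integral_aG gf, mul_zero]
  rfl

lemma IsBirthProcess.martingale_Z {K : ℝ} (hK : 0 < K) :
    Martingale (Z K b f T Y) (Fil hP) P := by
  have := hP.prob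
  apply martingale_of_condExp_sub_eq_zero_nat
  · intro n
    exact (hP.measurable_Z gb gf K n).stronglyMeasurable
  · exact hP.integrable_Z gb gf hK
  · intro n
    have h1 : Z K b f T Y (n+1) - Z K b f T Y n =
        fun ω => wa K b f (hist T Y n ω, inc T Y n ω) := by
      ext ω
      simp only [Z, Pi.sub_apply, Finset.sum_range_succ]
      ring
    rw [h1]
    exact hP.condExp_wa gb gf hK n

lemma IsBirthProcess.cross {K : ℝ} (hK : 0 < K) (n : ℕ) :
    ∫ ω, Z K b f T Y n ω * wa K b f (hist T Y n ω, inc T Y n ω) ∂P = 0 := by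
  have := hP.prob
  have hZ : StronglyMeasurable[Fil hP n] (Z K b f T Y n) :=
    (hP.measurable_Z gb gf K n).stronglyMeasurable
  have hint : Integrable (Z K b f T Y n * fun ω => wa K b f (hist T Y n ω, inc T Y n ω)) P :=
    (hP.memLp_Z gb gf hK n).integrable_mul (hP.memLp_wa gb gf hK n)
  have h1 := condExp_mul_of_stronglyMeasurable_left hZ hint (hP.integrable_wa gb gf hK n)
  have h2 : ∫ ω, (P[Z K b f T Y n * fun ω => wa K b f (hist T Y n ω, inc T Y n ω) | Fil hP n]) ω ∂P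
      = ∫ ω, (Z K b f T Y n * fun ω => wa K b f (hist T Y n ω, inc T Y n ω)) ω ∂P :=
    integral_condExp ((Fil hP).le n)
  have h3 : ∫ ω, (Z K b f T Y n * fun ω => wa K b f (hist T Y n ω, inc T Y n ω)) ω ∂P = 0 := by
    rw [← h2]
    have h4 : (P[Z K b f T Y n * fun ω => wa K b f (hist T Y n ω, inc T Y n ω) | Fil hP n])
        =ᵐ[P] fun _ => (0:ℝ) := by
      filter_upwards [h1, hP.condExp_wa gb gf hK n] with ω h5 h6
      rw [h5, Pi.mul_apply, h6]
      simp
    rw [integral_congr_ae h4]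
    simp
  exact h3

end

end Pool.Agent.Work.MPe8003b
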