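import Pool.Agent.Work.MP_e8003b_pr.Mart2

open MeasureTheory ProbabilityTheory Set Filter Topology
open scoped ENNReal

namespace Pool.Agent.Work.MPe8003b

variable {b : ℝ → Finset ℝ → ℝ} {q₀ A : ℝ}

section
variable {Ω : Type} [mΩ : MeasurableSpace Ω] {P : Measure Ω} {T Y : ℕ → Ω → ℝ}
  (hP : IsBirthProcess b P T Y) (gb : GoodRate b q₀ A) {f : Finset ℝ → ℝ} {C : ℝ}
  (gf : GoodFun b f C)
include hP gb

omit gb in
lemma IsBirthProcess.measurable_q (hb : MeasRate b) (n : ℕ) :
    Measurable (fun ω => totalRate b (confAt Y n ω)) := by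
  have h1 := (measConf_totalRate hb (n+1)).comp
    (measurable_pos.comp (hP.measurable_hist n))
  exact h1

lemma IsBirthProcess.integrable_wsq {K : ℝ} (hK : 0 < K) (c : ℝ) (n : ℕ) :
    Integrable (fun ω => (wt K (T n ω)) ^ 2 * (c / totalRate b (confAt Y n ω))) P := by
  have := hP.prob
  have hm : Measurable (fun ω => (wt K (T n ω)) ^ 2 * (c / totalRate b (confAt Y n ω))) :=
    (((measurable_wt K).comp (hP.measT n)).pow_const 2).mul
      (measurable_const.div (hP.measurable_q gb.meas n))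
  refine Integrable.of_bound hm.aestronglyMeasurable (|c| / q₀) ?_
  filter_upwards with ω
  have h1 := wt_pos hK (T n ω)
  have h2 := wt_le_one hK (T n ω)
  have h3 : (wt K (T n ω)) ^ 2 ≤ 1 := by nlinarith
  have h4 : q₀ ≤ totalRate b (confAt Y n ω) := gb.lo _ (conf_nonempty _)
  have h5 := gb.q₀_pos
  rw [norm_mul, norm_div, Real.norm_eq_abs, Real.norm_eq_abs, Real.norm_eq_abs,
    abs_of_nonneg (sq_nonneg _), abs_of_pos (lt_of_lt_of_le h5 h4)]
  calc _ ≤ 1 * (|c| / totalRate b (confAt Y n ω)) := by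
        apply mul_le_mul_of_nonneg_right h3
        have := lt_of_lt_of_le h5 h4
        positivity
    _ ≤ 1 * (|c| / q₀) := by gcongr
    _ = _ := one_mul _

lemma IsBirthProcess.integral_wa_sq (gf : GoodFun b f C) {K : ℝ} (hK : 0 < K) (n : ℕ) :
    ∫ ω, (wa K b f (hist T Y n ω, inc T Y n ω)) ^ 2 ∂P ≤
      ∫ ω, (wt K (T n ω)) ^ 2 * (C / totalRate b (confAt Y n ω)) ∂P := by
  rw [hP.integral_inc gb.meas (G := fun p => (wa K b f p) ^ 2)
    ((measurable_wa K gb.meas gf.meas n).pow_const 2) (hP.integrable_wa_sq gb gf hK n)]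
  apply integral_mono
  · exact hP.integrable_inner gb (G := fun p => (wa K b f p) ^ 2)
      ((measurable_wa K gb.meas gf.meas n).pow_const 2) (hP.integrable_wa_sq gb gf hK n)
  · exact hP.integrable_wsq gb hK C n
  · intro ω
    simp only
    have h1 : ∀ z, (wa K b f (hist T Y n ω, z)) ^ 2 =
        (wt K (T n ω)) ^ 2 * (aG b f (hist T Y n ω, z)) ^ 2 := by
      intro z
      unfold wa
      have : ((hist T Y n ω, z).1 (Fin.last n)).1 = T n ω := by simp [hist]
      rw [this]
      ring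
    simp only [h1]
    rw [integral_const_mul]
    apply mul_le_mul_of_nonneg_left _ (sq_nonneg _)
    exact gb.integral_aG_sq gf (hist T Y n ω)

omit gb in
lemma IsBirthProcess.integrable_wt {K : ℝ} (hK : 0 < K) (n : ℕ) :
    Integrable (fun ω => wt K (T n ω)) P := by
  have := hP.prob
  refine Integrable.of_bound ((measurable_wt K).comp (hP.measT n)).aestronglyMeasurable 1 ?_
  filter_upwards with ω
  rw [Real.norm_eq_abs, abs_of_pos (wt_pos hK _)]
  exact wt_le_one hK _

lemma IsBirthProcess.integral_wt_sub {K : ℝ} (hK : 0 < K) (hKq : 4 * K ≤ q₀) (n : ℕ) :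
    ∫ ω, (wt K (T n ω)) ^ 2 * ((K / 2) / totalRate b (confAt Y n ω)) ∂P ≤
    ∫ ω, (wt K (T n ω) - wt K (T (n+1) ω)) ∂P := by
  have hmark : IsMarkovKernel (waitK b n) := gb.isMarkov
  have := hP.prob
  let G : (Fin (n+1) → ℝ × ℝ) × (ℝ × ℝ) → ℝ := fun p =>
    wt K (p.1 (Fin.last n)).1 - wt K ((p.1 (Fin.last n)).1 + p.2.1)
  have hG : Measurable G := by
    apply Measurable.sub
    · apply (measurable_wt K).comp
      fun_prop
    · apply (measurable_wt K).comp
      fun_prop
  have e1 : ∀ ω, wt K (T n ω) - wt K (T (n+1) ω) = G (hist T Y n ω, inc T Y n ω) := by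
    intro ω
    simp [G, hist, inc]
  have hint : Integrable (fun ω => G (hist T Y n ω, inc T Y n ω)) P := by
    simp only [← e1]
    exact (hP.integrable_wt hK n).sub (hP.integrable_wt hK (n+1))
  simp only [e1]
  rw [hP.integral_inc gb.meas hG hint]
  apply integral_mono_ae
  · exact hP.integrable_wsq gb hK (K/2) n
  · exact hP.integrable_inner gb hG hint
  · filter_upwards [hP.ae_nonneg gb.meas] with ω hω
    have ht := hω n
    set h := hist T Y n ω with hh
    have hq : q₀ ≤ totalRate b (conf (pos h)) := gb.lo _ (conf_nonempty _)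
    have hq0 := gb.q₀_pos
    have hqp : 0 < totalRate b (conf (pos h)) := lt_of_lt_of_le hq0 hq
    have e2 : totalRate b (confAt Y n ω) = totalRate b (conf (pos h)) := rfl
    have e3 : T n ω = (h (Fin.last n)).1 := by simp [hh, hist]
    rw [e2, e3]
    rw [e3] at ht
    set t := (h (Fin.last n)).1 with htdef
    set q := totalRate b (conf (pos h)) with hqdef
    have i1 : Integrable (fun z : ℝ × ℝ => (wt K t) ^ 2 * (K * z.1 - K ^ 2 * z.1 ^ 2))
        (waitK b n h) := by
      apply Integrable.const_mul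
      exact ((gb.integrable_fst h).const_mul _).sub ((gb.integrable_fst_pow h 2).const_mul _)
    have i2 : Integrable (fun z : ℝ × ℝ => G (h, z)) (waitK b n h) := by
      refine Integrable.of_bound (hG.comp measurable_prodMk_left).aestronglyMeasurable 1 ?_
      filter_upwards with z
      simp only [G]
      have a1 := wt_pos hK (h (Fin.last n)).1
      have a2 := wt_le_one hK (h (Fin.last n)).1
      have a3 := wt_pos hK ((h (Fin.last n)).1 + z.1)
      have a4 := wt_le_one hK ((h (Fin.last n)).1 + z.1)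
      rw [Real.norm_eq_abs, abs_le]
      constructor <;> linarith
    have h1 : ∫ z, (wt K t) ^ 2 * (K * z.1 - K ^ 2 * z.1 ^ 2) ∂(waitK b n h) ≤
        ∫ z, G (h, z) ∂(waitK b n h) := by
      apply integral_mono_ae i1 i2
      filter_upwards [ae_waitK_pos gb.meas h] with z hz
      exact wt_sub_ge hK ht hz
    refine le_trans ?_ h1
    rw [integral_const_mul, integral_sub ((gb.integrable_fst h).const_mul _)
      ((gb.integrable_fst_pow h 2).const_mul _), integral_const_mul, integral_const_mul,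
      gb.integral_fst h, gb.integral_fst_sq h, ← hqdef]
    apply mul_le_mul_of_nonneg_left _ (sq_nonneg _)
    have e5 : K * (1 / q) - K ^ 2 * (2 / q ^ 2) = (K * q - 2 * K ^ 2) / q ^ 2 := by
      field_simp
    have e6 : K / 2 / q = (K / 2 * q) / q ^ 2 := by
      field_simp
    rw [e5, e6]
    apply div_le_div_of_nonneg_right _ (by positivity)
    have : 4 * K ≤ q := hKq.trans hq
    nlinarith

include gf

lemma IsBirthProcess.energy {K : ℝ} (hK : 0 < K) (hKq : 4 * K ≤ q₀) (n : ℕ) :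
    ∫ ω, (Z K b f T Y n ω) ^ 2 ∂P + (2 * C / K) * ∫ ω, wt K (T n ω) ∂P ≤ 2 * C / K := by
  have := hP.prob
  have hC := C_nonneg gb gf
  induction n with
  | zero =>
    have h1 : ∀ ω, Z K b f T Y 0 ω = 0 := by intro ω; simp [Z]
    have h2 : ∀ ω, wt K (T 0 ω) = 1 := by intro ω; rw [hP.initT]; simp [wt]
    simp [h1, h2]
  | succ n ih =>
    have i1 : Integrable (fun ω => (Z K b f T Y n ω) ^ 2) P := (hP.memLp_Z gb gf hK n).integrable_sq
    have i2 : Integrable (fun ω => 2 * (Z K b f T Y n ω *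
        wa K b f (hist T Y n ω, inc T Y n ω))) P :=
      ((hP.memLp_Z gb gf hK n).integrable_mul (hP.memLp_wa gb gf hK n)).const_mul 2
    have i3 := hP.integrable_wa_sq gb gf hK n
    have e1 : ∫ ω, (Z K b f T Y (n+1) ω) ^ 2 ∂P = ∫ ω, (Z K b f T Y n ω) ^ 2 ∂P +
        ∫ ω, (wa K b f (hist T Y n ω, inc T Y n ω)) ^ 2 ∂P := by
      have e2 : ∀ ω, (Z K b f T Y (n+1) ω) ^ 2 = ((Z K b f T Y n ω) ^ 2 + 2 * (Z K b f T Y n ω *
          wa K b f (hist T Y n ω, inc T Y n ω))) + (wa K b f (hist T Y n ω, inc T Y n ω)) ^ 2 := by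
        intro ω
        simp only [Z, Finset.sum_range_succ]
        ring
      simp only [e2]
      have e3 := integral_add (f := fun ω => (Z K b f T Y n ω) ^ 2 + 2 * (Z K b f T Y n ω *
          wa K b f (hist T Y n ω, inc T Y n ω))) (i1.add i2) i3
      rw [e3, integral_add i1 i2, integral_const_mul, hP.cross gb gf hK n]
      ring
    have e4 : ∫ ω, (wt K (T n ω) - wt K (T (n+1) ω)) ∂P =
        ∫ ω, wt K (T n ω) ∂P - ∫ ω, wt K (T (n+1) ω) ∂P :=
      integral_sub (hP.integrable_wt hK n) (hP.integrable_wt hK (n+1))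
    have h1 := hP.integral_wa_sq gb gf hK n
    have h2 := hP.integral_wt_sub gb hK hKq n
    rw [e4] at h2
    have e5 : ∫ ω, (wt K (T n ω)) ^ 2 * (C / totalRate b (confAt Y n ω)) ∂P =
        (2 * C / K) * ∫ ω, (wt K (T n ω)) ^ 2 * ((K / 2) / totalRate b (confAt Y n ω)) ∂P := by
      rw [← integral_const_mul]
      congr 1
      ext ω
      field_simp
    rw [e5] at h1
    have h3 := mul_le_mul_of_nonneg_left h2 (show 0 ≤ 2 * C / K by positivity)
    rw [e1]
    nlinarith

lemma IsBirthProcess.Z_converges {K : ℝ} (hK : 0 < K) (hKq : 4 * K ≤ q₀) :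
    ∀ᵐ ω ∂P, ∃ c, Tendsto (fun n => Z K b f T Y n ω) atTop (𝓝 c) := by
  have := hP.prob
  have hC := C_nonneg gb gf
  apply (hP.martingale_Z gb gf hK).submartingale.exists_ae_tendsto_of_bdd
    (R := Real.toNNReal (1 + 2 * C / K))
  intro n
  rw [eLpNorm_one_eq_lintegral_enorm]
  have h1 : ∫⁻ ω, ‖Z K b f T Y n ω‖ₑ ∂P ≤
      ∫⁻ ω, ENNReal.ofReal (1 + (Z K b f T Y n ω) ^ 2) ∂P := by
    apply lintegral_mono
    intro ω
    simp only
    rw [Real.enorm_eq_ofReal_abs]
    apply ENNReal.ofReal_le_ofReal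
    rw [← sq_abs (Z K b f T Y n ω)]
    nlinarith [sq_nonneg (|Z K b f T Y n ω| - 1), abs_nonneg (Z K b f T Y n ω)]
  refine h1.trans ?_
  have i1 : Integrable (fun ω => (Z K b f T Y n ω) ^ 2) P := (hP.memLp_Z gb gf hK n).integrable_sq
  have i4 : Integrable (fun ω => 1 + (Z K b f T Y n ω) ^ 2) P := (integrable_const 1).add i1
  rw [← ofReal_integral_eq_lintegral_ofReal i4 (ae_of_all _ fun ω => by positivity)]
  change ENNReal.ofReal _ ≤ ENNReal.ofReal (1 + 2 * C / K)
  apply ENNReal.ofReal_le_ofReal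
  rw [integral_add (integrable_const 1) i1]
  have h2 := hP.energy gb gf hK hKq n
  have h3 : 0 ≤ ∫ ω, wt K (T n ω) ∂P := integral_nonneg fun ω => (wt_pos hK _).le
  have h4 : 0 ≤ (2 * C / K) * ∫ ω, wt K (T n ω) ∂P := by positivity
  simp
  linarith

end

end Pool.Agent.Work.MPe8003b
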