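import Pool.Agent.Work.MP_e8003b_pr.Step

open MeasureTheory ProbabilityTheory Set Filter Topology
open scoped ENNReal

namespace Pool.Agent.Work.MPe8003b

variable {b : ℝ → Finset ℝ → ℝ}

/-- basic quantitative properties of a rate -/
structure GoodRate (b : ℝ → Finset ℝ → ℝ) (q₀ A : ℝ) : Prop where
  meas : MeasRate b
  nonneg : ∀ x η, 0 ≤ b x η
  integ : ∀ η, Integrable (fun x => b x η)
  q₀_pos : 0 < q₀
  lo : ∀ η : Finset ℝ, η.Nonempty → q₀ ≤ totalRate b η
  hi : ∀ η, totalRate b η ≤ A * η.card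

variable {q₀ A : ℝ}

lemma conf_nonempty {n : ℕ} (y : Fin (n+1) → ℝ) : (conf y).Nonempty :=
  ⟨y 0, by simp [conf]⟩

lemma GoodRate.q_pos (gb : GoodRate b q₀ A) {η : Finset ℝ} (h : η.Nonempty) :
    0 < totalRate b η := lt_of_lt_of_le gb.q₀_pos (gb.lo η h)

section exps
variable {q : ℝ}

lemma iexp0 (hq : 0 < q) : IntegrableOn (fun τ : ℝ => Real.exp (-q * τ) * 1) (Ioi 0) := by
  simpa using integrableOn_exp_mul_Ioi (neg_lt_zero.mpr hq) 0

lemma iexpn (hq : 0 < q) (k : ℕ) :
    IntegrableOn (fun τ : ℝ => Real.exp (-q * τ) * τ ^ k) (Ioi 0) := by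
  have h := integrableOn_rpow_mul_exp_neg_mul_rpow (p := 1) (s := k) (b := q)
    (by have : (0:ℝ) ≤ k := Nat.cast_nonneg k
        linarith) one_pos hq
  refine h.congr_fun ?_ measurableSet_Ioi
  intro x _
  simp [mul_comm]

lemma intexp0 (hq : 0 < q) : ∫ τ in Ioi (0:ℝ), Real.exp (-q * τ) * 1 = 1 / q := by
  have h := Real.integral_rpow_mul_exp_neg_mul_Ioi (a := 1) (r := q) one_pos hq
  simp only [sub_self, Real.rpow_zero, one_mul, Real.rpow_one, Real.Gamma_one, mul_one] at h
  simpa using h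

lemma intexp1 (hq : 0 < q) : ∫ τ in Ioi (0:ℝ), Real.exp (-q * τ) * τ = 1 / q ^ 2 := by
  have h := Real.integral_rpow_mul_exp_neg_mul_Ioi (a := 2) (r := q) two_pos hq
  have h2 : Real.Gamma 2 = 1 := by
    have := Real.Gamma_nat_eq_factorial 1
    rw [show ((1:ℕ):ℝ) + 1 = 2 by norm_num] at this
    rw [this]; norm_num [Nat.factorial]
  rw [h2] at h
  rw [mul_one] at h
  have h3 : (1 / q) ^ (2:ℝ) = 1 / q ^ 2 := by
    rw [show (2:ℝ) = ((2:ℕ):ℝ) by norm_num, Real.rpow_natCast]
    simp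
  rw [h3] at h
  rw [← h]
  apply setIntegral_congr_fun measurableSet_Ioi
  intro x _
  simp only
  rw [show (2:ℝ) - 1 = 1 by norm_num, Real.rpow_one]
  rw [mul_comm]
  simp

lemma intexp2 (hq : 0 < q) : ∫ τ in Ioi (0:ℝ), Real.exp (-q * τ) * τ ^ 2 = 2 / q ^ 3 := by
  have h := Real.integral_rpow_mul_exp_neg_mul_Ioi (a := 3) (r := q) three_pos hq
  have h2 : Real.Gamma 3 = 2 := by
    have := Real.Gamma_nat_eq_factorial 2
    rw [show ((2:ℕ):ℝ) + 1 = 3 by norm_num] at this
    rw [this]; norm_num [Nat.factorial]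
  rw [h2] at h
  have h3 : (1 / q) ^ (3:ℝ) = 1 / q ^ 3 := by
    rw [show (3:ℝ) = ((3:ℕ):ℝ) by norm_num, Real.rpow_natCast]
    simp
  rw [h3] at h
  rw [show 2 / q ^ 3 = 1 / q ^ 3 * 2 by ring, ← h]
  apply setIntegral_congr_fun measurableSet_Ioi
  intro x _
  simp only
  rw [show (3:ℝ) - 1 = ((2:ℕ):ℝ) by norm_num, Real.rpow_natCast]
  rw [mul_comm]
  simp

end exps

section wait
variable (gb : GoodRate b q₀ A) {n : ℕ} (h : Fin (n+1) → ℝ × ℝ)
include gb

lemma GoodRate.toReal_dens (z : ℝ × ℝ) : (dens b h z).toReal =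
    Real.exp (-totalRate b (conf (pos h)) * z.1) * b z.2 (conf (pos h)) := by
  unfold dens
  rw [ENNReal.toReal_ofReal]
  exact mul_nonneg (Real.exp_pos _).le (gb.nonneg _ _)

lemma GoodRate.integral_waitK (F : ℝ × ℝ → ℝ) :
    ∫ z, F z ∂(waitK b n h) =
    ∫ z, (Real.exp (-totalRate b (conf (pos h)) * z.1) * b z.2 (conf (pos h))) * F z ∂base := by
  unfold waitK
  rw [Kernel.withDensity_apply _ (measurable_dens gb.meas _),
    integral_withDensity_eq_integral_toReal_smul (measurable_dens_right gb.meas h)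
      (ae_of_all _ fun _ => ENNReal.ofReal_lt_top)]
  apply integral_congr_ae
  filter_upwards with z
  rw [gb.toReal_dens h z, smul_eq_mul]

lemma GoodRate.integrable_waitK_iff (F : ℝ × ℝ → ℝ) :
    Integrable F (waitK b n h) ↔
    Integrable (fun z => (Real.exp (-totalRate b (conf (pos h)) * z.1) *
      b z.2 (conf (pos h))) * F z) base := by
  unfold waitK
  rw [Kernel.withDensity_apply _ (measurable_dens gb.meas _),
    integrable_withDensity_iff_integrable_smul' (measurable_dens_right gb.meas h)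
      (ae_of_all _ fun _ => ENNReal.ofReal_lt_top)]
  apply integrable_congr
  filter_upwards with z
  rw [gb.toReal_dens h z, smul_eq_mul]

lemma GoodRate.integral_waitK_mul (ψ φ : ℝ → ℝ) :
    ∫ z, ψ z.1 * φ z.2 ∂(waitK b n h) =
    (∫ τ in Ioi (0:ℝ), Real.exp (-totalRate b (conf (pos h)) * τ) * ψ τ) *
      (∫ x, φ x * b x (conf (pos h))) := by
  rw [gb.integral_waitK h]
  rw [← integral_prod_mul]
  apply integral_congr_ae
  filter_upwards with z
  ring

lemma GoodRate.integrable_waitK_mul {ψ φ : ℝ → ℝ}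
    (hψ : IntegrableOn (fun τ => Real.exp (-totalRate b (conf (pos h)) * τ) * ψ τ) (Ioi 0))
    (hφ : Integrable (fun x => φ x * b x (conf (pos h)))) :
    Integrable (fun z => ψ z.1 * φ z.2) (waitK b n h) := by
  rw [gb.integrable_waitK_iff h]
  have := Integrable.mul_prod hψ hφ
  refine this.congr ?_
  filter_upwards with z
  ring

lemma GoodRate.isMarkov : IsMarkovKernel (waitK b n) := by
  constructor
  intro h
  have hq := gb.q_pos (conf_nonempty (pos h))
  constructor
  have h1 := lintegral_waitK gb.meas n h (g := fun _ => 1) measurable_const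
  rw [lintegral_one] at h1
  rw [h1]
  have h2 : ∀ τ : ℝ, ∫⁻ x : ℝ, 1 * dens b h (τ, x) =
      ENNReal.ofReal (Real.exp (-totalRate b (conf (pos h)) * τ)) *
        ENNReal.ofReal (totalRate b (conf (pos h))) := by
    intro τ
    have h3 : ENNReal.ofReal (totalRate b (conf (pos h))) =
        ∫⁻ x, ENNReal.ofReal (b x (conf (pos h))) := by
      unfold totalRate
      rw [ofReal_integral_eq_lintegral_ofReal (gb.integ _) (ae_of_all _ fun x => gb.nonneg _ _)]
    rw [h3, ← lintegral_const_mul' _ _ ENNReal.ofReal_ne_top]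
    apply lintegral_congr
    intro x
    simp only [dens, one_mul]
    rw [ENNReal.ofReal_mul (Real.exp_pos _).le]
  simp only [h2]
  rw [lintegral_mul_const' _ _ ENNReal.ofReal_ne_top]
  rw [← ofReal_integral_eq_lintegral_ofReal]
  · have h4 := intexp0 hq
    simp only [mul_one] at h4
    rw [h4, ← ENNReal.ofReal_mul (by positivity)]
    rw [one_div, inv_mul_cancel₀ hq.ne']
    simp
  · have h4 := iexp0 hq
    simp only [mul_one] at h4
    exact h4
  · exact ae_of_all _ fun x => (Real.exp_pos _).le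

end wait

end Pool.Agent.Work.MPe8003b
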