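import Pool.Agent.Work.MP_e8003b_pr.Cond

open MeasureTheory ProbabilityTheory Set Filter Topology
open scoped ENNReal

namespace Pool.Agent.Work.MPe8003b

variable {b : ℝ → Finset ℝ → ℝ} {ϱ : ℝ}

/-- at least one particle within distance `ρ` -/
def P1 (ρ : ℝ) (x : ℝ) (η : Finset ℝ) : Prop := ∃ y ∈ η, |x - y| ≤ ρ

lemma P1.mono {ρ ρ' : ℝ} (hρ : ρ ≤ ρ') {x : ℝ} {η ζ : Finset ℝ} (hη : η ⊆ ζ) (h : P1 ρ x η) :
    P1 ρ' x ζ := by
  obtain ⟨y, hy, h1⟩ := h
  exact ⟨y, hη hy, h1.trans hρ⟩

lemma P1_insert {ρ x y : ℝ} {η : Finset ℝ} : P1 ρ x (insert y η) ↔ |x - y| ≤ ρ ∨ P1 ρ x η := by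
  unfold P1
  simp

lemma measurableSet_P1 (ρ : ℝ) (n : ℕ) :
    MeasurableSet {p : ℝ × (Fin n → ℝ) | P1 ρ p.1 (conf p.2)} := by
  have h1 : {p : ℝ × (Fin n → ℝ) | P1 ρ p.1 (conf p.2)} =
      ⋃ i : Fin n, {p : ℝ × (Fin n → ℝ) | |p.1 - p.2 i| ≤ ρ} := by
    ext p
    simp [P1, conf]
  rw [h1]
  apply MeasurableSet.iUnion
  intro i
  apply measurableSet_le _ measurable_const
  exact continuous_abs.measurable.comp
    (measurable_fst.sub ((measurable_pi_apply i).comp measurable_snd))

/-- bounded finite range rates; `ϱ` is a radius at which the rate is at least `1`, and new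
particles are born within distance `2 ϱ` of the old ones -/
structure Nice (b : ℝ → Finset ℝ → ℝ) (ϱ : ℝ) : Prop where
  meas : MeasRate b
  nonneg : ∀ x η, 0 ≤ b x η
  le_two : ∀ x η, b x η ≤ 2
  one_le : 1 ≤ ϱ
  supp : ∀ x η, b x η ≠ 0 → P1 3 x η
  jump : ∀ x η, b x η ≠ 0 → P1 (2 * ϱ) x η
  low : ∀ x η, P1 ϱ x η → 1 ≤ b x η

lemma exists_conf (η : Finset ℝ) : ∃ y : Fin η.card → ℝ, conf y = η := by
  refine ⟨fun i => (η.equivFin.symm i : ℝ), ?_⟩
  unfold conf
  ext z
  simp only [Finset.mem_image, Finset.mem_univ, true_and]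
  constructor
  · rintro ⟨i, rfl⟩
    exact (η.equivFin.symm i).2
  · intro hz
    exact ⟨η.equivFin ⟨z, hz⟩, by simp⟩

lemma exists_conf_succ {η : Finset ℝ} (h : η.Nonempty) :
    ∃ n, ∃ y : Fin (n+1) → ℝ, conf y = η := by
  have h1 : ∃ n, ∃ y : Fin n → ℝ, conf y = η := ⟨_, exists_conf η⟩
  obtain ⟨n, y, hy⟩ := h1
  cases n with
  | zero =>
    exfalso
    rw [← hy] at h
    simp [conf] at h
  | succ n => exact ⟨n, y, hy⟩

lemma MeasRate.measurable_left (hb : MeasRate b) (η : Finset ℝ) : Measurable (fun x => b x η) := by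
  obtain ⟨y, hy⟩ := exists_conf η
  rw [← hy]
  exact (hb _).comp (measurable_id.prodMk measurable_const)

lemma integrable_ind (s t c : ℝ) :
    Integrable ((Icc s t).indicator (fun _ : ℝ => c)) := by
  rw [integrable_indicator_iff measurableSet_Icc]
  exact integrableOn_const (by simp)

lemma integral_ind {s t : ℝ} (hst : s ≤ t) (c : ℝ) :
    ∫ x, (Icc s t).indicator (fun _ : ℝ => c) x = (t - s) * c := by
  rw [integral_indicator measurableSet_Icc, setIntegral_const, smul_eq_mul, measureReal_def,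
    Real.volume_Icc, ENNReal.toReal_ofReal (by linarith)]

lemma Nice.le_sum (hb : Nice b ϱ) (x : ℝ) (η : Finset ℝ) :
    b x η ≤ ∑ y ∈ η, (Icc (y - 3) (y + 3)).indicator (fun _ : ℝ => (2:ℝ)) x := by
  by_cases h : b x η = 0
  · rw [h]
    exact Finset.sum_nonneg fun y _ => indicator_nonneg (fun _ _ => by norm_num) _
  · obtain ⟨y, hy, hxy⟩ := hb.supp x η h
    rw [abs_le] at hxy
    have h1 : (Icc (y - 3) (y + 3)).indicator (fun _ : ℝ => (2:ℝ)) x = 2 := by
      rw [indicator_of_mem]
      constructor <;> linarith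
    calc b x η ≤ 2 := hb.le_two x η
      _ = (Icc (y - 3) (y + 3)).indicator (fun _ : ℝ => (2:ℝ)) x := h1.symm
      _ ≤ _ := Finset.single_le_sum
        (f := fun y => (Icc (y - 3) (y + 3)).indicator (fun _ : ℝ => (2:ℝ)) x)
        (fun y _ => indicator_nonneg (fun _ _ => by norm_num) _) hy

lemma Nice.integrable (hb : Nice b ϱ) (η : Finset ℝ) : Integrable (fun x => b x η) := by
  have h1 : Integrable (fun x => ∑ y ∈ η, (Icc (y - 3) (y + 3)).indicator
      (fun _ : ℝ => (2:ℝ)) x) := integrable_finsetSum _ fun y _ => integrable_ind _ _ _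
  refine h1.mono' (hb.meas.measurable_left η).aestronglyMeasurable ?_
  filter_upwards with x
  rw [Real.norm_eq_abs, abs_of_nonneg (hb.nonneg _ _)]
  exact hb.le_sum x η

lemma Nice.good (hb : Nice b ϱ) : GoodRate b 2 12 := by
  have h1ϱ := hb.one_le
  refine ⟨hb.meas, hb.nonneg, hb.integrable, by norm_num, ?_, ?_⟩
  · rintro η ⟨y, hy⟩
    unfold totalRate
    have h1 : ∫ x, (Icc (y - ϱ) (y + ϱ)).indicator (fun _ : ℝ => (1 : ℝ)) x ≤
        ∫ x, b x η := by
      apply integral_mono (integrable_ind _ _ _) (hb.integrable η)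
      intro x
      by_cases hx : x ∈ Icc (y - ϱ) (y + ϱ)
      · simp only [indicator_of_mem hx]
        apply hb.low
        refine ⟨y, hy, ?_⟩
        rw [abs_le]
        constructor <;> linarith [hx.1, hx.2]
      · simp only [indicator_of_notMem hx]
        exact hb.nonneg _ _
    rw [integral_ind (by linarith)] at h1
    linarith
  · intro η
    unfold totalRate
    have h1 : ∫ x, b x η ≤ ∫ x, ∑ y ∈ η, (Icc (y - 3) (y + 3)).indicator
        (fun _ : ℝ => (2:ℝ)) x := by
      apply integral_mono (hb.integrable η)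
        (integrable_finsetSum _ fun y _ => integrable_ind _ _ _)
      intro x
      exact hb.le_sum x η
    rw [integral_finsetSum _ fun y _ => integrable_ind _ _ _] at h1
    have h2 : ∀ y ∈ η, ∫ x, (Icc (y - 3) (y + 3)).indicator (fun _ : ℝ => (2:ℝ)) x = 12 := by
      intro y _
      rw [integral_ind (by linarith)]
      ring
    rw [Finset.sum_congr rfl h2, Finset.sum_const, nsmul_eq_mul] at h1
    linarith

section env
variable (m α β p q : ℝ)

lemma integrable_env : Integrable ((Ioc (m + α) (m + β)).indicator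
    (fun x : ℝ => p * (x - m) + q)) := by
  rw [integrable_indicator_iff measurableSet_Ioc]
  apply Continuous.integrableOn_Ioc
  fun_prop

lemma integral_env (h : α ≤ β) : ∫ x, (Ioc (m + α) (m + β)).indicator
    (fun x : ℝ => p * (x - m) + q) x = p * (β ^ 2 - α ^ 2) / 2 + q * (β - α) := by
  rw [integral_indicator measurableSet_Ioc, ← intervalIntegral.integral_of_le (by linarith),
    intervalIntegral.integral_comp_sub_right (fun u => p * u + q) m]
  rw [show m + α - m = α by ring, show m + β - m = β by ring]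
  rw [intervalIntegral.integral_add (by apply Continuous.intervalIntegrable; fun_prop)
    (by apply Continuous.intervalIntegrable; fun_prop)]
  rw [intervalIntegral.integral_const_mul, integral_id, intervalIntegral.integral_const,
    smul_eq_mul]
  ring

end env

end Pool.Agent.Work.MPe8003b
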