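import Pool.Agent.Work.MP_e8003b_pr.Front
import Pool.Agent.Work.MP_e8003b_pr.Fill

open MeasureTheory ProbabilityTheory Set Filter Topology
open scoped ENNReal

namespace Pool.Agent.Work.MPe8003b

/-- one half of the shape theorem -/
def HalfShape (r s : ℝ) {Ω : Type} (T Y : ℕ → Ω → ℝ) (ω : Ω) : Prop :=
  ∀ ε : ℝ, 0 < ε → ε < 1 → ∃ t₀ : ℝ, ∀ t : ℝ, t₀ ≤ t → ∀ n : ℕ, T n ω ≤ t → t < T (n + 1) ω →
    (∀ z : ℝ, 0 ≤ z → z ≤ (1 - ε) * s * t → ∃ x ∈ confAt Y n ω, |z - x| ≤ r) ∧
    (∀ x ∈ confAt Y n ω, x + r ≤ (1 + ε) * s * t)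

section det
variable {Ω : Type} {T Y : ℕ → Ω → ℝ} {ω : Ω} {ϱ ρ s : ℝ}

lemma confAt_nonempty (n : ℕ) : (confAt Y n ω).Nonempty := conf_nonempty _

lemma confAt_mono {m n : ℕ} (h : m ≤ n) : confAt Y m ω ⊆ confAt Y n ω := by
  induction n, h using Nat.le_induction with
  | base => exact Finset.Subset.refl _
  | succ n _ ih =>
    rw [confAt_succ]
    exact ih.trans (Finset.subset_insert _ _)

lemma mx_mono {η ζ : Finset ℝ} (hη : η.Nonempty) (h : η ⊆ ζ) : mx η ≤ mx ζ :=
  (top_mx (hη.mono h)).le _ (h (top_mx hη).mem)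

lemma exists_index (hT : Tendsto (fun n => T n ω) atTop atTop) (hT0 : T 0 ω = 0) {t : ℝ}
    (ht : 0 ≤ t) : ∃ n, T n ω ≤ t ∧ t < T (n+1) ω := by
  classical
  have h1 : ∃ n, t < T n ω := (hT.eventually_gt_atTop t).exists
  have h2 := Nat.find_spec h1
  have h3 : Nat.find h1 ≠ 0 := by
    intro h0
    rw [h0, hT0] at h2
    linarith
  obtain ⟨k, hk⟩ := Nat.exists_eq_succ_of_ne_zero h3
  refine ⟨k, ?_, ?_⟩
  · have := Nat.find_min h1 (m := k) (by omega)
    push Not at this
    exact this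
  · rw [hk] at h2
    exact h2

lemma coverage (hY0 : Y 0 ω = 0) (hϱ : 0 ≤ ϱ)
    (hjump : ∀ n, mx (confAt Y (n+1) ω) ≤ mx (confAt Y n ω) + 2 * ϱ) (n : ℕ) :
    ∀ z, 0 ≤ z → z ≤ mx (confAt Y n ω) → P1 ϱ z (confAt Y n ω) := by
  induction n with
  | zero =>
    intro z hz0 hz1
    have h1 : confAt Y 0 ω = {0} := by
      unfold confAt conf
      ext x
      simp [hY0]
    have h2 : mx (confAt Y 0 ω) = 0 := by
      have := (top_mx (confAt_nonempty (Y := Y) (ω := ω) 0)).mem
      rw [h1] at this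
      rw [h1]
      simpa using this
    rw [h2] at hz1
    refine ⟨0, by rw [h1]; simp, ?_⟩
    have : z = 0 := le_antisymm hz1 hz0
    rw [this]; simpa using hϱ
  | succ n ih =>
    intro z hz0 hz1
    by_cases hz : z ≤ mx (confAt Y n ω)
    · exact (ih z hz0 hz).mono le_rfl (confAt_mono (Nat.le_succ n))
    · push Not at hz
      by_cases hz2 : z - mx (confAt Y n ω) ≤ ϱ
      · refine ⟨mx (confAt Y n ω), confAt_mono (Nat.le_succ n)
          (top_mx (confAt_nonempty n)).mem, ?_⟩
        rw [abs_le]; constructor <;> linarith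
      · refine ⟨mx (confAt Y (n+1) ω), (top_mx (confAt_nonempty (n+1))).mem, ?_⟩
        have := hjump n
        push Not at hz2
        rw [abs_le]; constructor <;> linarith

lemma V_ge (hlt : ∀ n, T n ω < T (n+1) ω) {z : ℝ} {n' : ℕ} {n : ℕ} (hn : n' ≤ n)
    (hbad : ∀ k, n' ≤ k → k < n → P1 ϱ z (confAt Y k ω) ∧ ¬ P1 ρ z (confAt Y k ω)) :
    T n ω - T n' ω ≤ V ϱ ρ z T Y n ω := by
  induction n, hn using Nat.le_induction with
  | base =>
    rw [sub_self]
    unfold V
    exact Finset.sum_nonneg fun k _ => mul_nonneg (sub_nonneg.mpr (hlt k).le)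
      (badI_nonneg _ _ _ _)
  | succ n hn ih =>
    have h1 := ih (fun k hk1 hk2 => hbad k hk1 (by omega))
    have h2 : badI ϱ ρ z (confAt Y n ω) = 1 := by
      unfold badI
      rw [if_pos (hbad n hn (Nat.lt_succ_self n))]
    have h3 : V ϱ ρ z T Y (n+1) ω = V ϱ ρ z T Y n ω + (T (n+1) ω - T n ω) *
        badI ϱ ρ z (confAt Y n ω) := by
      unfold V
      rw [Finset.sum_range_succ]
    rw [h3, h2]
    linarith

lemma halfShape_of {r : ℝ} (hs : 0 < s) (hr : 0 < r) (hρ : 0 < ρ) (hρr : 2 * ρ ≤ r) (hϱ : 0 ≤ ϱ)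
    (hT : Tendsto (fun n => T n ω) atTop atTop) (hlt : ∀ n, T n ω < T (n+1) ω)
    (hT0 : T 0 ω = 0) (hY0 : Y 0 ω = 0)
    (hjump : ∀ n, mx (confAt Y (n+1) ω) ≤ mx (confAt Y n ω) + 2 * ϱ)
    (hlim : Tendsto (fun n => mx (confAt Y n ω) / T n ω) atTop (𝓝 s))
    (hfill : ∀ m : ℕ, ∃ C : ℝ, ∀ j n : ℕ, V ϱ ρ (j * ρ) T Y n ω ≤ C + 1 / ((m:ℝ) + 1) * j) :
    HalfShape r s T Y ω := by
  intro ε hε hε1
  have hmono : StrictMono (fun n => T n ω) := strictMono_nat_of_lt_succ hlt
  have hTnn : ∀ n, 0 ≤ T n ω := by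
    intro n
    have := hmono.monotone (Nat.zero_le n)
    simp only [hT0] at this
    exact this
  -- eventually the front is at the right place
  have h1 : ∀ᶠ n in atTop, (1 - ε / 4) * s * T n ω ≤ mx (confAt Y n ω) ∧
      mx (confAt Y n ω) ≤ (1 + ε / 2) * s * T n ω := by
    have h2 := hlim.eventually (lt_mem_nhds (show (1 - ε / 4) * s < s by nlinarith))
    have h3 := hlim.eventually (gt_mem_nhds (show s < (1 + ε / 2) * s by nlinarith))
    filter_upwards [h2, h3, hT.eventually_gt_atTop 0] with n a1 a2 a3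
    rw [lt_div_iff₀ a3] at a1
    rw [div_lt_iff₀ a3] at a2
    exact ⟨a1.le, a2.le⟩
  obtain ⟨N, hN⟩ := h1.exists_forall_of_atTop
  -- the filling constant
  obtain ⟨m, hm⟩ := exists_nat_gt (4 * s / (ε * ρ))
  obtain ⟨C, hC⟩ := hfill m
  have hc : 1 / ((m:ℝ) + 1) * (s / ρ) ≤ ε / 4 := by
    rw [div_lt_iff₀ (by positivity)] at hm
    rw [div_mul_div_comm, one_mul, div_le_div_iff₀ (by positivity) (by norm_num)]
    nlinarith
  refine ⟨max (2 * T N ω) (max (4 * |C| / ε + 1) (max (8 * ϱ / (ε * s)) (2 * r / (ε * s)))), ?_⟩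
  intro t ht n hn1 hn2
  have t1 : 2 * T N ω ≤ t := (le_max_left _ _).trans ht
  have ht' := (le_max_right _ _).trans ht
  have t2 : 4 * |C| / ε + 1 ≤ t := (le_max_left _ _).trans ht'
  have ht'' := (le_max_right _ _).trans ht'
  have t3 : 8 * ϱ / (ε * s) ≤ t := (le_max_left _ _).trans ht''
  have t4 : 2 * r / (ε * s) ≤ t := (le_max_right _ _).trans ht''
  have hεs : 0 < ε * s := mul_pos hε hs
  rw [div_le_iff₀ hεs] at t3 t4
  have t0 : 0 < t := by
    have : 0 ≤ 4 * |C| / ε := by positivity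
    linarith
  have t5 : 4 * |C| < ε * t := by
    have h4 : 4 * |C| / ε < t := by linarith
    rw [div_lt_iff₀ hε] at h4
    linarith
  have hnN : N < n + 1 := by
    by_contra h
    push Not at h
    have := hmono.monotone h
    beta_reduce at this
    have := hTnn N
    linarith
  have hnN' : N ≤ n := Nat.lt_succ_iff.mp hnN
  constructor
  · intro z hz0 hz1
    -- the grid point
    set j : ℕ := ⌊z / ρ⌋₊ with hj
    have hj1 : (j:ℝ) * ρ ≤ z := by
      have := Nat.floor_le (div_nonneg hz0 hρ.le)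
      rw [le_div_iff₀ hρ] at this
      exact this
    have hj2 : z < ((j:ℝ) + 1) * ρ := by
      have := Nat.lt_floor_add_one (z / ρ)
      rw [div_lt_iff₀ hρ] at this
      exact this
    have hfin : P1 ρ ((j:ℝ) * ρ) (confAt Y n ω) := by
      by_contra hcon
      -- the time at which the front passes
      set t' := (1 - ε / 2) * t with ht'def
      have ht'0 : 0 ≤ t' := by
        have : 0 < 1 - ε / 2 := by linarith
        positivity
      obtain ⟨n', hn1', hn2'⟩ := exists_index hT hT0 ht'0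
      have ht'N : T N ω ≤ t' := by
        rw [ht'def]
        nlinarith
      have hn'N : N ≤ n' + 1 := by
        by_contra h
        push Not at h
        have := hmono.monotone h.le
        beta_reduce at this
        linarith
      have hfront : (1 - ε) * s * t ≤ mx (confAt Y n' ω) := by
        have a1 := hjump n'
        have a2 := (hN (n'+1) hn'N).1
        have a3 : (1 - ε / 4) * s * t' ≤ (1 - ε / 4) * s * T (n'+1) ω := by
          apply mul_le_mul_of_nonneg_left hn2'.le
          have : 0 < 1 - ε / 4 := by linarith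
          positivity
        have a4 : (1 - ε / 4) * s * t' = (1 - 3 / 4 * ε) * s * t + ε ^ 2 / 8 * (s * t) := by
          rw [ht'def]; ring
        have a5 : 0 ≤ ε ^ 2 / 8 * (s * t) := by positivity
        nlinarith
      have hnn' : n' ≤ n := by
        by_contra h
        push Not at h
        have := hmono.monotone h
        simp only [Nat.succ_eq_add_one] at this
        have : t' ≤ t := by rw [ht'def]; nlinarith
        linarith
      have hge := V_ge (ϱ := ϱ) (ρ := ρ) (Y := Y) hlt (z := (j:ℝ) * ρ) (n' := n') (n := n + 1)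
        (by omega) (by
          intro k hk1 hk2
          refine ⟨?_, ?_⟩
          · apply coverage hY0 hϱ hjump k _ (by positivity)
            have := mx_mono (confAt_nonempty n') (confAt_mono (Y := Y) (ω := ω) hk1)
            linarith
          · intro h
            exact hcon (h.mono le_rfl (confAt_mono (by omega))))
      have hle := hC j (n+1)
      have a1 : (j:ℝ) ≤ s / ρ * t := by
        have : (j:ℝ) * ρ ≤ s * t := by
          have : (1 - ε) * s * t ≤ s * t := by
            have : 0 ≤ ε * (s * t) := by positivity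
            nlinarith
          linarith
        rw [div_mul_eq_mul_div, le_div_iff₀ hρ]
        exact this
      have a2 : 1 / ((m:ℝ) + 1) * j ≤ ε / 4 * t := by
        calc 1 / ((m:ℝ) + 1) * j ≤ 1 / ((m:ℝ) + 1) * (s / ρ * t) := by
              apply mul_le_mul_of_nonneg_left a1 (by positivity)
          _ = (1 / ((m:ℝ) + 1) * (s / ρ)) * t := by ring
          _ ≤ ε / 4 * t := mul_le_mul_of_nonneg_right hc t0.le
      have a3 := le_abs_self C
      have a4 : t' = t - ε / 2 * t := by rw [ht'def]; ring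
      nlinarith
    obtain ⟨x, hx, hx2⟩ := hfin
    refine ⟨x, hx, ?_⟩
    rw [abs_le] at hx2 ⊢
    constructor <;> linarith
  · intro x hx
    have a1 := (top_mx (confAt_nonempty (Y := Y) (ω := ω) n)).le x hx
    have a2 := (hN n hnN').2
    have a3 : (1 + ε / 2) * s * T n ω ≤ (1 + ε / 2) * s * t := by
      apply mul_le_mul_of_nonneg_left hn1
      positivity
    nlinarith

end det

end Pool.Agent.Work.MPe8003b
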