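import Pool.Agent.Work.MP_e8003b_pr.Kern

open MeasureTheory ProbabilityTheory Set Filter Topology
open scoped ENNReal

namespace Pool.Agent.Work.MPe8003b

variable {b : ℝ → Finset ℝ → ℝ}

section
variable {Ω : Type} [MeasurableSpace Ω] {P : Measure Ω} {T Y : ℕ → Ω → ℝ}

/-- history up to the `n`-th birth -/
def hist (T Y : ℕ → Ω → ℝ) (n : ℕ) (ω : Ω) : Fin (n+1) → ℝ × ℝ := fun k => (T k ω, Y k ω)

/-- the next (waiting time, place) -/
def inc (T Y : ℕ → Ω → ℝ) (n : ℕ) (ω : Ω) : ℝ × ℝ := (T (n+1) ω - T n ω, Y (n+1) ω)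

omit [MeasurableSpace Ω] in
lemma conf_pos_hist (n : ℕ) (ω : Ω) : conf (pos (hist T Y n ω)) = confAt Y n ω := rfl

lemma IsBirthProcess.measurable_hist (hP : IsBirthProcess b P T Y) (n : ℕ) :
    Measurable (hist T Y n) := by
  unfold hist
  exact measurable_pi_lambda _ fun k => (hP.measT k).prodMk (hP.measY k)

lemma IsBirthProcess.measurable_inc (hP : IsBirthProcess b P T Y) (n : ℕ) :
    Measurable (inc T Y n) := by
  unfold inc
  exact ((hP.measT _).sub (hP.measT _)).prodMk (hP.measY _)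

lemma IsBirthProcess.lintegral_inc (hP : IsBirthProcess b P T Y) (hb : MeasRate b) (n : ℕ)
    {G : (Fin (n+1) → ℝ × ℝ) × (ℝ × ℝ) → ℝ≥0∞} (hG : Measurable G) :
    ∫⁻ ω, G (hist T Y n ω, inc T Y n ω) ∂P =
      ∫⁻ ω, ∫⁻ z, G (hist T Y n ω, z) ∂(waitK b n (hist T Y n ω)) ∂P := by
  have h1 := hP.step n (fun p => G (p.1, (p.2.1 - (p.1 (Fin.last n)).1, p.2.2)))
    (by
      apply hG.comp
      fun_prop)
  have h2 : ∀ ω, G (hist T Y n ω, inc T Y n ω) =
      (fun p : (Fin (n+1) → ℝ × ℝ) × (ℝ × ℝ) => G (p.1, (p.2.1 - (p.1 (Fin.last n)).1, p.2.2)))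
        (fun k => (T k ω, Y k ω), (T (n + 1) ω, Y (n + 1) ω)) := by
    intro ω
    simp only [inc, Fin.val_last]
    rfl
  rw [lintegral_congr h2, h1]
  apply lintegral_congr
  intro ω
  have h3 := lintegral_waitK hb n (hist T Y n ω) (g := fun z => G (hist T Y n ω, z))
    (hG.comp measurable_prodMk_left)
  rw [h3]
  apply lintegral_congr
  intro τ
  apply lintegral_congr
  intro x
  simp only [Fin.val_last, add_sub_cancel_left]
  rfl

lemma IsBirthProcess.map_inc (hP : IsBirthProcess b P T Y) (hb : MeasRate b) (n : ℕ) :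
    P.map (fun ω => (hist T Y n ω, inc T Y n ω)) = (P.map (hist T Y n)) ⊗ₘ (waitK b n) := by
  have := hP.prob
  have : IsProbabilityMeasure (P.map (hist T Y n)) :=
    Measure.isProbabilityMeasure_map (hP.measurable_hist n).aemeasurable
  ext s hs
  have hm : Measurable (fun ω => (hist T Y n ω, inc T Y n ω)) :=
    (hP.measurable_hist n).prodMk (hP.measurable_inc n)
  rw [Measure.map_apply hm hs, Measure.compProd_apply hs, lintegral_map]
  · have h := hP.lintegral_inc hb n (G := s.indicator 1) (measurable_one.indicator hs)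
    have h1 : ∫⁻ ω, s.indicator 1 (hist T Y n ω, inc T Y n ω) ∂P =
        P ((fun ω => (hist T Y n ω, inc T Y n ω)) ⁻¹' s) := by
      rw [← lintegral_indicator_one (hm hs)]
      rfl
    rw [← h1, h]
    apply lintegral_congr
    intro ω
    rw [← lintegral_indicator_one (measurable_prodMk_left hs)]
    rfl
  · exact Kernel.measurable_kernel_prodMk_left hs
  · exact hP.measurable_hist n

end

end Pool.Agent.Work.MPe8003b
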